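import Pool.Agent.H34.ES.Lim
import Pool.Agent.H67.KH.Roots

/-! # ES.Spc : specialisation of points of `W`, elementary facts (complete, no sorry) -/

namespace ES

open H68.BB Polynomial
open H67.KH (mem_of_root mem_of_cubic rd_of_mem rd_cst sigma_cst sigma_tt)

/-- `(β : x : -y)` -/
def Pt.neg {s : ℕ} {F : Type} [Neg F] (P : Pt s F) : Pt s F := ⟨P.β, P.x, -P.y⟩

variable {K : Type} [Field K] {s k : ℕ} {W : Wm K s}

/-- the coordinate vector multiplied by the scalar `c` -/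
def Pt.smul {F : Type} [Field F] (W : Wm K s) (c : F) (P : Pt s F) : Pt s F :=
  ⟨fun i => c ^ W.v i * P.β i, c ^ (2 * W.n) * P.x, c ^ (3 * W.n) * P.y⟩

theorem ev_scale {F : Type} [Field F] [Algebra K F] {v : Fin s → ℕ} {q : MvPolynomial (Fin s) K} {m : ℕ}
    (hq : MvPolynomial.IsWeightedHomogeneous v q m) (c : F) (β : Fin s → F) :
    ev q (fun i => c ^ v i * β i) = c ^ m * ev q β := by
  unfold ev
  rw [MvPolynomial.aeval_def, MvPolynomial.aeval_def, MvPolynomial.eval₂_eq', MvPolynomial.eval₂_eq',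
    Finset.mul_sum]
  refine Finset.sum_congr rfl fun d hd => ?_
  have h1 : ∏ i, (c ^ v i) ^ d i = c ^ m := by
    have h2 := hq (MvPolynomial.mem_support_iff.1 hd)
    rw [← h2, Finsupp.weight_apply, Finsupp.sum_fintype _ _ (fun i => by simp), ← Finset.prod_pow_eq_pow_sum]
    refine Finset.prod_congr rfl fun i _ => ?_
    rw [← pow_mul, smul_eq_mul, mul_comm]
  simp only [mul_pow, Finset.prod_mul_distrib]
  rw [h1]
  ring

/-- polynomials of positive weight vanish at zero -/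
theorem ev_zero {F : Type} [Field F] [Algebra K F] {v : Fin s → ℕ} {q : MvPolynomial (Fin s) K} {m : ℕ}
    (hq : MvPolynomial.IsWeightedHomogeneous v q m) (hm : 0 < m) : ev q (0 : Fin s → F) = 0 := by
  have h := ev_scale hq (0 : F) 0
  rw [zero_pow hm.ne', zero_mul] at h
  rw [← h]
  congr 1
  funext i
  rw [Pi.zero_apply, mul_zero]

/-- reduction of the value of a polynomial with coefficients in `K` -/
theorem rd_ev {π : Place K (Om K)} (q : MvPolynomial (Fin s) K) {β : Fin s → Om K} {β' : Fin s → K}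
    (h : ∀ i, Rd π.V π.φ (β i) (β' i)) : Rd π.V π.φ (ev q β) (ev q β') := by
  unfold ev
  induction q using MvPolynomial.induction_on with
  | C c =>
    rw [MvPolynomial.aeval_C, MvPolynomial.aeval_C]
    exact π.const c
  | add p q hp hq => rw [map_add, map_add]; exact hp.add hq
  | mul_X p i hp =>
    rw [map_mul, map_mul, MvPolynomial.aeval_X, MvPolynomial.aeval_X]
    exact hp.mul (h i)

theorem ev_cst (q : MvPolynomial (Fin s) K) (β : Fin s → K) :
    ev q (fun i => algebraMap K (Om K) (β i)) = algebraMap K (Om K) (ev q β) := by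
  unfold ev
  exact MvPolynomial.aeval_algebraMap_apply _ _ _

theorem sigma_ev (σ : Om K ≃ₐ[RatFunc K] Om K) (q : MvPolynomial (Fin s) K) (β : Fin s → Om K) :
    σ (ev q β) = ev q (fun i => σ (β i)) := by
  unfold ev
  have h : ∀ c : K, σ (algebraMap K (Om K) c) = algebraMap K (Om K) c := sigma_cst σ
  induction q using MvPolynomial.induction_on with
  | C c => rw [MvPolynomial.aeval_C, MvPolynomial.aeval_C]; exact h c
  | add p q hp hq => rw [map_add, map_add, map_add, hp, hq]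
  | mul_X p i hp => rw [map_mul, map_mul, map_mul, MvPolynomial.aeval_X, MvPolynomial.aeval_X, hp]

variable {π : Place K (Om K)}

theorem Sp_fin {P : Pt s (Om K)} {p : Pt s K} (hp : p.NZ) (hβ : ∀ i, Rd π.V π.φ (P.β i) (p.β i))
    (hx : Rd π.V π.φ P.x p.x) (hy : Rd π.V π.φ P.y p.y) : Sp W π P p := by
  refine ⟨hp, 1, one_ne_zero, ?_, ?_, ?_⟩
  · intro i
    rw [one_pow, one_mul]; exact hβ i
  · rw [one_pow, one_mul]; exact hx
  · rw [one_pow, one_mul]; exact hy

theorem Sp_neg {P : Pt s (Om K)} {p : Pt s K} (h : Sp W π P p) : Sp W π P.neg p.neg := by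
  obtain ⟨hp, c, hc, h0, h2, h3⟩ := h
  refine ⟨?_, c, hc, h0, h2, ?_⟩
  · rcases hp with hp | hp | hp
    · exact Or.inl hp
    · exact Or.inr (Or.inl hp)
    · exact Or.inr (Or.inr (neg_ne_zero.2 hp))
  · have h4 := h3.neg
    rw [← mul_neg] at h4
    exact h4

theorem Sp_smul {P : Pt s (Om K)} {p : Pt s K} (h : Sp W π P p) {c : K} (hc : c ≠ 0) : Sp W π P (p.smul W c) := by
  obtain ⟨hp, d, hd, h0, h2, h3⟩ := h
  have hc' : Rd π.V π.φ (algebraMap K (Om K) c) c := π.const c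
  have hcc : algebraMap K (Om K) c ≠ 0 := (map_ne_zero_iff _ (algebraMap K (Om K)).injective).2 hc
  refine ⟨?_, algebraMap K (Om K) c * d, mul_ne_zero hcc hd, ?_, ?_, ?_⟩
  · rcases hp with hp | hp | hp
    · left
      intro h1
      apply hp
      funext i
      have h2 : c ^ W.v i * p.β i = 0 := congrFun h1 i
      exact (mul_eq_zero.1 h2).resolve_left (pow_ne_zero _ hc)
    · exact Or.inr (Or.inl (mul_ne_zero (pow_ne_zero _ hc) hp))
    · exact Or.inr (Or.inr (mul_ne_zero (pow_ne_zero _ hc) hp))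
  · intro i
    rw [mul_pow, mul_assoc]; exact (hc'.pow _).mul (h0 i)
  · rw [mul_pow, mul_assoc]; exact (hc'.pow _).mul h2
  · rw [mul_pow, mul_assoc]; exact (hc'.pow _).mul h3

/-- the constant point -/
theorem Sp_cst (π : Place K (Om K)) {p : Pt s K} (hp : p.NZ) : Sp W π (p.map (algebraMap K (Om K))) p :=
  Sp_fin hp (fun _ => π.const _) (π.const _) (π.const _)

theorem OnW_neg {F : Type} [Field F] [Algebra K F] {P : Pt s F} (h : OnW W P) : OnW W P.neg := by
  refine ⟨?_, h.2.1, ?_⟩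
  · rcases h.1 with hp | hp | hp
    · exact Or.inl hp
    · exact Or.inr (Or.inl hp)
    · exact Or.inr (Or.inr (neg_ne_zero.2 hp))
  · have h2 := h.2.2
    show (-P.y) ^ 2 = P.x ^ 3 - 3 * ev W.a P.β * P.x - 2 * ev W.b P.β
    rw [neg_sq]
    exact h2

theorem OnW_cst {p : Pt s K} (h : OnW W p) : OnW W (p.map (algebraMap K (Om K))) := by
  have hinj := (algebraMap K (Om K)).injective
  refine ⟨?_, ?_, ?_⟩
  · rcases h.1 with hp | hp | hp
    · left
      intro h1
      apply hp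
      funext i
      exact (map_eq_zero_iff _ hinj).1 (congrFun h1 i)
    · exact Or.inr (Or.inl ((map_ne_zero_iff _ hinj).2 hp))
    · exact Or.inr (Or.inr ((map_ne_zero_iff _ hinj).2 hp))
  · intro f hf
    show ev f (fun i => algebraMap K (Om K) (p.β i)) = 0
    rw [ev_cst, h.2.1 f hf, map_zero]
  · show (algebraMap K (Om K) p.y) ^ 2 = (algebraMap K (Om K) p.x) ^ 3 -
      3 * ev W.a (fun i => algebraMap K (Om K) (p.β i)) * algebraMap K (Om K) p.x -
      2 * ev W.b (fun i => algebraMap K (Om K) (p.β i))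
    rw [ev_cst, ev_cst, ← map_pow, h.2.2]
    simp only [map_sub, map_mul, map_pow, map_ofNat]

theorem OnW_o (hW : W.Ok) (F : Type) [Field F] [Algebra K F] : OnW W (o s F) := by
  refine ⟨Or.inr (Or.inl one_ne_zero), ?_, ?_⟩
  · intro f hf
    obtain ⟨m, hm, h⟩ := hW.I f hf
    exact ev_zero h hm
  · show (1 : F) ^ 2 = 1 ^ 3 - 3 * ev W.a (0 : Fin s → F) * 1 - 2 * ev W.b (0 : Fin s → F)
    rw [ev_zero hW.a (by have := hW.n; omega), ev_zero hW.b (by have := hW.n; omega)]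
    ring

theorem OnW_smul {F : Type} [Field F] [Algebra K F] (hW : W.Ok) {P : Pt s F} (h : OnW W P) {c : F} (hc : c ≠ 0) :
    OnW W (P.smul W c) := by
  refine ⟨?_, ?_, ?_⟩
  · rcases h.1 with hp | hp | hp
    · left
      intro h1
      apply hp
      funext i
      exact (mul_eq_zero.1 (congrFun h1 i : c ^ W.v i * P.β i = 0)).resolve_left (pow_ne_zero _ hc)
    · exact Or.inr (Or.inl (mul_ne_zero (pow_ne_zero _ hc) hp))
    · exact Or.inr (Or.inr (mul_ne_zero (pow_ne_zero _ hc) hp))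
  · intro f hf
    obtain ⟨m, hm, hh⟩ := hW.I f hf
    show ev f (fun i => c ^ W.v i * P.β i) = 0
    rw [ev_scale hh, h.2.1 f hf, mul_zero]
  · show (c ^ (3 * W.n) * P.y) ^ 2 = (c ^ (2 * W.n) * P.x) ^ 3 -
      3 * ev W.a (fun i => c ^ W.v i * P.β i) * (c ^ (2 * W.n) * P.x) - 2 * ev W.b (fun i => c ^ W.v i * P.β i)
    rw [ev_scale hW.a, ev_scale hW.b]
    linear_combination c ^ (6 * W.n) * h.2.2

/-- the specialisation is on `W` -/
theorem Sp_onW (hW : W.Ok) {P : Pt s (Om K)} {p : Pt s K} (hP : OnW W P) (h : Sp W π P p) : OnW W p := by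
  obtain ⟨hp, c, hc, h0, h2, h3⟩ := h
  refine ⟨hp, ?_, ?_⟩
  · intro f hf
    obtain ⟨m, hm, hh⟩ := hW.I f hf
    have h4 := rd_ev f h0
    rw [ev_scale hh, hP.2.1 f hf, mul_zero] at h4
    exact h4.unique Rd.zero
  · have ha' := rd_ev W.a h0
    have hb' := rd_ev W.b h0
    rw [ev_scale hW.a] at ha'
    rw [ev_scale hW.b] at hb'
    have h33 : Rd π.V π.φ (3 : Om K) 3 := Rd.three
    have h22 : Rd π.V π.φ (2 : Om K) 2 := Rd.two
    have h4 := ((h2.pow 3).sub ((h33.mul ha').mul h2)).sub (h22.mul hb')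
    have h5 := h3.pow 2
    have h6 : (c ^ (3 * W.n) * P.y) ^ 2 = (c ^ (2 * W.n) * P.x) ^ 3 - 3 * (c ^ (4 * W.n) * ev W.a P.β) *
        (c ^ (2 * W.n) * P.x) - 2 * (c ^ (6 * W.n) * ev W.b P.β) := by
      linear_combination c ^ (6 * W.n) * hP.2.2
    rw [h6] at h5
    exact h5.unique h4

/-- if the base point is integral with reduction `β' ≠ 0`, the base point of a specialisation is a multiple of `β'` -/
theorem Sp_base {P : Pt s (Om K)} {p : Pt s K} (h : Sp W π P p) (hv : ∀ i, 0 < W.v i) {β' : Fin s → K}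
    (hβ : ∀ i, Rd π.V π.φ (P.β i) (β' i)) (h0 : β' ≠ 0) : ∃ c : K, ∀ i, p.β i = c ^ W.v i * β' i := by
  have := π.isLocal
  obtain ⟨hp, c, hc, h1, -, -⟩ := h
  have hcV : c ∈ π.V := by
    by_contra hcV
    apply h0
    funext i
    by_contra hne
    have hci : Rd π.V π.φ c⁻¹ 0 := Rd.inv_zero hcV
    have h2 : Rd π.V π.φ (P.β i) 0 := by
      have h3 := (hci.pow (W.v i)).mul (h1 i)
      rw [zero_pow (hv i).ne', zero_mul, ← mul_assoc, ← mul_pow, inv_mul_cancel₀ hc, one_pow, one_mul] at h3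
      exact h3
    exact hne ((hβ i).unique h2)
  obtain ⟨c', hc'⟩ := rd_of_mem hcV
  exact ⟨c', fun i => (h1 i).unique ((hc'.pow _).mul (hβ i))⟩

/-- a constant point is fixed by the automorphisms -/
theorem map_cst (σ : Om K ≃ₐ[RatFunc K] Om K) (p : Pt s K) :
    (p.map (algebraMap K (Om K))).map σ = p.map (algebraMap K (Om K)) := by
  unfold Pt.map
  ext
  · exact sigma_cst σ _
  · exact sigma_cst σ _
  · exact sigma_cst σ _

theorem mem_of_pow {z : Om K} {n : ℕ} (hn : 0 < n) (h : z ^ n ∈ π.V) : z ∈ π.V := by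
  by_cases h0 : z = 0
  · rw [h0]; exact π.V.zero_mem
  rcases π.V.mem_or_inv_mem z with h1 | h1
  · exact h1
  · obtain ⟨k, rfl⟩ : ∃ k, n = k + 1 := ⟨n - 1, by omega⟩
    have h2 : z = z ^ (k + 1) * z⁻¹ ^ k := by
      rw [pow_succ, inv_pow]
      field_simp
    rw [h2]
    exact π.V.mul_mem _ _ h (pow_mem h1 k)

theorem red_ne_zero {z : Om K} {z' : K} {n : ℕ} (hn : 0 < n) (h : z ^ n = 1)
    (hz : Rd π.V π.φ z z') : z' ≠ 0 := by
  rintro rfl
  have h1 := hz.pow n
  rw [h, zero_pow hn.ne'] at h1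
  exact one_ne_zero (Rd.one.unique h1)

theorem Sp_exists [IsAlgClosed K] (hW : W.Ok) (π : Place K (Om K)) {P : Pt s (Om K)} (h : P.NZ) : ∃ p, Sp W π P p := by
  have hn := hW.n
  set N : ℕ := 6 * W.n * ∏ i, W.v i with hN
  have hpv : 0 < ∏ i, W.v i := Finset.prod_pos (fun i _ => hW.v i)
  have hN0 : 0 < N := by positivity
  have hdv : ∀ i, ∃ m, 0 < m ∧ W.v i * m = N := by
    intro i
    obtain ⟨m, hm⟩ : W.v i ∣ N := (Finset.dvd_prod_of_mem _ (Finset.mem_univ i)).mul_left _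
    refine ⟨m, ?_, hm.symm⟩
    rcases Nat.eq_zero_or_pos m with h0 | h0
    · rw [h0, mul_zero] at hm; omega
    · exact h0
  choose m hm0 hm using hdv
  let w : Fin s ⊕ Fin 2 → Om K := Sum.elim (fun i => P.β i ^ m i) ![P.x ^ (3 * ∏ i, W.v i), P.y ^ (2 * ∏ i, W.v i)]
  have hne : Nonempty (Fin s ⊕ Fin 2) := ⟨Sum.inr 0⟩
  obtain ⟨i, hi⟩ := Finite.exists_max (fun i => π.V.valuation (w i))
  have hw : w i ≠ 0 := by
    intro h0
    have h1 : ∀ j, w j = 0 := by
      intro j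
      have h2 := hi j
      simp only [h0, map_zero, le_zero_iff] at h2
      exact (Valuation.zero_iff _).1 h2
    rcases h with h | h | h
    · apply h
      funext j
      exact pow_eq_zero_iff (hm0 j).ne' |>.1 (h1 (Sum.inl j))
    · exact h (pow_eq_zero_iff (by positivity) |>.1 (h1 (Sum.inr 0)))
    · exact h (pow_eq_zero_iff (by positivity) |>.1 (h1 (Sum.inr 1)))
  obtain ⟨c, hc⟩ := IsAlgClosed.exists_pow_nat_eq (w i)⁻¹ (n := N) hN0
  have hc0 : c ≠ 0 := by
    rintro rfl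
    rw [zero_pow hN0.ne'] at hc
    exact (inv_ne_zero hw) hc.symm
  have hmV : ∀ j, c ^ N * w j ∈ π.V := by
    intro j
    rw [hc, ← ValuationSubring.valuation_le_one_iff, map_mul, map_inv₀]
    have h3 : π.V.valuation (w i) ≠ 0 := (Valuation.ne_zero_iff _).2 hw
    calc (π.V.valuation (w i))⁻¹ * π.V.valuation (w j)
        ≤ (π.V.valuation (w i))⁻¹ * π.V.valuation (w i) := by
          gcongr
          exact hi j
      _ = 1 := inv_mul_cancel₀ h3
  have e0 : ∀ j, (c ^ W.v j * P.β j) ^ m j = c ^ N * w (Sum.inl j) := by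
    intro j
    rw [mul_pow, ← pow_mul, hm j]
    rfl
  have e2 : (c ^ (2 * W.n) * P.x) ^ (3 * ∏ i, W.v i) = c ^ N * w (Sum.inr 0) := by
    rw [mul_pow, ← pow_mul, hN]
    have : w (Sum.inr 0) = P.x ^ (3 * ∏ i, W.v i) := rfl
    rw [this]
    congr 2
    ring
  have e3 : (c ^ (3 * W.n) * P.y) ^ (2 * ∏ i, W.v i) = c ^ N * w (Sum.inr 1) := by
    rw [mul_pow, ← pow_mul, hN]
    have : w (Sum.inr 1) = P.y ^ (2 * ∏ i, W.v i) := rfl
    rw [this]
    congr 2
    ring
  have r0 : ∀ j, ∃ p0, Rd π.V π.φ (c ^ W.v j * P.β j) p0 := fun j =>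
    rd_of_mem (mem_of_pow (hm0 j) (by rw [e0]; exact hmV _))
  choose p0 r0 using r0
  obtain ⟨p2, r2⟩ := rd_of_mem (mem_of_pow (z := c ^ (2 * W.n) * P.x) (n := 3 * ∏ i, W.v i) (by positivity)
    (by rw [e2]; exact hmV _))
  obtain ⟨p3, r3⟩ := rd_of_mem (mem_of_pow (z := c ^ (3 * W.n) * P.y) (n := 2 * ∏ i, W.v i) (by positivity)
    (by rw [e3]; exact hmV _))
  have hi1 : c ^ N * w i = 1 := by rw [hc, inv_mul_cancel₀ hw]
  refine ⟨⟨p0, p2, p3⟩, ?_, c, hc0, r0, r2, r3⟩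
  rcases i with i | i
  · left
    intro h1
    exact red_ne_zero (n := m i) (hm0 i) ((e0 i).trans hi1) (r0 i) (congrFun h1 i)
  · fin_cases i
    · exact Or.inr (Or.inl (red_ne_zero (n := 3 * ∏ i, W.v i) (by positivity) (e2.trans hi1) r2))
    · exact Or.inr (Or.inr (red_ne_zero (n := 2 * ∏ i, W.v i) (by positivity) (e3.trans hi1) r3))

/-- an integral base point and `x` not integral: the specialisation is `o` -/
theorem Sp_inf [IsAlgClosed K] (hW : W.Ok) {P : Pt s (Om K)} (h : OnW W P) (hβ : ∀ i, P.β i ∈ π.V)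
    (hx : P.x ∉ π.V) : Sp W π P (o s K) := by
  have := π.isLocal
  have hn := hW.n
  choose β' r0 using fun i => rd_of_mem (hβ i)
  have hx0 : P.x ≠ 0 := by
    intro h1
    rw [h1] at hx
    exact hx π.V.zero_mem
  have hxi : Rd π.V π.φ P.x⁻¹ 0 := Rd.inv_zero hx
  have hc4 : ∀ c : Om K, c ^ (2 * W.n) = P.x⁻¹ → Rd π.V π.φ c 0 := by
    intro c hc
    obtain ⟨c', hc'⟩ := rd_of_mem (mem_of_pow (π := π) (z := c) (n := 2 * W.n) (by omega)
      (by rw [hc]; exact hxi.mem))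
    have h2 := hc'.pow (2 * W.n)
    rw [hc] at h2
    have h3 : c' ^ (2 * W.n) = 0 := h2.unique hxi
    rwa [pow_eq_zero_iff (by omega : 2 * W.n ≠ 0) |>.1 h3] at hc'
  have hy : Rd π.V π.φ (P.x⁻¹ ^ 3 * P.y ^ 2) 1 := by
    have e : P.x⁻¹ ^ 3 * P.y ^ 2 = 1 - 3 * ev W.a P.β * P.x⁻¹ ^ 2 - 2 * ev W.b P.β * P.x⁻¹ ^ 3 := by
      rw [h.2.2]
      field_simp
    rw [e]
    have h33 : Rd π.V π.φ (3 : Om K) 3 := Rd.three
    have h22 : Rd π.V π.φ (2 : Om K) 2 := Rd.two
    have h3 := (Rd.one.sub ((h33.mul (rd_ev W.a r0)).mul (hxi.pow 2))).sub ((h22.mul (rd_ev W.b r0)).mul (hxi.pow 3))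
    have e2 : (1 : K) - 3 * ev W.a β' * 0 ^ 2 - 2 * ev W.b β' * 0 ^ 3 = 1 := by ring
    rwa [e2] at h3
  have key : ∀ c : Om K, c ^ (2 * W.n) = P.x⁻¹ → Rd π.V π.φ (c ^ (3 * W.n) * P.y) 1 → Sp W π P (o s K) := by
    intro c hc hcy
    refine ⟨Or.inr (Or.inl one_ne_zero), c, ?_, ?_, ?_, hcy⟩
    · rintro rfl
      rw [zero_pow (by omega)] at hc
      exact inv_ne_zero hx0 hc.symm
    · intro i
      have := ((hc4 c hc).pow (W.v i)).mul (r0 i)
      rwa [zero_pow (hW.v i).ne', zero_mul] at this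
    · have e : c ^ (2 * W.n) * P.x = 1 := by rw [hc, inv_mul_cancel₀ hx0]
      show Rd π.V π.φ (c ^ (2 * W.n) * P.x) 1
      rw [e]
      exact Rd.one
  obtain ⟨c, hc⟩ := IsAlgClosed.exists_pow_nat_eq P.x⁻¹ (n := 2 * W.n) (by omega)
  have e3 : (c ^ (3 * W.n) * P.y) ^ 2 = P.x⁻¹ ^ 3 * P.y ^ 2 := by
    rw [← hc]; ring
  obtain ⟨u, hu⟩ := rd_of_mem (mem_of_pow (π := π) (z := c ^ (3 * W.n) * P.y) (n := 2) (by norm_num)
    (by rw [e3]; exact hy.mem))
  have hu2 : u ^ 2 = 1 := by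
    have h2 := hu.pow 2
    rw [e3] at h2
    exact h2.unique hy
  rcases (show u = 1 ∨ u = -1 from by
      have h6 : (u - 1) * (u + 1) = 0 := by linear_combination hu2
      rcases mul_eq_zero.1 h6 with h7 | h7
      · exact Or.inl (sub_eq_zero.1 h7)
      · exact Or.inr (eq_neg_of_add_eq_zero_left h7)) with h3 | h3
  · rw [h3] at hu
    exact key c hc hu
  · obtain ⟨i, hi⟩ := IsAlgClosed.exists_pow_nat_eq (-1 : Om K) (n := W.n) (by omega)
    refine key (i * c) ?_ ?_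
    · rw [mul_pow, hc]
      have : i ^ (2 * W.n) = 1 := by
        have : i ^ (2 * W.n) = (i ^ W.n) ^ 2 := by ring
        rw [this, hi]; ring
      rw [this, one_mul]
    · have e4 : (i * c) ^ (3 * W.n) * P.y = -(c ^ (3 * W.n) * P.y) := by
        have : (i * c) ^ (3 * W.n) * P.y = (i ^ W.n) ^ 3 * (c ^ (3 * W.n) * P.y) := by ring
        rw [this, hi]; ring
      rw [e4]
      have h5 := hu.neg
      rw [h3, neg_neg] at h5
      exact h5

end ES
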