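import Pool.Agent.H34.ES.Lim
import Pool.Agent.H34.ES.Spc

/-! # ES.Alt : from the group `AA` back to cycles (about 150 lines)

`A : Cyc k s K →+ Cyc k s K`, `A (pt P) = alt P` (`Finsupp.liftAddHom` or `Finsupp.lift`).  `A` maps `Rel k W` into `RatEq k W`
(`AddSubgroup.closure_induction`):
(1) generators of `RatEq k W` (again `closure_induction`): for a permutation `σ` and `J : Finset (Fin k)` the map
`T P = fun i => if i ∈ J then o else P (σ i)` on tuples satisfies `AllOn (S.map T)` (`OnW_o hW`), `GalStable (S.map T)` (`o` is fixed),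
and `Multiset.Rel (SpT W π) (S.map T) (c.map T)` (`Multiset.rel_map`, `Multiset.Rel.mono`, `Sp_cst` with `map_cst`, or `Sp_fin`, for `o`);
so `cyc (c.map T) - cyc (c'.map T) ∈ RatEq`, and `alt P = ∑ σ, ∑ J, ± pt (T P)`.
(2) `P i₀ = o`: `alt P = 0` exactly: in `prod (P ∘ σ)` pair `J` with `J ∆ {σ⁻¹ i₀}` (`Finset.sum_involution`, or split the powerset).
(3) `alt (P ∘ σ) = sgn(σ) alt P` (reindex by `Equiv.mulRight`/`Equiv.mulLeft`).
Finally `N • cls W P = 0` means `N • pt P ∈ Rel k W`, and `A (N • pt P) = N • alt P`. -/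

namespace ES

open H68.BB

variable {K : Type} [Field K] {s k : ℕ} {W : Wm K s}

/-- permute the coordinates by `σ` and replace those in `J` by `o` -/
private def mv (F : Type) [Zero F] [One F] (σ : Equiv.Perm (Fin k)) (J : Finset (Fin k)) (P : Fin k → Pt s F) :
    Fin k → Pt s F :=
  fun i => if i ∈ J then o s F else P (σ i)

private theorem mv_allOn (hW : W.Ok) (σ : Equiv.Perm (Fin k)) (J : Finset (Fin k))
    {S : Multiset (Fin k → Pt s (Om K))} (h : AllOn W S) : AllOn W (S.map (mv (Om K) σ J)) := by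
  intro P hP i
  obtain ⟨Q, hQ, rfl⟩ := Multiset.mem_map.1 hP
  unfold mv
  split_ifs
  · exact OnW_o hW _
  · exact h Q hQ _

private theorem mv_gal (σ : Equiv.Perm (Fin k)) (J : Finset (Fin k))
    {S : Multiset (Fin k → Pt s (Om K))} (h : GalStable S) : GalStable (S.map (mv (Om K) σ J)) := by
  intro τ
  conv_rhs => rw [← h τ]
  rw [Multiset.map_map, Multiset.map_map]
  refine Multiset.map_congr rfl fun P _ => ?_
  funext i
  simp only [Function.comp_apply, mv]
  split_ifs
  · unfold Pt.map o
    ext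
    · exact map_zero τ
    · exact map_one τ
    · exact map_one τ
  · rfl

private theorem Sp_o (π : Place K (Om K)) : Sp W π (o s (Om K)) (o s K) := by
  refine Sp_fin (Or.inr (Or.inl one_ne_zero)) (fun i => ?_) ?_ ?_
  · exact Rd.zero
  · exact Rd.one
  · exact Rd.one

private theorem mv_rel (σ : Equiv.Perm (Fin k)) (J : Finset (Fin k)) {π : Place K (Om K)}
    {S : Multiset (Fin k → Pt s (Om K))} {c : Multiset (Fin k → Pt s K)} (h : Multiset.Rel (SpT W π) S c) :
    Multiset.Rel (SpT W π) (S.map (mv (Om K) σ J)) (c.map (mv K σ J)) := by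
  rw [Multiset.rel_map]
  refine Multiset.Rel.mono h fun P _ p _ hPp => ?_
  intro i
  unfold mv
  split_ifs
  · exact Sp_o π
  · exact hPp _

/-- the additive map with `pt P ↦ alt P` -/
private noncomputable def AA0 (k s : ℕ) (K : Type) [Field K] : Cyc k s K →ₗ[ℤ] Cyc k s K :=
  Finsupp.linearCombination ℤ (alt (K := K) (s := s) (k := k))

private theorem AA0_pt (P : Fin k → Pt s K) : AA0 k s K (pt P) = alt P := by
  unfold AA0 pt
  rw [Finsupp.linearCombination_single, one_smul]

private theorem AA0_cyc (c : Multiset (Fin k → Pt s K)) :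
    AA0 k s K (cyc c) = ∑ σ : Equiv.Perm (Fin k), (Equiv.Perm.sign σ : ℤ) •
      ∑ J : Finset (Fin k), (-1 : ℤ) ^ J.card • cyc (c.map (mv K σ J)) := by
  induction c using Multiset.induction_on with
  | empty => simp [cyc]
  | cons P c ih =>
    have e1 : ∀ (Q : Fin k → Pt s K) (d : Multiset (Fin k → Pt s K)), cyc (Q ::ₘ d) = pt Q + cyc d := by
      intro Q d
      unfold cyc
      rw [Multiset.map_cons, Multiset.sum_cons]
    rw [e1, map_add, AA0_pt, ih]
    simp only [Multiset.map_cons, e1, smul_add, Finset.sum_add_distrib]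
    rfl

private theorem AA0_gen (hW : W.Ok) {z : Cyc k s K} (hz : z ∈ RatEq k W) : AA0 k s K z ∈ RatEq k W := by
  unfold RatEq at hz
  induction hz using AddSubgroup.closure_induction with
  | mem z hz =>
    obtain ⟨S, π, π', c, c', hS, hG, h1, h2, rfl⟩ := hz
    rw [map_sub, AA0_cyc, AA0_cyc, ← Finset.sum_sub_distrib]
    refine AddSubgroup.sum_mem _ fun σ _ => ?_
    rw [← smul_sub, ← Finset.sum_sub_distrib]
    refine AddSubgroup.zsmul_mem _ (AddSubgroup.sum_mem _ fun J _ => ?_) _
    rw [← smul_sub]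
    refine AddSubgroup.zsmul_mem _ (AddSubgroup.subset_closure ?_) _
    exact ⟨S.map (mv (Om K) σ J), π, π', c.map (mv K σ J), c'.map (mv K σ J), mv_allOn hW σ J hS, mv_gal σ J hG,
      mv_rel σ J h1, mv_rel σ J h2, rfl⟩
  | zero => rw [map_zero]; exact AddSubgroup.zero_mem _
  | add x y _ _ hx hy => rw [map_add]; exact AddSubgroup.add_mem _ hx hy
  | neg x _ hx => rw [map_neg]; exact AddSubgroup.neg_mem _ hx

private theorem prod_o {P : Fin k → Pt s K} {i₀ : Fin k} (h : P i₀ = o s K) : prod P = 0 := by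
  unfold prod
  refine Finset.sum_involution (fun J _ => if i₀ ∈ J then J.erase i₀ else insert i₀ J) ?_ ?_ ?_ ?_
  · intro J _
    split_ifs with hJ
    · have hc : J.card = (J.erase i₀).card + 1 := (Finset.card_erase_add_one hJ).symm
      have hp : (fun i => if i ∈ J.erase i₀ then o s K else P i) = fun i => if i ∈ J then o s K else P i := by
        funext i
        by_cases hi : i = i₀
        · subst hi
          rw [if_neg (Finset.notMem_erase _ _), if_pos hJ, h]
        · simp only [Finset.mem_erase, ne_eq, hi, not_false_eq_true, true_and]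
      rw [hp, hc, pow_succ, ← add_smul]
      simp
    · have hc : (insert i₀ J).card = J.card + 1 := Finset.card_insert_of_notMem hJ
      have hp : (fun i => if i ∈ insert i₀ J then o s K else P i) = fun i => if i ∈ J then o s K else P i := by
        funext i
        by_cases hi : i = i₀
        · subst hi
          rw [if_pos (Finset.mem_insert_self _ _), if_neg hJ, h]
        · simp only [Finset.mem_insert, hi, false_or]
      rw [hp, hc, pow_succ, ← add_smul]
      simp
  · intro J _ _ he
    split_ifs at he with hJ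
    · rw [← he] at hJ
      exact Finset.notMem_erase _ _ hJ
    · rw [← he] at hJ
      exact hJ (Finset.mem_insert_self _ _)
  · intro J _
    exact Finset.mem_univ _
  · intro J _
    by_cases hJ : i₀ ∈ J
    · rw [if_pos hJ, if_neg (Finset.notMem_erase _ _), Finset.insert_erase hJ]
    · rw [if_neg hJ, if_pos (Finset.mem_insert_self _ _), Finset.erase_insert hJ]

private theorem alt_o {P : Fin k → Pt s K} {i₀ : Fin k} (h : P i₀ = o s K) : alt P = 0 := by
  unfold alt
  refine Finset.sum_eq_zero fun σ _ => ?_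
  rw [prod_o (i₀ := σ.symm i₀) (by rw [Equiv.apply_symm_apply, h]), smul_zero]

private theorem alt_perm (P : Fin k → Pt s K) (τ : Equiv.Perm (Fin k)) :
    alt (fun i => P (τ i)) = (Equiv.Perm.sign τ : ℤ) • alt P := by
  unfold alt
  rw [Finset.smul_sum]
  refine Fintype.sum_equiv (Equiv.mulLeft τ) _ _ fun σ => ?_
  rw [Equiv.coe_mulLeft, smul_smul, Equiv.Perm.sign_mul]
  congr 1
  rw [Units.val_mul, ← mul_assoc, ← Units.val_mul, Int.units_mul_self, Units.val_one, one_mul]

private theorem AA0_rel (hW : W.Ok) {z : Cyc k s K} (hz : z ∈ Rel k W) : AA0 k s K z ∈ RatEq k W := by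
  unfold Rel at hz
  induction hz using AddSubgroup.closure_induction with
  | mem z hz =>
    rcases hz with (hz | ⟨P, ⟨i, hi⟩, rfl⟩) | ⟨P, σ, rfl⟩
    · exact AA0_gen hW hz
    · rw [AA0_pt, alt_o hi]
      exact AddSubgroup.zero_mem _
    · rw [map_sub, map_smul, AA0_pt, AA0_pt, alt_perm, sub_self]
      exact AddSubgroup.zero_mem _
  | zero => rw [map_zero]; exact AddSubgroup.zero_mem _
  | add x y _ _ hx hy => rw [map_add]; exact AddSubgroup.add_mem _ hx hy
  | neg x _ hx => rw [map_neg]; exact AddSubgroup.neg_mem _ hx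

theorem alt_mem (hW : W.Ok) {P : Fin k → Pt s K} {N : ℕ} (h : N • cls W P = 0) : N • alt P ∈ RatEq k W := by
  have h1 : N • pt P ∈ Rel k W := by
    rw [← QuotientAddGroup.eq_zero_iff]
    exact h
  have h2 := AA0_rel hW h1
  rwa [map_nsmul, AA0_pt] at h2

end ES
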