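import Pool.Agent.H34.ES.Mir
import Pool.Agent.H36.ES.Cs1

/-! # ES.Cs1R : the relation for recutting in a list of links, and the relations `CS1`, `CS2` (complete, no sorry) -/

namespace ES

open H68.BB Polynomial

variable {K : Type} [Field K] {s k : ℕ} {W : Wm K s}

theorem PsiF_perm (f : Fin k → Lk s K) (σ : Equiv.Perm (Fin k)) :
    PsiF W (fun l => f (σ l)) = (Equiv.Perm.sign σ : ℤ) • PsiF W f := by
  unfold PsiF
  rw [Finset.smul_sum]
  refine Finset.sum_nbij' (fun z i => z (σ⁻¹ i)) (fun z i => z (σ i)) ?_ ?_ ?_ ?_ ?_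
  · intro z hz
    rw [mem_Z6] at hz ⊢
    refine ⟨fun i => hz.1 _, ?_⟩
    rw [Equiv.prod_comp σ⁻¹ z]
    exact hz.2
  · intro z hz
    rw [mem_Z6] at hz ⊢
    refine ⟨fun i => hz.1 _, ?_⟩
    rw [Equiv.prod_comp σ z]
    exact hz.2
  · intro z _
    funext i
    simp
  · intro z _
    funext i
    simp
  · intro z _
    rw [← cls_perm]
    congr 1
    funext i
    unfold tupF
    simp

variable [IsAlgClosed K] [CharZero K]

theorem recutRel (hW : W.Ok) (k : ℕ) : RecutRel W k := by
  classical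
  intro pre suf g1 g2 h2 h1 hR hl1 hl2 n1 n2 hc hok hb hn hlen
  have hlen' : pre.length + (suf.length + 1 + 1) = k := by
    rw [← hlen, List.length_append, List.length_cons, List.length_cons]
  set i : Fin k := ⟨pre.length, by omega⟩ with hi
  set j : Fin k := ⟨pre.length + 1, by omega⟩ with hj
  have hij : i ≠ j := by
    intro h
    have := congrArg Fin.val h
    simp [hi, hj] at this
  set f : Fin k → Lk s K := fun l => nth (pre ++ g1 :: g2 :: suf) l with hf
  have hmem : ∀ l : Fin k, f l ∈ pre ++ g1 :: g2 :: suf := fun l => nth_mem' (by rw [hlen]; exact l.2)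
  have hfi : f i = g1 := by
    rw [hf]
    show nth (pre ++ g1 :: g2 :: suf) pre.length = g1
    simp [nth]
  have hfj : f j = g2 := by
    rw [hf]
    show nth (pre ++ g1 :: g2 :: suf) (pre.length + 1) = g2
    simp [nth]
  have hall : AllOk W f := ⟨fun l => hok _ (hmem l), fun l => hb _ (hmem l), fun l => hn _ (hmem l)⟩
  have h0 := PsiF_recut hW hall hij (h1 := h1) (h2 := h2) (by rw [hfi]; exact hl1) (by rw [hfj]; exact hl2)
    (by rw [hfi, hfj]; exact hR) (by rw [hfi, hfj]; exact hc)
  set F := Function.update (Function.update f i h1) j h2 with hF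
  have h3 := PsiF_perm (W := W) F (Equiv.swap i j)
  rw [Equiv.Perm.sign_swap hij] at h3
  have e1 : (fun l : Fin k => nth (pre ++ h2 :: h1 :: suf) l) = fun l => F (Equiv.swap i j l) := by
    funext l
    by_cases hli : l = i
    · subst hli
      rw [Equiv.swap_apply_left, hF, Function.update_self]
      show nth (pre ++ h2 :: h1 :: suf) pre.length = h2
      simp [nth]
    · by_cases hlj : l = j
      · subst hlj
        rw [Equiv.swap_apply_right, hF, Function.update_of_ne hij, Function.update_self]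
        show nth (pre ++ h2 :: h1 :: suf) (pre.length + 1) = h1
        simp [nth]
      · rw [Equiv.swap_apply_of_ne_of_ne hli hlj, hF, Function.update_of_ne hlj, Function.update_of_ne hli, hf]
        show nth (pre ++ h2 :: h1 :: suf) l = nth (pre ++ g1 :: g2 :: suf) l
        have hli' : (l : ℕ) ≠ pre.length := fun h => hli (Fin.ext h)
        have hlj' : (l : ℕ) ≠ pre.length + 1 := fun h => hlj (Fin.ext h)
        unfold nth
        rcases Nat.lt_or_ge l pre.length with h | h
        · rw [List.getD_append _ _ _ _ h, List.getD_append _ _ _ _ h]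
        · rw [List.getD_append_right _ _ _ _ h, List.getD_append_right _ _ _ _ h]
          obtain ⟨m, hm⟩ : ∃ m, (l : ℕ) - pre.length = m + 2 := ⟨(l : ℕ) - pre.length - 2, by omega⟩
          rw [hm]
          rfl
  rw [Psi_eq, Psi_eq, e1, h3]
  have h4 : PsiF W F = - PsiF W f := by
    rw [eq_neg_iff_add_eq_zero, add_comm]
    exact h0
  rw [h4]
  have h5 : PsiF W f = PsiF W fun i : Fin k => nth (pre ++ g1 :: g2 :: suf) i := rfl
  rw [← h5]
  simp

/-- the moves between lists of links change the class by the sign of the move -/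
theorem cs1 (hW : W.Ok) {f f' : List (Lk s K)} {e : ℤ} (h : Mv f f' e) (h1 : ∀ g ∈ f, g.Ok W) (h2 : ∀ g ∈ f, g.1 ≠ 0)
    (h3 : ∀ g ∈ f, ND g.2.ab) (h4 : f.length = k) : Psi W k f' = e • Psi W k f :=
  (Psi_mv hW (recutRel hW k) h h1 h2 h3 h4).2

/-- the mirror relation in the form in which it is used -/
theorem cs2 (hW : W.Ok) (c : K) (f f' : List (Lk s K)) (hl : f.length = k) (hk : 0 < k) (hf : ∀ g ∈ f, g.Ok W)
    (hb : ∀ g ∈ f, g.1 ≠ 0) (hn : ∀ g ∈ f, ND g.2.ab) (hR : RotRel c f f')
    (hp : (tot (f.map Prod.snd)).p ≠ 0) (hps : (tot (f.map Prod.snd)).ps ≠ 0)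
    (hm : (tot (f.map Prod.snd)).m ≠ 0) (hms : (tot (f.map Prod.snd)).ms ≠ 0) (_ : (tot (f.map Prod.snd)).y ≠ 0)
    (hc : c = (tot (f.map Prod.snd)).p * (tot (f.map Prod.snd)).ms / ((tot (f.map Prod.snd)).m * (tot (f.map Prod.snd)).ps))
    (ht : tot (f'.map Prod.snd) = ⟨(tot (f.map Prod.snd)).w, (tot (f.map Prod.snd)).v, -(tot (f.map Prod.snd)).y⟩) :
    Psi W k f + Psi W k f' = 0 :=
  Psi_mirror hW hl hk hf hb hn hR hp hps hm hms hc (by rw [ht])

end ES
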