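import Pool.Agent.H34.ES.Spc

/-! # ES.Dh : dehomogenisation of binary forms (complete, no sorry) -/

namespace ES

open H68.BB Polynomial

variable {K : Type} [Field K] {n m : ℕ} {a b f : MvPolynomial (Fin 2) K}

/-- `f(1, X)` -/
noncomputable def dh (f : MvPolynomial (Fin 2) K) : K[X] := MvPolynomial.aeval (![1, X] : Fin 2 → K[X]) f

/-- binary forms of degrees `4n`, `6n` -/
theorem P1_ok (hn : 0 < n) (ha : a.IsHomogeneous (4 * n)) (hb : b.IsHomogeneous (6 * n)) : (P1 n a b).Ok where
  v := fun _ => Nat.one_pos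
  n := hn
  I := fun f hf => absurd hf (Set.notMem_empty f)
  a := ha
  b := hb

theorem aeval_dh {F : Type} [Field F] [Algebra K F] (f : MvPolynomial (Fin 2) K) (t : F) :
    aeval t (dh f) = ev f (![1, t] : Fin 2 → F) := by
  unfold dh ev
  rw [MvPolynomial.comp_aeval_apply]
  congr 2
  funext i
  match i with
  | 0 => exact map_one _
  | 1 => exact aeval_X t

theorem eval_dh (f : MvPolynomial (Fin 2) K) (t : K) : (dh f).eval t = ev f (![1, t] : Fin 2 → K) := by
  rw [← aeval_dh, coe_aeval_eq_eval]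

theorem dh_eq (f : MvPolynomial (Fin 2) K) : dh f = ∑ d ∈ f.support, C (f.coeff d) * X ^ d 1 := by
  unfold dh
  rw [MvPolynomial.aeval_def, MvPolynomial.eval₂_eq']
  refine Finset.sum_congr rfl fun d _ => ?_
  rw [Fin.prod_univ_two]
  show algebraMap K K[X] _ * ((1 : K[X]) ^ d 0 * X ^ d 1) = _
  rw [one_pow, one_mul]
  rfl

theorem supp_deg (hf : f.IsHomogeneous m) {d : Fin 2 →₀ ℕ} (hd : d ∈ f.support) : d 0 + d 1 = m := by
  have h := hf (MvPolynomial.mem_support_iff.1 hd)
  rw [← h, Finsupp.weight_apply, Finsupp.sum_fintype _ _ (fun _ => by simp), Fin.sum_univ_two]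
  simp

theorem natDegree_dh (hf : f.IsHomogeneous m) : (dh f).natDegree ≤ m := by
  rw [dh_eq]
  refine natDegree_sum_le_of_forall_le _ _ fun d hd => ?_
  refine (natDegree_C_mul_X_pow_le _ _).trans ?_
  have := supp_deg hf hd
  omega

theorem coeff_dh (hf : f.IsHomogeneous m) {d : Fin 2 →₀ ℕ} (hd : d 0 + d 1 = m) : (dh f).coeff (d 1) = f.coeff d := by
  rw [dh_eq, finset_sum_coeff]
  rw [Finset.sum_eq_single d]
  · rw [coeff_C_mul, coeff_X_pow, if_pos rfl, mul_one]
  · intro e he hne
    rw [coeff_C_mul, coeff_X_pow, if_neg, mul_zero]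
    intro h1
    apply hne
    have h2 := supp_deg hf he
    ext i
    match i with
    | 0 => omega
    | 1 => exact h1.symm
  · intro h
    rw [MvPolynomial.notMem_support_iff.1 h, map_zero, zero_mul, coeff_zero]

theorem dh_ne_zero (hf : f.IsHomogeneous m) (h0 : f ≠ 0) : dh f ≠ 0 := by
  intro h
  obtain ⟨d, hd⟩ := MvPolynomial.support_nonempty.2 h0
  have h1 := coeff_dh hf (supp_deg hf hd)
  rw [h, coeff_zero] at h1
  exact MvPolynomial.mem_support_iff.1 hd h1.symm

/-- the value at infinity is the coefficient of `X^m` -/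
theorem coeff_dh_inf (hf : f.IsHomogeneous m) : (dh f).coeff m = ev f (![0, 1] : Fin 2 → K) := by
  unfold ev
  rw [dh_eq, finset_sum_coeff, MvPolynomial.aeval_def, MvPolynomial.eval₂_eq']
  refine Finset.sum_congr rfl fun d hd => ?_
  rw [coeff_C_mul, coeff_X_pow, Fin.prod_univ_two]
  show _ = algebraMap K K (f.coeff d) * ((0 : K) ^ d 0 * 1 ^ d 1)
  rw [one_pow, mul_one]
  have h := supp_deg hf hd
  by_cases h0 : d 0 = 0
  · rw [if_pos (by omega), h0, pow_zero]
    rfl
  · rw [if_neg (by omega), zero_pow h0]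
    simp

theorem dh_mul (f g : MvPolynomial (Fin 2) K) : dh (f * g) = dh f * dh g := map_mul _ _ _

theorem dh_sub (f g : MvPolynomial (Fin 2) K) : dh (f - g) = dh f - dh g := map_sub _ _ _

theorem dh_pow (f : MvPolynomial (Fin 2) K) (r : ℕ) : dh (f ^ r) = dh f ^ r := map_pow _ _ _

end ES
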