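import Pool.Agent.H68.BB.Plc
import Pool.Agent.H68.BB.Red

/-! # ES.Def : zero-cycles on `W^k` for an elliptic surface `W : y^2 = x^3 - 3 a x - 2 b` over a base curve
(definitions only, no sorry)

`K` is a field (later: algebraically closed of characteristic zero), `Om K` the algebraic closure of `K(t)`, `Place K (Om K)`
a `K`-rational place of it (both from `H68.BB.Def`), `Rd V φ x a` means `x ∈ V` and `φ x = a` (`H68.BB.Red`).

The base is given by homogeneous coordinates `β : Fin s → F` of weights `v i` and a set `I` of weighted homogeneous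
equations; `x`, `y` have weights `2n`, `3n`.  For the base `ℙ¹`: `s = 2`, `v = 1`, `I = ∅` (`P1 n a b`). -/

namespace ES

open H68.BB

/-- homogeneous coordinates `(β : x : y)` in a weighted projective space -/
@[ext] structure Pt (s : ℕ) (F : Type) where
  β : Fin s → F
  x : F
  y : F

/-- apply a map to the coordinates -/
def Pt.map {s : ℕ} {F G : Type} (f : F → G) (P : Pt s F) : Pt s G := ⟨fun i => f (P.β i), f P.x, f P.y⟩

/-- not all coordinates are zero -/
def Pt.NZ {s : ℕ} {F : Type} [Zero F] (P : Pt s F) : Prop := P.β ≠ 0 ∨ P.x ≠ 0 ∨ P.y ≠ 0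

/-- the zero section, the point `(0 : 1 : 1)` -/
def o (s : ℕ) (F : Type) [Zero F] [One F] : Pt s F := ⟨0, 1, 1⟩

variable {K : Type} [Field K]

/-- the data of a Weierstrass model: weights, equations of the base, and the coefficients `a`, `b` -/
structure Wm (K : Type) [Field K] (s : ℕ) where
  /-- the weights of the coordinates of the base -/
  v : Fin s → ℕ
  /-- `x`, `y` have weights `2n`, `3n` -/
  n : ℕ
  /-- the equations of the base -/
  I : Set (MvPolynomial (Fin s) K)
  a : MvPolynomial (Fin s) K
  b : MvPolynomial (Fin s) K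

/-- positive weights, weighted homogeneous polynomials -/
structure Wm.Ok {s : ℕ} (W : Wm K s) : Prop where
  v : ∀ i, 0 < W.v i
  n : 0 < W.n
  I : ∀ f ∈ W.I, ∃ m, 0 < m ∧ MvPolynomial.IsWeightedHomogeneous W.v f m
  a : MvPolynomial.IsWeightedHomogeneous W.v W.a (4 * W.n)
  b : MvPolynomial.IsWeightedHomogeneous W.v W.b (6 * W.n)

/-- the base `ℙ¹` -/
def P1 (n : ℕ) (a b : MvPolynomial (Fin 2) K) : Wm K 2 := ⟨fun _ => 1, n, ∅, a, b⟩

/-- the value of a polynomial over `K` at a vector over an extension field -/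
noncomputable def ev {s : ℕ} {F : Type} [Field F] [Algebra K F] (f : MvPolynomial (Fin s) K) (β : Fin s → F) : F :=
  MvPolynomial.aeval β f

/-- the point lies on the surface `W : y^2 = x^3 - 3 a(β) x - 2 b(β)` -/
def OnW {s : ℕ} {F : Type} [Field F] [Algebra K F] (W : Wm K s) (P : Pt s F) : Prop :=
  P.NZ ∧ (∀ f ∈ W.I, ev f P.β = 0) ∧ P.y ^ 2 = P.x ^ 3 - 3 * ev W.a P.β * P.x - 2 * ev W.b P.β

/-- the value of the discriminant `b^2 - a^3` -/
noncomputable def dd {s : ℕ} {F : Type} [Field F] [Algebra K F] (W : Wm K s) (β : Fin s → F) : F :=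
  ev W.b β ^ 2 - ev W.a β ^ 3

variable {s k : ℕ}

/-- specialisation at a place: some scalar multiple of the coordinate vector `P` is integral and reduces to `p ≠ 0` -/
def Sp (W : Wm K s) (π : Place K (Om K)) (P : Pt s (Om K)) (p : Pt s K) : Prop :=
  p.NZ ∧ ∃ c : Om K, c ≠ 0 ∧ (∀ i, Rd π.V π.φ (c ^ W.v i * P.β i) (p.β i)) ∧
    Rd π.V π.φ (c ^ (2 * W.n) * P.x) p.x ∧ Rd π.V π.φ (c ^ (3 * W.n) * P.y) p.y

/-- specialisation of a `k`-tuple of points -/
def SpT (W : Wm K s) (π : Place K (Om K)) (P : Fin k → Pt s (Om K)) (p : Fin k → Pt s K) : Prop :=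
  ∀ i, Sp W π (P i) (p i)

/-- zero-cycles on the `k`-fold product: the free abelian group on `k`-tuples of coordinate vectors -/
abbrev Cyc (k s : ℕ) (K : Type) : Type := (Fin k → Pt s K) →₀ ℤ

/-- the zero-cycle given by one `k`-tuple of points -/
noncomputable def pt (P : Fin k → Pt s K) : Cyc k s K := Finsupp.single P 1

/-- the zero-cycle given by a multiset of tuples of points -/
noncomputable def cyc (S : Multiset (Fin k → Pt s K)) : Cyc k s K := (S.map pt).sum

/-- all points of the multiset lie on `W^k` -/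
def AllOn {F : Type} [Field F] [Algebra K F] (W : Wm K s) (S : Multiset (Fin k → Pt s F)) : Prop :=
  ∀ P ∈ S, ∀ i, OnW W (P i)

/-- a finite multiset of `k`-tuples of points over `Ω` which is stable under all automorphisms of `Ω` over `K(t)`: the generic
fibre of an effective 1-cycle of `ℙ¹ × W^k` all of whose components dominate `ℙ¹` -/
def GalStable (S : Multiset (Fin k → Pt s (Om K))) : Prop :=
  ∀ σ : Om K ≃ₐ[RatFunc K] Om K, S.map (fun P i => (P i).map σ) = S

/-- zero-cycles of `W^k` rationally equivalent to zero: the subgroup generated by the differences of two fibres over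
`ℙ¹` of effective 1-cycles of `ℙ¹ × W^k` which are dominant over `ℙ¹` (coordinate vectors of a specialisation
are only determined up to scalars, so this contains the differences of proportional coordinate vectors) -/
noncomputable def RatEq (k : ℕ) (W : Wm K s) : AddSubgroup (Cyc k s K) :=
  AddSubgroup.closure {z | ∃ (S : Multiset (Fin k → Pt s (Om K))) (π π' : Place K (Om K))
    (c c' : Multiset (Fin k → Pt s K)), AllOn W S ∧ GalStable S ∧ Multiset.Rel (SpT W π) S c ∧
    Multiset.Rel (SpT W π') S c' ∧ z = cyc c - cyc c'}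

/-- the zero-cycle `(P_0 - o) × ... × (P_(k-1) - o)` -/
noncomputable def prod (P : Fin k → Pt s K) : Cyc k s K :=
  ∑ J : Finset (Fin k), (-1 : ℤ) ^ J.card • pt (fun i => if i ∈ J then o s K else P i)

/-- the alternating sum `∑_σ sgn(σ) (P_σ(0) - o) × ... × (P_σ(k-1) - o)` -/
noncomputable def alt (P : Fin k → Pt s K) : Cyc k s K :=
  ∑ σ : Equiv.Perm (Fin k), (Equiv.Perm.sign σ : ℤ) • prod (fun i => P (σ i))

/-- the point `(1 : t : x : y)` over the base `ℙ¹` -/
def pp {F : Type} [One F] (t x y : F) : Pt 2 F := ⟨![1, t], x, y⟩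

end ES
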