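import Pool.Agent.H34.ES.Fib

/-! # ES.ExtF : from almost all points of a fibre to all points (about 120 lines)

`φ Q := h (sl W P i Q)`.  If `dd W β = 0` use `sl_sing`.  Otherwise let `Q = (β, x0, y0)`, `A = ev W.a β`, `B = ev W.b β`.  For a slope `m` put
`c = y0 - m x0`; `x0` is a root of `epol A B m c`, and by `sl_line` the sum of `φ (β, x, m x + c)` over the roots is `0`
(`map_multiset_sum`).  For all but finitely many `m` the point `x0` is a simple root (`derivative` at `x0` is
`3 x0^2 - 3 A - 2 m y0`; if `y0 = 0` it is not `0` because `B^2 ≠ A^3`) and no other root `x` gives a point of the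
finite bad set (such a point `(x, y) ≠ Q` determines `m = (y - y0)/(x - x0)`, there is no `m` if `x = x0`).  `K` is
infinite, so such an `m` exists, hence `φ Q = 0`.
(The case that `β` is not on the base is empty: `OnW` contains the equations.) -/

namespace ES

open H68.BB Polynomial

variable {K : Type} [Field K] [IsAlgClosed K] [CharZero K] {s k : ℕ} {W : Wm K s} {P : Fin k → Pt s K}

omit [IsAlgClosed K] in
private theorem extf_slope {A B x0 y0 : K} (hd : B ^ 2 - A ^ 3 ≠ 0) (h : y0 ^ 2 = x0 ^ 3 - 3 * A * x0 - 2 * B)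
    (S : Set K) (hS : S.Finite) : ∃ m : K, m ∉ S ∧ 3 * x0 ^ 2 - 3 * A - 2 * m * y0 ≠ 0 := by
  have hT : (S ∪ {(3 * x0 ^ 2 - 3 * A) / (2 * y0)}).Finite := hS.union (Set.finite_singleton _)
  obtain ⟨m, hm⟩ := hT.infinite_compl.nonempty
  rw [Set.mem_compl_iff, Set.mem_union, not_or] at hm
  refine ⟨m, hm.1, fun h1 => ?_⟩
  by_cases hy : y0 = 0
  · apply hd
    rw [hy] at h h1
    have h3 : (3 : K) ≠ 0 := by norm_num
    have h2 : (2 : K) ≠ 0 := by norm_num
    have hA : A = x0 ^ 2 := by
      have e : 3 * (A - x0 ^ 2) = 0 := by linear_combination -h1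
      rcases mul_eq_zero.1 e with e | e
      · exact absurd e h3
      · exact sub_eq_zero.1 e
    have hB : B = -x0 ^ 3 := by
      have e : 2 * (B + x0 ^ 3) = 0 := by
        rw [hA] at h
        linear_combination h
      rcases mul_eq_zero.1 e with e | e
      · exact absurd e h2
      · linear_combination e
    rw [hA, hB]
    ring
  · apply hm.2
    rw [Set.mem_singleton_iff]
    have h2 : (2 : K) ≠ 0 := by norm_num
    field_simp
    linear_combination -h1

private theorem extf_simple {A B x0 m c : K} (hne : 3 * x0 ^ 2 - 3 * A - 2 * m * (m * x0 + c) ≠ 0)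
    (hr : x0 ∈ (epol A B m c).roots) : ∃ t : Multiset K, (epol A B m c).roots = x0 ::ₘ t ∧ x0 ∉ t := by
  classical
  obtain ⟨t, ht⟩ := Multiset.exists_cons_of_mem hr
  refine ⟨t, ht, fun hx => ?_⟩
  have h1 : 1 < (epol A B m c).rootMultiplicity x0 := by
    rw [← count_roots, ht, Multiset.count_cons_self]
    have := Multiset.count_pos.2 hx
    omega
  have h2 := ((one_lt_rootMultiplicity_iff_isRoot (epol_ne A B m c)).1 h1).2
  apply hne
  rw [IsRoot.def] at h2
  unfold epol at h2
  simp only [derivative_sub, derivative_mul, derivative_pow, derivative_add, derivative_X, derivative_C,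
    eval_sub, eval_add, eval_mul, eval_pow, eval_X, eval_C, eval_one, eval_zero] at h2
  push_cast at h2
  linear_combination h2

theorem ext_fib (hW : W.Ok) (hP : ∀ j, OnW W (P j)) (i : Fin k) {β : Fin s → K} (hβ : β ≠ 0) {B : Type} [AddCommGroup B]
    (h : AA k W →+ B) (hfin : {Q : Pt s K | OnW W Q ∧ Q.β = β ∧ h (sl W P i Q) ≠ 0}.Finite) {Q : Pt s K} (hQ : OnW W Q)
    (hQβ : Q.β = β) : h (sl W P i Q) = 0 := by
  classical
  by_cases hd : dd W β = 0
  · rw [sl_sing hW hP i hQ (by rw [hQβ]; exact hd), map_zero]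
  subst hQβ
  obtain ⟨m, hmS, hm⟩ := extf_slope (A := ev W.a Q.β) (B := ev W.b Q.β) (x0 := Q.x) (y0 := Q.y) hd hQ.2.2
    ((fun R : Pt s K => (R.y - Q.y) / (R.x - Q.x)) '' {R : Pt s K | OnW W R ∧ R.β = Q.β ∧ h (sl W P i R) ≠ 0})
    (hfin.image _)
  set c : K := Q.y - m * Q.x with hc
  have hmc : m * Q.x + c = Q.y := by rw [hc]; ring
  have hroot : Q.x ∈ (epol (ev W.a Q.β) (ev W.b Q.β) m c).roots := by
    rw [mem_roots (epol_ne _ _ _ _), IsRoot.def]
    unfold epol
    simp only [eval_sub, eval_add, eval_mul, eval_pow, eval_X, eval_C]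
    rw [hmc, hQ.2.2]
    ring
  obtain ⟨t, ht, hxt⟩ := extf_simple (by rw [hmc]; exact hm) hroot
  have hline := sl_line (P := P) hW hP i hβ (fun f hf => hQ.2.1 f hf) m c
  have h1 := congrArg h hline
  rw [map_zero, map_multiset_sum, Multiset.map_map, ht, Multiset.map_cons, Multiset.sum_cons] at h1
  have h2 : (t.map (h ∘ fun x => sl W P i ⟨Q.β, x, m * x + c⟩)).sum = 0 := by
    apply Multiset.sum_eq_zero
    intro z hz
    obtain ⟨x, hx, rfl⟩ := Multiset.mem_map.1 hz
    by_contra hne
    have hxr : x ∈ (epol (ev W.a Q.β) (ev W.b Q.β) m c).roots := by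
      rw [ht]
      exact Multiset.mem_cons_of_mem hx
    have hxQ : x - Q.x ≠ 0 := by
      intro e
      apply hxt
      rw [← sub_eq_zero.1 e]
      exact hx
    apply hmS
    refine ⟨⟨Q.β, x, m * x + c⟩, ⟨⟨Or.inl hβ, hQ.2.1, epol_root hxr⟩, rfl, hne⟩, ?_⟩
    show (m * x + c - Q.y) / (x - Q.x) = m
    rw [← hmc]
    field_simp
    ring
  rw [h2, add_zero] at h1
  have h3 : (⟨Q.β, Q.x, m * Q.x + c⟩ : Pt s K) = Q := by
    rw [hmc]
  rw [Function.comp_apply, h3] at h1
  exact h1

end ES
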