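import Pool.Agent.H34.ES.Slot

/-! # ES.Fib : one-slot relations: scalars, `-P`, singular fibres, collinear points of a fibre (complete, no sorry) -/

namespace ES

open H68.BB Polynomial
open H67.KH (mem_of_root mem_of_cubic rd_of_mem rd_cst sigma_cst sigma_tt roots_rd roots_sigma)

variable {K : Type} [Field K] [IsAlgClosed K] [CharZero K] {s k : ℕ} {W : Wm K s} {P : Fin k → Pt s K}

omit [CharZero K] in
/-- the two standard places: `tt ↦ 1`, and `tt⁻¹ ∉ V` at `tt ↦ 0` -/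
theorem two_places (K : Type) [Field K] [IsAlgClosed K] : ∃ π1 π0 : Place K (Om K), Rd π1.V π1.φ (tt K)⁻¹ 1 ∧
    (tt K)⁻¹ ∉ π0.V ∧ Rd π0.V π0.φ (tt K) 0 ∧ Rd π1.V π1.φ (tt K) 1 := by
  obtain ⟨π0, m0, hm0⟩ := place_exists K 0
  obtain ⟨π1, m1, hm1⟩ := place_exists K 1
  have i0 := π0.isLocal
  have i1 := π1.isLocal
  have ht0 : tt K ≠ 0 := by
    intro h
    exact tt_ne K 0 (h.trans (map_zero (algebraMap K (Om K))).symm)
  have r0 : Rd π0.V π0.φ (tt K) 0 := ⟨m0, hm0⟩
  have r1 : Rd π1.V π1.φ (tt K) 1 := ⟨m1, hm1⟩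
  refine ⟨π1, π0, ?_, Rd.not_mem (by rw [inv_inv]; exact r0) (inv_ne_zero ht0), r0, r1⟩
  have := r1.inv one_ne_zero
  rwa [inv_one] at this

omit [CharZero K] in
theorem sl_smul (hP : ∀ j, OnW W (P j)) (i : Fin k) {Q : Pt s K} (hQ : OnW W Q) {c : K} (hc : c ≠ 0) :
    sl W P i (Q.smul W c) = sl W P i Q := by
  obtain ⟨π, -, -⟩ := place_exists K 0
  have h := slot_eq (W := W) hP i (A := {Q.map (algebraMap K (Om K))}) (B := {Q.smul W c}) (B' := {Q}) (π := π)
    (π' := π) ?_ ?_ ?_ ?_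
  · simpa using h
  · intro s hs
    rw [Multiset.mem_singleton] at hs
    subst hs
    exact OnW_cst hQ
  · intro σ
    rw [Multiset.map_singleton, map_cst]
  · exact Multiset.Rel.cons (Sp_smul (Sp_cst π hQ.1) hc) Multiset.Rel.zero
  · exact Multiset.Rel.cons (Sp_cst π hQ.1) Multiset.Rel.zero

omit [CharZero K] in
theorem sl_zero (hW : W.Ok) (hP : ∀ j, OnW W (P j)) (i : Fin k) {Q : Pt s K} (hQ : OnW W Q) (h0 : Q.β = 0) :
    sl W P i Q = 0 := by
  have hn := hW.n
  have h2 := hQ.2.2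
  rw [h0, ev_zero hW.a (by omega), ev_zero hW.b (by omega)] at h2
  have h2 : Q.y ^ 2 = Q.x ^ 3 := by linear_combination h2
  have h3 : Q.x ≠ 0 ∧ Q.y ≠ 0 := by
    rcases hQ.1 with h | h | h
    · exact absurd h0 h
    · refine ⟨h, fun hy => h ?_⟩
      rw [hy, zero_pow (by norm_num)] at h2
      exact pow_eq_zero_iff (by norm_num) |>.1 h2.symm
    · refine ⟨fun hx => h ?_, h⟩
      rw [hx, zero_pow (by norm_num)] at h2
      exact pow_eq_zero_iff (by norm_num) |>.1 h2
  obtain ⟨hx, hy⟩ := h3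
  obtain ⟨c, hc⟩ := IsAlgClosed.exists_pow_nat_eq (Q.x / Q.y) (n := W.n) hn
  have hc0 : c ≠ 0 := by
    rintro rfl
    rw [zero_pow hn.ne'] at hc
    exact div_ne_zero hx hy hc.symm
  have e1 : Q.smul W c = o s K := by
    have e4 : c ^ (2 * W.n) * Q.x = 1 := by
      have : c ^ (2 * W.n) = (Q.x / Q.y) ^ 2 := by rw [← hc]; ring
      rw [this]
      field_simp
      exact h2.symm
    have e6 : c ^ (3 * W.n) * Q.y = 1 := by
      have : c ^ (3 * W.n) = (Q.x / Q.y) ^ 3 := by rw [← hc]; ring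
      rw [this]
      field_simp
      exact h2.symm
    unfold Pt.smul o
    rw [h0, e4, e6]
    congr 1
    funext i
    rw [Pi.zero_apply, mul_zero]
  rw [← sl_smul hP i hQ hc0, e1, sl_o]

/-- the cubic polynomial of a line -/
noncomputable def epol {F : Type} [Field F] (A B m n : F) : F[X] :=
  X ^ 3 - C (3 * A) * X - C (2 * B) - (C m * X + C n) ^ 2

theorem epol_eq {F : Type} [Field F] (A B m n : F) :
    epol A B m n = (Cubic.mk 1 (-m ^ 2) (-(3 * A) - 2 * m * n) (-(2 * B) - n ^ 2) : Cubic F).toPoly := by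
  unfold epol Cubic.toPoly
  simp only [map_one, map_neg, map_sub, map_mul, map_pow, map_ofNat]
  ring

theorem epol_deg {F : Type} [Field F] (A B m n : F) : (epol A B m n).natDegree = 3 := by
  rw [epol_eq]
  exact Cubic.natDegree_of_a_ne_zero one_ne_zero

theorem epol_ne {F : Type} [Field F] (A B m n : F) : epol A B m n ≠ 0 := by
  rw [epol_eq]
  exact Cubic.ne_zero_of_a_ne_zero one_ne_zero

theorem epol_root {F : Type} [Field F] {A B m n x : F} (h : x ∈ (epol A B m n).roots) :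
    (m * x + n) ^ 2 = x ^ 3 - 3 * A * x - 2 * B := by
  have h1 := (mem_roots (epol_ne A B m n)).1 h
  unfold epol at h1
  simp only [IsRoot.def, eval_sub, eval_add, eval_mul, eval_pow, eval_X, eval_C] at h1
  exact (sub_eq_zero.1 h1).symm

omit [IsAlgClosed K] [CharZero K] in
theorem epol_rd {π : Place K (Om K)} {A B m n : Om K} {A' B' m' n' : K}
    (hA : Rd π.V π.φ A A') (hB : Rd π.V π.φ B B') (hm : Rd π.V π.φ m m') (hn : Rd π.V π.φ n n') (i : ℕ) :
    Rd π.V π.φ ((epol A B m n).coeff i) ((epol A' B' m' n').coeff i) := by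
  rw [epol_eq, epol_eq]
  have h3 : Rd π.V π.φ (3 : Om K) 3 := Rd.three
  have h2 : Rd π.V π.φ (2 : Om K) 2 := Rd.two
  match i with
  | 0 => rw [Cubic.coeff_eq_d, Cubic.coeff_eq_d]; exact (h2.mul hB).neg.sub (hn.pow 2)
  | 1 =>
    rw [Cubic.coeff_eq_c, Cubic.coeff_eq_c]
    exact (h3.mul hA).neg.sub ((h2.mul hm).mul hn)
  | 2 => rw [Cubic.coeff_eq_b, Cubic.coeff_eq_b]; exact (hm.pow 2).neg
  | 3 => rw [Cubic.coeff_eq_a, Cubic.coeff_eq_a]; exact Rd.one
  | i + 4 =>
    rw [Cubic.coeff_eq_zero (by omega), Cubic.coeff_eq_zero (by omega)]; exact Rd.zero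

omit [CharZero K] in
/-- collinear points of a fibre -/
theorem sl_line (hW : W.Ok) (hP : ∀ j, OnW W (P j)) (i : Fin k) {β : Fin s → K} (hβ : β ≠ 0)
    (hI : ∀ f ∈ W.I, ev f β = 0) (m n : K) :
    (((epol (ev W.a β) (ev W.b β) m n).roots).map (fun x => sl W P i ⟨β, x, m * x + n⟩)).sum = 0 := by
  classical
  obtain ⟨π, π', hr, hn', hr0, -⟩ := two_places K
  set cs : K →+* Om K := algebraMap K (Om K) with hcs
  set n1 : Om K := cs n - 1 + (tt K)⁻¹ with hn1
  set A : Om K := cs (ev W.a β) with hA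
  set B : Om K := cs (ev W.b β) with hB
  set p : (Om K)[X] := epol A B (cs m) n1 with hp
  set f : Om K → Pt s (Om K) := fun x => ⟨fun i => cs (β i), x, cs m * x + n1⟩ with hf
  have hon : ∀ x ∈ p.roots, OnW W (f x) := by
    intro x hx
    refine ⟨Or.inl ?_, ?_, ?_⟩
    · intro h
      apply hβ
      funext j
      exact (map_eq_zero_iff _ cs.injective).1 (congrFun h j)
    · intro g hg
      show ev g (fun i => cs (β i)) = 0
      rw [ev_cst, hI g hg, map_zero]
    · have h1 := epol_root hx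
      show (cs m * x + n1) ^ 2 = x ^ 3 - 3 * ev W.a (fun i => cs (β i)) * x - 2 * ev W.b (fun i => cs (β i))
      rw [ev_cst, ev_cst]
      exact h1
  have hGal : ∀ σ : Om K ≃ₐ[RatFunc K] Om K, (p.roots.map f).map (Pt.map σ) = p.roots.map f := by
    intro σ
    have e1 : ∀ c : K, σ (cs c) = cs c := fun c => sigma_cst σ c
    have e2 : σ n1 = n1 := by
      rw [hn1, map_add, map_sub, map_one, map_inv₀, e1, sigma_tt]
    have hpσ : p.map (σ : Om K →+* Om K) = p := by
      have e1' : ∀ c : K, (σ : Om K →+* Om K) (cs c) = cs c := e1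
      have e2' : (σ : Om K →+* Om K) n1 = n1 := e2
      have e3' : (σ : Om K →+* Om K) 3 = 3 := map_ofNat _ 3
      have e4' : (σ : Om K →+* Om K) 2 = 2 := map_ofNat _ 2
      rw [hp]
      unfold epol
      rw [hA, hB]
      simp only [Polynomial.map_sub, Polynomial.map_add, Polynomial.map_mul, Polynomial.map_pow, map_X,
        Polynomial.map_C, RingHom.map_mul, e3', e4', e1', e2']
    have h2 := roots_sigma σ p
    rw [hpσ] at h2
    rw [Multiset.map_map]
    have h3 : Pt.map σ ∘ f = f ∘ σ := by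
      funext x
      simp only [Function.comp, hf, Pt.map, map_add, map_mul, e2, e1]
    rw [h3, ← Multiset.map_map, h2]
  have hr1 : Rd π.V π.φ n1 n := by
    have h5 := ((rd_cst π n).sub Rd.one).add hr
    rwa [sub_add_cancel] at h5
  have hrel1 : Multiset.Rel (Sp W π) (p.roots.map f)
      ((epol (ev W.a β) (ev W.b β) m n).roots.map (fun x => (⟨β, x, m * x + n⟩ : Pt s K))) := by
    rw [Multiset.rel_map]
    refine (roots_rd (π := π) (epol_ne _ _ _ _) (epol_rd (rd_cst π _) (rd_cst π _) (rd_cst π _) hr1) ?_).mono ?_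
    · rw [epol_deg, epol_deg]
    · intro x _ y _ hxy
      exact Sp_fin (Or.inl hβ) (fun _ => rd_cst π _) hxy (((rd_cst π _).mul hxy).add hr1)
  have hrel0 : Multiset.Rel (Sp W π') (p.roots.map f) (p.roots.map (fun _ => o s K)) := by
    rw [Multiset.rel_map]
    refine Multiset.rel_refl_of_refl_on fun x hx => ?_
    refine Sp_inf hW (hon x hx) (fun _ => (rd_cst π' _).mem) ?_
    intro hxV
    have hxV : x ∈ π'.V := hxV
    have hcV : ∀ c : K, cs c ∈ π'.V := fun c => (rd_cst π' c).mem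
    have h33 : (3 : Om K) ∈ π'.V := (Rd.three (φ := π'.φ)).mem
    have h22 : (2 : Om K) ∈ π'.V := (Rd.two (φ := π'.φ)).mem
    have h6 : (cs m * x + n1) ^ 2 ∈ π'.V := by
      rw [epol_root hx]
      exact sub_mem (sub_mem (pow_mem hxV 3) (mul_mem (mul_mem h33 (hcV _)) hxV)) (mul_mem h22 (hcV _))
    have h7 : cs m * x + n1 ∈ π'.V := mem_of_pow (n := 2) (by norm_num) h6
    apply hn'
    have h10 : (tt K)⁻¹ = (cs m * x + n1) - cs m * x - cs n + 1 := by
      rw [hn1]; ring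
    rw [h10]
    exact add_mem (sub_mem (sub_mem h7 (mul_mem (hcV _) hxV)) (hcV _)) π'.V.one_mem
  have h := slot_eq (W := W) hP i (A := p.roots.map f) (π := π) (π' := π') (fun Q hQ => by
    obtain ⟨x, hx, rfl⟩ := Multiset.mem_map.1 hQ
    exact hon x hx) hGal hrel1 hrel0
  rw [Multiset.map_map, Multiset.map_map] at h
  have h0 : (p.roots.map (sl W P i ∘ fun _ => o s K)).sum = 0 := by
    apply Multiset.sum_eq_zero
    intro z hz
    obtain ⟨x, -, rfl⟩ := Multiset.mem_map.1 hz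
    exact sl_o P i
  rw [h0] at h
  exact h

omit [CharZero K] in
/-- `P` and `-P` -/
theorem sl_neg (hW : W.Ok) (hP : ∀ j, OnW W (P j)) (i : Fin k) {Q : Pt s K} (hQ : OnW W Q) :
    sl W P i Q + sl W P i Q.neg = 0 := by
  obtain ⟨π1, π0, r1, n0, r0, -⟩ := two_places K
  set cs : K →+* Om K := algebraMap K (Om K) with hcs
  set x := cs Q.x - 1 + (tt K)⁻¹ with hxdef
  have hxV : x ∉ π0.V := by
    intro h
    apply n0
    have e : (tt K)⁻¹ = x - (cs Q.x - 1) := by rw [hxdef]; ring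
    rw [e]
    exact sub_mem h (sub_mem (rd_cst π0 Q.x).mem π0.V.one_mem)
  have hx0 : x ≠ 0 := by
    intro h
    exact hxV (by rw [h]; exact π0.V.zero_mem)
  set z := x ^ 3 - 3 * cs (ev W.a Q.β) * x - 2 * cs (ev W.b Q.β) with hz
  set p : (Om K)[X] := X ^ 2 - C z with hp
  have hpm : p.Monic := monic_X_pow_sub_C _ (by norm_num)
  have hp0 : p ≠ 0 := hpm.ne_zero
  have hpd : p.natDegree = 2 := natDegree_X_pow_sub_C
  set f : Om K → Pt s (Om K) := fun y => ⟨fun i => cs (Q.β i), x, y⟩ with hf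
  have hroot : ∀ y ∈ p.roots, y ^ 2 = z := by
    intro y hy
    rw [mem_roots hp0, IsRoot.def, hp, eval_sub, eval_pow, eval_X, eval_C, sub_eq_zero] at hy
    exact hy
  have hon : ∀ y ∈ p.roots, OnW W (f y) := by
    intro y hy
    refine ⟨Or.inr (Or.inl hx0), ?_, ?_⟩
    · intro g hg
      show ev g (fun i => cs (Q.β i)) = 0
      rw [ev_cst, hQ.2.1 g hg, map_zero]
    · show y ^ 2 = x ^ 3 - 3 * ev W.a (fun i => cs (Q.β i)) * x - 2 * ev W.b (fun i => cs (Q.β i))
      rw [ev_cst, ev_cst]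
      exact hroot y hy
  have hGal : ∀ σ : Om K ≃ₐ[RatFunc K] Om K, (p.roots.map f).map (Pt.map σ) = p.roots.map f := by
    intro σ
    have e1 : ∀ c : K, σ (cs c) = cs c := fun c => sigma_cst σ c
    have hσx : σ x = x := by
      rw [hxdef, map_add, map_sub, map_one, map_inv₀, sigma_tt, e1]
    have hσz : σ z = z := by
      rw [hz]
      simp only [map_sub, map_mul, map_pow, map_ofNat, hσx, e1]
    have hσp : p.map (σ : Om K →+* Om K) = p := by
      rw [hp, Polynomial.map_sub, Polynomial.map_pow, map_X, map_C]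
      congr 2
    have h1 : (p.roots.map f).map (Pt.map σ) = (p.roots.map σ).map f := by
      rw [Multiset.map_map, Multiset.map_map]
      refine Multiset.map_congr rfl fun y _ => ?_
      simp only [hf, Function.comp_apply, Pt.map, hσx, e1]
    rw [h1, roots_sigma, hσp]
  have hx1 : Rd π1.V π1.φ x Q.x := by
    have h := ((rd_cst π1 Q.x).sub Rd.one).add r1
    have e : Q.x - 1 + 1 = Q.x := by ring
    rwa [e] at h
  have h3 : Rd π1.V π1.φ (3 : Om K) 3 := Rd.three
  have h2 : Rd π1.V π1.φ (2 : Om K) 2 := Rd.two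
  have hz1 : Rd π1.V π1.φ z (Q.y ^ 2) := by
    rw [hQ.2.2]
    exact ((hx1.pow 3).sub ((h3.mul (rd_cst π1 _)).mul hx1)).sub (h2.mul (rd_cst π1 _))
  have hp'm : (X ^ 2 - C (Q.y ^ 2) : K[X]).Monic := monic_X_pow_sub_C _ (by norm_num)
  have hp'r : (X ^ 2 - C (Q.y ^ 2) : K[X]).roots = {Q.y, -Q.y} := by
    have e : (X ^ 2 - C (Q.y ^ 2) : K[X]) = (X - C Q.y) * (X - C (-Q.y)) := by
      rw [map_neg, map_pow]; ring
    rw [e, roots_mul (mul_ne_zero (X_sub_C_ne_zero _) (X_sub_C_ne_zero _)), roots_X_sub_C,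
      roots_X_sub_C]
    rfl
  have hrel : Multiset.Rel (Rd π1.V π1.φ) p.roots (X ^ 2 - C (Q.y ^ 2) : K[X]).roots := by
    refine roots_rd hp'm.ne_zero ?_ ?_
    · intro i
      rw [hp, coeff_sub, coeff_sub, coeff_X_pow, coeff_X_pow, coeff_C, coeff_C]
      refine Rd.sub ?_ ?_
      · split_ifs
        · exact Rd.one
        · exact Rd.zero
      · split_ifs
        · exact hz1
        · exact Rd.zero
    · rw [hpd, natDegree_X_pow_sub_C]
  rw [hp'r] at hrel
  have hrel1 : Multiset.Rel (Sp W π1) (p.roots.map f)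
      (({Q.y, -Q.y} : Multiset K).map (fun y => (⟨Q.β, Q.x, y⟩ : Pt s K))) := by
    rw [Multiset.rel_map]
    refine hrel.mono fun y _ y' hy' hyy => ?_
    refine Sp_fin ?_ (fun _ => rd_cst π1 _) hx1 hyy
    have hy2 : y' = Q.y ∨ y' = -Q.y := by simpa using hy'
    rcases hQ.1 with h | h | h
    · exact Or.inl h
    · exact Or.inr (Or.inl h)
    · refine Or.inr (Or.inr ?_)
      show y' ≠ 0
      rcases hy2 with e | e
      · rw [e]; exact h
      · rw [e]; exact neg_ne_zero.2 h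
  have hrel0 : Multiset.Rel (Sp W π0) (p.roots.map f) (p.roots.map (fun _ => o s K)) := by
    rw [Multiset.rel_map]
    refine Multiset.rel_refl_of_refl_on fun y hy => ?_
    exact Sp_inf hW (hon y hy) (fun _ => (rd_cst π0 _).mem) hxV
  have h := slot_eq (W := W) hP i (A := p.roots.map f) (π := π1) (π' := π0) (fun R hR => by
    obtain ⟨x, hx, rfl⟩ := Multiset.mem_map.1 hR
    exact hon x hx) hGal hrel1 hrel0
  rw [Multiset.map_map, Multiset.map_map] at h
  have h0 : (p.roots.map (sl W P i ∘ fun _ => o s K)).sum = 0 := by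
    apply Multiset.sum_eq_zero
    intro z hz
    obtain ⟨x, -, rfl⟩ := Multiset.mem_map.1 hz
    exact sl_o P i
  rw [h0] at h
  simpa [Pt.neg] using h

/-- parametrisation of a singular cubic -/
theorem sing_param {A B x y : K} (hD : B ^ 2 - A ^ 3 = 0) (h : y ^ 2 = x ^ 3 - 3 * A * x - 2 * B) :
    ∃ r m : K, A = r ^ 2 ∧ B = -r ^ 3 ∧ x = m ^ 2 - 2 * r ∧ y = m * (m ^ 2 - 3 * r) := by
  obtain ⟨r, hA, hB⟩ : ∃ r : K, A = r ^ 2 ∧ B = -r ^ 3 := by
    by_cases hA : A = 0
    · subst hA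
      have h1 : B ^ 2 = 0 := by linear_combination hD
      exact ⟨0, by ring, by rw [pow_eq_zero_iff (by norm_num) |>.1 h1]; ring⟩
    · refine ⟨-B / A, ?_, ?_⟩
      · field_simp
        linear_combination -hD
      · field_simp
        linear_combination -(B * hD)
  by_cases hx : x = r
  · obtain ⟨m, hm⟩ := IsAlgClosed.exists_pow_nat_eq (3 * r) (n := 2) (by norm_num)
    refine ⟨r, m, hA, hB, ?_, ?_⟩
    · rw [hm, hx]; ring
    · have h1 : y ^ 2 = 0 := by
        rw [h, hA, hB, hx]; ring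
      rw [hm, pow_eq_zero_iff (by norm_num : (2 : ℕ) ≠ 0) |>.1 h1]
      ring
  · have hx' : x - r ≠ 0 := sub_ne_zero.2 hx
    have h1 : y ^ 2 = (x - r) ^ 2 * (x + 2 * r) := by
      rw [h, hA, hB]; ring
    have h2 : (y / (x - r)) ^ 2 = x + 2 * r := by
      rw [div_pow, h1]
      field_simp
    refine ⟨r, y / (x - r), hA, hB, ?_, ?_⟩
    · rw [h2]; ring
    · rw [h2]
      field_simp
      ring

/-- points of singular fibres -/
theorem sl_sing (hW : W.Ok) (hP : ∀ j, OnW W (P j)) (i : Fin k) {Q : Pt s K} (hQ : OnW W Q) (hd : dd W Q.β = 0) :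
    sl W P i Q = 0 := by
  obtain ⟨r, m, hA, hB, hx, hy⟩ := sing_param hd hQ.2.2
  obtain ⟨π1, π0, r1, n0, r0, -⟩ := two_places K
  set cs : K →+* Om K := algebraMap K (Om K) with hcs
  set R := cs r with hR
  set M := cs m - 1 + (tt K)⁻¹ with hM
  have hMV : M ∉ π0.V := by
    intro h
    apply n0
    have e : (tt K)⁻¹ = M - (cs m - 1) := by rw [hM]; ring
    rw [e]
    exact sub_mem h (sub_mem (rd_cst π0 m).mem π0.V.one_mem)
  have hXV : M ^ 2 - 2 * R ∉ π0.V := by
    intro h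
    apply hMV
    refine mem_of_pow (n := 2) (by norm_num) ?_
    have e : M ^ 2 = (M ^ 2 - 2 * R) + 2 * R := by ring
    rw [e]
    exact add_mem h (mul_mem (Rd.two (φ := π0.φ)).mem (rd_cst π0 r).mem)
  have hX0 : M ^ 2 - 2 * R ≠ 0 := by
    intro h
    exact hXV (by rw [h]; exact π0.V.zero_mem)
  set T : Pt s (Om K) := ⟨fun i => cs (Q.β i), M ^ 2 - 2 * R, M * (M ^ 2 - 3 * R)⟩ with hT
  have hon : OnW W T := by
    refine ⟨Or.inr (Or.inl hX0), ?_, ?_⟩
    · intro g hg
      show ev g (fun i => cs (Q.β i)) = 0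
      rw [ev_cst, hQ.2.1 g hg, map_zero]
    · show (M * (M ^ 2 - 3 * R)) ^ 2 = (M ^ 2 - 2 * R) ^ 3 - 3 * ev W.a (fun i => cs (Q.β i)) * (M ^ 2 - 2 * R) -
        2 * ev W.b (fun i => cs (Q.β i))
      rw [ev_cst, ev_cst, hA, hB]
      simp only [map_neg, map_pow]
      ring
  have hM1 : Rd π1.V π1.φ M m := by
    have h := ((rd_cst π1 m).sub Rd.one).add r1
    have e : m - 1 + 1 = m := by ring
    rwa [e] at h
  have hR1 : Rd π1.V π1.φ R r := rd_cst π1 r
  have h := slot_eq (W := W) hP i (A := {T}) (B := {Q}) (B' := {o s K}) (π := π1) (π' := π0) ?_ ?_ ?_ ?_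
  · simpa [sl_o] using h
  · intro s hs
    rw [Multiset.mem_singleton] at hs
    subst hs
    exact hon
  · intro σ
    have e1 : ∀ c : K, σ (cs c) = cs c := fun c => sigma_cst σ c
    have hσM : σ M = M := by
      rw [hM, map_add, map_sub, map_one, map_inv₀, sigma_tt, e1]
    have hσR : σ R = R := e1 r
    rw [Multiset.map_singleton]
    congr 1
    simp only [hT, Pt.map, map_sub, map_mul, map_pow, map_ofNat, hσM, hσR, e1]
  · refine Multiset.Rel.cons (Sp_fin hQ.1 (fun _ => rd_cst π1 _) ?_ ?_) Multiset.Rel.zero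
    · rw [hx]
      exact (hM1.pow 2).sub (Rd.two.mul hR1)
    · rw [hy]
      exact hM1.mul ((hM1.pow 2).sub (Rd.three.mul hR1))
  · exact Multiset.Rel.cons (Sp_inf hW hon (fun _ => (rd_cst π0 _).mem) hXV) Multiset.Rel.zero

end ES
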