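import Pool.Agent.H34.ES.Def

/-! # ES.Lim : the group `AA` of classes of zero-cycles on `W^k` modulo decomposables and signs, and limits of multisets

`AA k W` is the quotient of the zero-cycles on `W^k` by rational equivalence, by the tuples with a coordinate `o`, and
by `P ∘ σ = sgn(σ) P`.  `cls P` is the class of the tuple `P`.  `Lim W π S c`: the multiset `S` of tuples of `Ω`-points
specialises at `π` to a multiset of tuples of `K`-points with class `c`.  `Lim.eq` is the only way rational equivalences
are used. -/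

namespace ES

open H68.BB

variable {K : Type} [Field K] {s : ℕ} (k : ℕ) (W : Wm K s)

/-- rational equivalence, decomposable tuples and signs -/
noncomputable def Rel : AddSubgroup (Cyc k s K) :=
  AddSubgroup.closure ((RatEq k W : Set (Cyc k s K)) ∪ {z | ∃ P : Fin k → Pt s K, (∃ i, P i = o s K) ∧ z = pt P} ∪
    {z | ∃ (P : Fin k → Pt s K) (σ : Equiv.Perm (Fin k)), z = pt (fun i => P (σ i)) - (Equiv.Perm.sign σ : ℤ) • pt P})

/-- classes of zero-cycles modulo decomposables and signs -/
abbrev AA : Type := Cyc k s K ⧸ Rel k W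

variable {k}

/-- the class of a tuple of points -/
noncomputable def cls (P : Fin k → Pt s K) : AA k W := QuotientAddGroup.mk (pt P)

/-- the class of a multiset of tuples -/
noncomputable def clM (S : Multiset (Fin k → Pt s K)) : AA k W := (S.map (cls W)).sum

/-- `S` specialises at `π` to a zero-cycle of class `c` -/
def Lim (π : Place K (Om K)) (S : Multiset (Fin k → Pt s (Om K))) (c : AA k W) : Prop :=
  ∃ S' : Multiset (Fin k → Pt s K), Multiset.Rel (SpT W π) S S' ∧ clM W S' = c

theorem mk_cyc (S : Multiset (Fin k → Pt s K)) : (QuotientAddGroup.mk (cyc S) : AA k W) = clM W S := by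
  have h := map_multiset_sum (QuotientAddGroup.mk' (Rel k W)) (S.map pt)
  rw [Multiset.map_map] at h
  exact h

/-- a tuple with a coordinate `o` has class zero -/
theorem cls_o {P : Fin k → Pt s K} {i : Fin k} (h : P i = o s K) : cls W P = 0 := by
  refine (QuotientAddGroup.eq_zero_iff _).2 (AddSubgroup.subset_closure (Or.inl (Or.inr ⟨P, ⟨i, h⟩, rfl⟩)))

/-- permuting the coordinates -/
theorem cls_perm (P : Fin k → Pt s K) (σ : Equiv.Perm (Fin k)) :
    cls W (fun i => P (σ i)) = (Equiv.Perm.sign σ : ℤ) • cls W P := by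
  have h : pt (fun i => P (σ i)) - (Equiv.Perm.sign σ : ℤ) • pt P ∈ Rel k W :=
    AddSubgroup.subset_closure (Or.inr ⟨P, σ, rfl⟩)
  have h2 := (QuotientAddGroup.eq_zero_iff _).2 h
  rw [QuotientAddGroup.mk_sub, QuotientAddGroup.mk_zsmul, sub_eq_zero] at h2
  exact h2

variable {W}

/-- the basic relation -/
theorem Lim.eq {S : Multiset (Fin k → Pt s (Om K))} {π π' : Place K (Om K)} {c c' : AA k W}
    (hW : AllOn W S) (hG : GalStable S) (h : Lim W π S c) (h' : Lim W π' S c') : c = c' := by
  obtain ⟨S', h1, rfl⟩ := h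
  obtain ⟨S'', h2, rfl⟩ := h'
  rw [← mk_cyc, ← mk_cyc, QuotientAddGroup.eq]
  apply AddSubgroup.subset_closure
  refine Or.inl (Or.inl (AddSubgroup.subset_closure ⟨S, π', π, S'', S', hW, hG, h2, h1, ?_⟩))
  rw [neg_add_eq_sub]

variable {π : Place K (Om K)}

theorem Lim.zero : Lim (k := k) W π 0 0 :=
  ⟨0, Multiset.Rel.zero, by simp [clM]⟩

theorem Lim.add {S T : Multiset (Fin k → Pt s (Om K))} {c d : AA k W} (h : Lim W π S c)
    (h' : Lim W π T d) : Lim W π (S + T) (c + d) := by
  obtain ⟨S', h1, rfl⟩ := h
  obtain ⟨T', h2, rfl⟩ := h'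
  exact ⟨S' + T', Multiset.Rel.add h1 h2, by simp [clM]⟩

theorem Lim.single {P : Fin k → Pt s (Om K)} {p : Fin k → Pt s K} (h : SpT W π P p) :
    Lim W π {P} (cls W p) :=
  ⟨{p}, Multiset.Rel.cons h Multiset.Rel.zero, by simp [clM]⟩

theorem Lim.bind {α β : Type} {r : α → β → Prop} {A : Multiset α} {B : Multiset β} (h : Multiset.Rel r A B)
    (f : α → Multiset (Fin k → Pt s (Om K))) (g : β → AA k W)
    (hfg : ∀ x ∈ A, ∀ y ∈ B, r x y → Lim W π (f x) (g y)) : Lim W π (A.bind f) (B.map g).sum := by
  induction h with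
  | zero => simpa using Lim.zero
  | @cons x y as bs hxy hs ih =>
    rw [Multiset.cons_bind, Multiset.map_cons, Multiset.sum_cons]
    refine Lim.add (hfg x (Multiset.mem_cons_self _ _) y (Multiset.mem_cons_self _ _) hxy) (ih ?_)
    intro x' hx' y' hy' hr
    exact hfg x' (Multiset.mem_cons_of_mem hx') y' (Multiset.mem_cons_of_mem hy') hr

/-- all members have the same limit class -/
theorem Lim.bind_const {α : Type} (A : Multiset α) (f : α → Multiset (Fin k → Pt s (Om K))) (c : AA k W)
    (hf : ∀ x ∈ A, Lim W π (f x) c) : Lim W π (A.bind f) (Multiset.card A • c) := by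
  induction A using Multiset.induction_on with
  | empty => simpa using Lim.zero
  | cons x as ih =>
    rw [Multiset.cons_bind, Multiset.card_cons, succ_nsmul']
    exact Lim.add (hf x (Multiset.mem_cons_self _ _))
      (ih (fun x' hx' => hf x' (Multiset.mem_cons_of_mem hx')))

/-- a multiset of tuples indexed by `A`, whose limits are known -/
theorem Lim.map {α β : Type} {r : α → β → Prop} {A : Multiset α} {B : Multiset β} (h : Multiset.Rel r A B)
    (f : α → Fin k → Pt s (Om K)) (g : β → Fin k → Pt s K)
    (hfg : ∀ x ∈ A, ∀ y ∈ B, r x y → SpT W π (f x) (g y)) :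
    Lim W π (A.map f) (B.map (fun y => cls W (g y))).sum := by
  have h1 := Lim.bind (W := W) (π := π) h (fun x => {f x}) (fun y => cls W (g y))
    (fun x hx y hy hr => Lim.single (hfg x hx y hy hr))
  rwa [Multiset.bind_singleton] at h1

/-- the limit of a multiset of tuples all of whose members specialise to tuples of class zero -/
theorem Lim.map_zero {α : Type} (A : Multiset α) (f : α → Fin k → Pt s (Om K))
    (hf : ∀ x ∈ A, ∃ p, SpT W π (f x) p ∧ cls W p = 0) : Lim W π (A.map f) 0 := by
  have h1 := Lim.bind_const (W := W) (π := π) A (fun x => {f x}) 0 (fun x hx => by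
    obtain ⟨p, hp, h0⟩ := hf x hx
    rw [← h0]
    exact Lim.single hp)
  rwa [Multiset.bind_singleton, smul_zero] at h1

end ES
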