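import Pool.Agent.H34.ES.MirA

/-! # ES.Mir : the mirror relation (complete, no sorry) -/

namespace ES

open H68.BB Polynomial
open H67.KH (mem_of_root mem_of_cubic rd_of_mem rd_cst sigma_cst sigma_tt roots_rd roots_sigma)

section
variable {K : Type} [Field K] {s : ℕ}

theorem prod_nth_w : ∀ f : List (Lk s K), ∏ j ∈ Finset.range f.length, (nth f j).2.w = (tot (f.map Prod.snd)).w := by
  intro f
  induction f with
  | nil => rfl
  | cons g f ih =>
    rw [List.length_cons, Finset.prod_range_succ', List.map_cons]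
    show _ * g.2.w = g.2.w * (tot (f.map Prod.snd)).w
    rw [← ih, mul_comm]
    rfl

theorem prod_nth_al : ∀ f : List (Lk s K), ∏ j ∈ Finset.range f.length, (nth f j).2.al = (tot (f.map Prod.snd)).al := by
  intro f
  induction f with
  | nil => simp [tot, Vtx.al]
  | cons g f ih =>
    rw [List.length_cons, Finset.prod_range_succ', List.map_cons]
    have e1 : (∏ j ∈ Finset.range f.length, (nth (g :: f) (j + 1)).2.al) = ∏ j ∈ Finset.range f.length, (nth f j).2.al := rfl
    rw [e1, ih]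
    show (tot (f.map Prod.snd)).al * g.2.al = _
    simp only [tot, Vtx.al]
    ring

theorem nth_mem' {f : List (Lk s K)} {j : ℕ} (h : j < f.length) : nth f j ∈ f := by
  unfold nth
  rw [List.getD_eq_getElem f _ h]
  exact List.getElem_mem h

end

variable {K : Type} [Field K] {s : ℕ} {π : Place K (Om K)}

theorem rd_four [CharZero K] : Rd π.V π.φ (4 : Om K) 4 := by
  have := Rd.two (φ := π.φ) |>.mul (Rd.two (φ := π.φ))
  have e3 : (2 : Om K) * 2 = 4 := by norm_num
  have e4 : (2 : K) * 2 = 4 := by norm_num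
  rwa [e3, e4] at this

theorem rd_dn [CharZero K] {u : ℕ → Vtx K} {x : Om K} {c : K} (h : Rd π.V π.φ x c) (j : ℕ) :
    Rd π.V π.φ (dn (algebraMap K (Om K)) u (1, x) j).1 (dn (RingHom.id K) u (1, c) j).1 ∧
    Rd π.V π.φ (dn (algebraMap K (Om K)) u (1, x) j).2 (dn (RingHom.id K) u (1, c) j).2 := by
  induction j with
  | zero => exact ⟨Rd.one, h⟩
  | succ j ih =>
    obtain ⟨h1, h2⟩ := ih
    rw [dn_succ, dn_succ]
    exact ⟨((rd_cst π _).mul h1).sub ((rd_cst π _).mul h2), ((rd_cst π _).mul h2).sub ((rd_cst π _).mul h1)⟩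

theorem rd_rF [CharZero K] {u : ℕ → Vtx K} {x : Om K} {c : K} (h : Rd π.V π.φ x c) (j : ℕ)
    (h1 : (dn (RingHom.id K) u (1, c) (j + 1)).1 ≠ 0) (h2 : (dn (RingHom.id K) u (1, c) (j + 1)).2 ≠ 0) :
    Rd π.V π.φ (rF (algebraMap K (Om K)) u (1, x) j) (rF (RingHom.id K) u (1, c) j) ∧
    Rd π.V π.φ (eF (algebraMap K (Om K)) u (1, x) j) (eF (RingHom.id K) u (1, c) j) := by
  have hloc := π.isLocal
  obtain ⟨a1, a2⟩ := rd_dn (u := u) h j
  obtain ⟨b1, b2⟩ := rd_dn (u := u) h (j + 1)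
  have hden := (b1.mul b2).inv (mul_ne_zero h1 h2)
  unfold rF eF
  rw [div_eq_mul_inv, div_eq_mul_inv, div_eq_mul_inv, div_eq_mul_inv]
  refine ⟨((rd_four.mul ((rd_cst π _).pow 2)).mul (a1.mul a2)).mul hden, ?_⟩
  exact ((rd_cst π _).mul (((b2.mul a1).mul (rd_cst π _)).sub ((a2.mul b1).mul (rd_cst π _)))).mul hden

theorem dn_form [CharZero K] {u : ℕ → Vtx K} {k : ℕ} (hnd : ∀ j, j < k → ND (u j).ab) (x : Om K) (j : ℕ) (hj : j ≤ k) :
    ∃ A B C D : K, (dn (algebraMap K (Om K)) u (1, x) j).1 = algebraMap K (Om K) A - x * algebraMap K (Om K) B ∧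
      (dn (algebraMap K (Om K)) u (1, x) j).2 = x * algebraMap K (Om K) C - algebraMap K (Om K) D ∧ A * C - B * D ≠ 0 := by
  induction j with
  | zero => exact ⟨1, 0, 1, 0, by simp [dn], by simp [dn], by simp⟩
  | succ j ih =>
    obtain ⟨A, B, C, D, h1, h2, h3⟩ := ih (by omega)
    refine ⟨(u j).p * A + (u j).m * D, (u j).p * B + (u j).m * C, (u j).ps * C + (u j).ms * B, (u j).ps * D + (u j).ms * A,
      ?_, ?_, ?_⟩
    · rw [dn_succ, h1, h2]
      simp only [map_add, map_mul]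
      ring
    · rw [dn_succ, h1, h2]
      simp only [map_add, map_mul]
      ring
    · have e1 : ((u j).p * A + (u j).m * D) * ((u j).ps * C + (u j).ms * B) -
          ((u j).p * B + (u j).m * C) * ((u j).ps * D + (u j).ms * A) = 4 * (u j).al * (A * C - B * D) := by
        unfold Vtx.p Vtx.ps Vtx.m Vtx.ms Vtx.al
        ring
      rw [e1]
      exact mul_ne_zero (mul_ne_zero (by norm_num) (hnd j (by omega)).al_ne) h3

variable [IsAlgClosed K] [CharZero K] {k : ℕ} {W : Wm K s}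

theorem Psi_mirror (hW : W.Ok) {c : K} {f f' : List (Lk s K)} (hl : f.length = k) (hk : 0 < k) (hf : ∀ g ∈ f, g.Ok W)
    (hb : ∀ g ∈ f, g.1 ≠ 0) (hn : ∀ g ∈ f, ND g.2.ab) (hR : RotRel c f f')
    (hp : (tot (f.map Prod.snd)).p ≠ 0) (hps : (tot (f.map Prod.snd)).ps ≠ 0)
    (hm : (tot (f.map Prod.snd)).m ≠ 0) (hms : (tot (f.map Prod.snd)).ms ≠ 0)
    (hc : c = (tot (f.map Prod.snd)).p * (tot (f.map Prod.snd)).ms / ((tot (f.map Prod.snd)).m * (tot (f.map Prod.snd)).ps))
    (hw' : (tot (f'.map Prod.snd)).w = (tot (f.map Prod.snd)).w) :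
    Psi W k f + Psi W k f' = 0 := by
  classical
  obtain ⟨π, π', -, hr0, -, hr1⟩ := two_places K
  have hloc := π.isLocal
  set cs : K →+* Om K := algebraMap K (Om K) with hcs
  have hinj : Function.Injective cs := cs.injective
  have hne : ∀ {a : K}, a ≠ 0 → cs a ≠ 0 := fun h => (map_ne_zero_iff _ hinj).2 h
  have hcV : ∀ a : K, cs a ∈ π'.V := fun a => (rd_cst π' a).mem
  set T := tot (f.map Prod.snd) with hT
  set u : ℕ → Vtx K := fun j => (nth f j).2 with hu
  obtain ⟨hlen, hlab, cc, zs, hcc0, hseq⟩ := hR.seq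
  have hfk : ∀ {j : ℕ}, j < k → nth f j ∈ f := fun h => nth_mem' (by rw [hl]; exact h)
  have hndu : ∀ j, j < k → ND (u j).ab := fun j hj => hn _ (hfk hj)
  have hprodw : ∏ j ∈ Finset.range k, (u j).w = T.w := by
    have := prod_nth_w f
    rw [hl] at this
    exact this
  have hTw : T.w ≠ 0 := by
    rw [← hprodw]
    exact Finset.prod_ne_zero_iff.2 fun j hj => (hndu j (Finset.mem_range.1 hj)).w_ne
  have hprodal : ∏ j ∈ Finset.range k, (u j).al = T.al := by
    have := prod_nth_al f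
    rw [hl] at this
    exact this
  have hTal : T.al ≠ 0 := by
    rw [← hprodal]
    exact Finset.prod_ne_zero_iff.2 fun j hj => (hndu j (Finset.mem_range.1 hj)).al_ne
  set w : Om K := cs T.w * tt K with hw
  have htt0 : tt K ≠ 0 := by
    intro h
    apply hr0
    rw [h, inv_zero]
    exact π'.V.zero_mem
  have hw0 : w ≠ 0 := mul_ne_zero (hne hTw) htt0
  have hwV : w⁻¹ ∉ π'.V := by
    intro h
    apply hr0
    have e : (tt K)⁻¹ = cs T.w * w⁻¹ := by
      rw [hw, mul_inv, ← mul_assoc, mul_inv_cancel₀ (hne hTw), one_mul]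
    rw [e]
    exact mul_mem (hcV _) h
  have hw6V : (w ^ 6)⁻¹ ∉ π'.V := by
    intro h
    rw [← inv_pow] at h
    exact hwV (mem_of_pow (n := 6) (by norm_num) h)
  -- the quadratic equation
  set A2 : Om K := - (w ^ 6 * cs T.ps * cs T.m) with hA2
  set A1 : Om K := w ^ 6 * (cs T.p * cs T.ps + cs T.m * cs T.ms) - 4 * cs T.al ^ 2 with hA1
  set A0 : Om K := - (w ^ 6 * cs T.ms * cs T.p) with hA0
  have hA2ne : A2 ≠ 0 := neg_ne_zero.2 (mul_ne_zero (mul_ne_zero (pow_ne_zero _ hw0) (hne hps)) (hne hm))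
  set Q : (Om K)[X] := C A2 * X ^ 2 + C A1 * X + C A0 with hQ
  have hQd : Q.natDegree = 2 := natDegree_quadratic hA2ne
  have hQ0 : Q ≠ 0 := by
    intro h
    rw [h, natDegree_zero] at hQd
    exact absurd hQd (by norm_num)
  have hfac : ∀ x ∈ Q.roots, w ^ 6 * ((x * cs T.ps - cs T.ms) * (cs T.p - x * cs T.m)) = 4 * cs T.al ^ 2 * x := by
    intro x hx
    have := (mem_roots hQ0).1 hx
    rw [IsRoot.def, hQ] at this
    have h : A2 * x ^ 2 + A1 * x + A0 = 0 := by simpa using this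
    rw [hA2, hA1, hA0] at h
    linear_combination h
  have hxK : ∀ x ∈ Q.roots, ∀ c1 : K, x ≠ cs c1 := by
    rintro x hx c1 rfl
    have h := hfac _ hx
    by_cases h0 : (c1 * T.ps - T.ms) * (T.p - c1 * T.m) = 0
    · have h1 : (cs c1 * cs T.ps - cs T.ms) * (cs T.p - cs c1 * cs T.m) = 0 := by
        have := congrArg cs h0
        simpa only [map_mul, map_sub, map_zero] using this
      rw [h1, mul_zero] at h
      have h2 : c1 = 0 := by
        have h4 : (4 : Om K) * cs T.al ^ 2 ≠ 0 := mul_ne_zero (by norm_num) (pow_ne_zero _ (hne hTal))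
        have h3 := (mul_eq_zero.1 h.symm).resolve_left h4
        exact (map_eq_zero_iff _ hinj).1 h3
      rw [h2, zero_mul, zero_mul, zero_sub, sub_zero] at h0
      rcases mul_eq_zero.1 h0 with h3 | h3
      · exact hms (neg_eq_zero.1 h3)
      · exact hp h3
    · have h1 : (cs c1 * cs T.ps - cs T.ms) * (cs T.p - cs c1 * cs T.m) = cs ((c1 * T.ps - T.ms) * (T.p - c1 * T.m)) := by
        simp only [map_mul, map_sub]
      have h2 : 4 * cs T.al ^ 2 * cs c1 = cs (4 * T.al ^ 2 * c1) := by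
        simp only [map_mul, map_pow, map_ofNat]
      rw [h1, h2] at h
      have h3 : w ^ 6 = cs (4 * T.al ^ 2 * c1 / ((c1 * T.ps - T.ms) * (T.p - c1 * T.m))) := by
        rw [map_div₀, ← h, mul_div_cancel_right₀ _ (hne h0)]
      apply hw6V
      rw [h3, ← map_inv₀]
      exact hcV _
  have hdn : ∀ x ∈ Q.roots, ∀ j, j ≤ k → (dn cs u (1, x) j).1 ≠ 0 ∧ (dn cs u (1, x) j).2 ≠ 0 := by
    intro x hx j hj
    obtain ⟨A, B, C', D, h1, h2, h3⟩ := dn_form hndu x j hj
    rw [← hcs] at h1 h2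
    rw [h1, h2]
    constructor
    · intro h0
      by_cases hB : B = 0
      · rw [hB, map_zero, mul_zero, sub_zero] at h0
        have hA : A = 0 := (map_eq_zero_iff _ hinj).1 h0
        apply h3
        rw [hA, hB]; ring
      · apply hxK x hx (A / B)
        rw [map_div₀, eq_div_iff (hne hB)]
        linear_combination -h0
    · intro h0
      by_cases hC : C' = 0
      · rw [hC, map_zero, mul_zero, zero_sub, neg_eq_zero] at h0
        have hD : D = 0 := (map_eq_zero_iff _ hinj).1 h0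
        apply h3
        rw [hC, hD]; ring
      · apply hxK x hx (D / C')
        rw [map_div₀, eq_div_iff (hne hC)]
        linear_combination h0
  have hx0 : ∀ x ∈ Q.roots, x ≠ 0 := fun x hx h => hxK x hx 0 (by rw [h, map_zero])
  -- the data
  set r : Om K → Fin k → Om K := fun x j => rF cs u (1, x) j with hr
  set e : Om K → Fin k → Om K := fun x j => eF cs u (1, x) j with he
  have hσdn : ∀ (σ : Om K ≃ₐ[RatFunc K] Om K) (x : Om K) (j : ℕ), σ (dn cs u (1, x) j).1 = (dn cs u (1, σ x) j).1 ∧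
      σ (dn cs u (1, x) j).2 = (dn cs u (1, σ x) j).2 := by
    intro σ x j
    have e1 : ∀ a : K, σ (cs a) = cs a := fun a => sigma_cst σ a
    induction j with
    | zero => exact ⟨map_one σ, rfl⟩
    | succ j ih =>
      rw [dn_succ, dn_succ]
      simp only [map_sub, map_mul, e1, ih.1, ih.2, and_self]
  have hσr : ∀ (σ : Om K ≃ₐ[RatFunc K] Om K) (x : Om K) (j : Fin k), σ (r x j) = r (σ x) j := by
    intro σ x j
    have e1 : ∀ a : K, σ (cs a) = cs a := fun a => sigma_cst σ a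
    rw [hr]
    show σ (rF cs u (1, x) j) = rF cs u (1, σ x) j
    unfold rF
    simp only [map_div₀, map_mul, map_pow, map_ofNat, e1, (hσdn σ x _).1, (hσdn σ x _).2]
  have hσe : ∀ (σ : Om K ≃ₐ[RatFunc K] Om K) (x : Om K) (j : Fin k), σ (e x j) = e (σ x) j := by
    intro σ x j
    have e1 : ∀ a : K, σ (cs a) = cs a := fun a => sigma_cst σ a
    rw [he]
    show σ (eF cs u (1, x) j) = eF cs u (1, σ x) j
    unfold eF
    simp only [map_div₀, map_mul, map_sub, e1, (hσdn σ x _).1, (hσdn σ x _).2]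
  have hσw : ∀ σ : Om K ≃ₐ[RatFunc K] Om K, σ w = w := by
    intro σ
    rw [hw, map_mul, sigma_tt]
    congr 1
    exact sigma_cst σ _
  have hσA : ∀ σ : Om K ≃ₐ[RatFunc K] Om K, Q.roots.map σ = Q.roots := by
    intro σ
    rw [roots_sigma]
    congr 1
    have e1 : ∀ a : K, (σ : Om K →+* Om K) (cs a) = cs a := fun a => sigma_cst σ a
    have e2 : (σ : Om K →+* Om K) w = w := hσw σ
    have e3 : (σ : Om K →+* Om K) 4 = 4 := map_ofNat _ 4
    rw [hQ, Polynomial.map_add, Polynomial.map_add, Polynomial.map_mul, Polynomial.map_mul, Polynomial.map_pow, map_X,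
      map_C, map_C, map_C]
    have e5 : (σ : Om K →+* Om K) A2 = A2 := by
      rw [hA2]
      simp only [map_neg, map_mul, map_pow, e1, e2]
    have e6 : (σ : Om K →+* Om K) A1 = A1 := by
      rw [hA1]
      simp only [map_sub, map_add, map_mul, map_pow, e1, e2, e3]
    have e7 : (σ : Om K →+* Om K) A0 = A0 := by
      rw [hA0]
      simp only [map_neg, map_mul, map_pow, e1, e2]
    rw [e5, e6, e7]
  have hrne : ∀ x ∈ Q.roots, ∀ j : Fin k, r x j ≠ 0 := by
    intro x hx j
    obtain ⟨a1, a2⟩ := hdn x hx j (le_of_lt j.2)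
    obtain ⟨b1, b2⟩ := hdn x hx (j + 1) j.2
    show rF cs u (1, x) j ≠ 0
    unfold rF
    exact div_ne_zero (mul_ne_zero (mul_ne_zero (by norm_num) (pow_ne_zero _ (hne (hndu j j.2).al_ne))) (mul_ne_zero a1 a2))
      (mul_ne_zero b1 b2)
  have hab : ∀ j, j < k → (u j).ab = (ev W.a (nth f j).1, ev W.b (nth f j).1) := fun j hj => (hf _ (hfk hj)).ab
  have key := pencil (W := W) hk hW (β := fun j : Fin k => (nth f j).1) (q := fun j : Fin k => (u j).w * (u j).v)
    (fun j => hb _ (hfk j.2)) (fun j g hg => (hf _ (hfk j.2)).I g hg)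
    (fun j => by
      have := hab j j.2
      show ((u j).w * (u j).v) ^ 2 = _
      have h3 : (u j).ab.1 = ev W.a (nth f j).1 := by rw [this]
      rw [← h3]
      rfl)
    (fun j => mul_ne_zero (hndu j j.2).w_ne (hndu j j.2).v_ne)
    (A := Q.roots) hσA r e w hσw (fun x _ σ j => hσr σ x j) (fun x _ σ j => hσe σ x j) hrne
    (fun x hx j => by
      obtain ⟨b1, b2⟩ := hdn x hx (j + 1) j.2
      have h1 := eF_sq cs u b1 b2
      have h2 : cs ((u j).w * (u j).v) ^ 6 = cs (u j).al ^ 2 := by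
        rw [← map_pow, ← map_pow]
        congr 1
        unfold Vtx.al
        ring
      have h3 : (u j).ab.2 = ev W.b (nth f j).1 := by rw [hab j j.2]
      show eF cs u (1, x) j ^ 2 = rF cs u (1, x) j ^ 2 + cs ((u j).w * (u j).v) ^ 6 -
        2 * cs (ev W.b (nth f j).1) * rF cs u (1, x) j
      rw [h2, ← h3]
      exact h1)
    (fun x hx => by
      have h1 := prod_rF cs u (a := (1, x)) k (hdn x hx)
      have h2 : ∏ j : Fin k, r x j = ∏ j ∈ Finset.range k, rF cs u (1, x) j :=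
        Fin.prod_univ_eq_prod_range (fun j => rF cs u (1, x) j) k
      have h3 : ∏ j ∈ Finset.range k, (4 * cs (u j).al ^ 2) = 4 ^ k * cs T.al ^ 2 := by
        rw [Finset.prod_mul_distrib, Finset.prod_const, Finset.card_range, Finset.prod_pow, ← map_prod, hprodal]
      obtain ⟨d1, d2⟩ := dn_tot cs f (1, x)
      rw [hl, ← hT] at d1 d2
      obtain ⟨b1, b2⟩ := hdn x hx k le_rfl
      rw [h2]
      have h4 : (dn cs u (1, x) k).1 * (dn cs u (1, x) k).2 ≠ 0 := mul_ne_zero b1 b2
      apply mul_right_cancel₀ h4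
      rw [h1, h3]
      have h5 := hfac x hx
      have h6 : (4 : Om K) ≠ 0 := by norm_num
      apply mul_left_cancel₀ h6
      have h7 : (4 : Om K) ^ k = 2 ^ k * 2 ^ k := by rw [← mul_pow]; norm_num
      have d1' : 2 * (dn cs u (1, x) k).1 = 2 ^ k * (cs T.p * 1 - cs T.m * x) := d1
      have d2' : 2 * (dn cs u (1, x) k).2 = 2 ^ k * (cs T.ps * x - cs T.ms * 1) := d2
      have d3 : 4 * (w ^ 6 * ((dn cs u (1, x) k).1 * (dn cs u (1, x) k).2)) =
          w ^ 6 * ((2 ^ k * (cs T.p * 1 - cs T.m * x)) * (2 ^ k * (cs T.ps * x - cs T.ms * 1))) := by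
        rw [← d1', ← d2']
        ring
      rw [d3, h7]
      linear_combination (2 ^ k * 2 ^ k) * h5)
    (π := π) (π' := π') (B := {Psi W k f, Psi W k f'}) ?_ ?_
  · simpa using key
  · -- the limit at `π`
    set a2 : K := - (T.w ^ 6 * T.ps * T.m) with ha2
    set a1 : K := T.w ^ 6 * (T.p * T.ps + T.m * T.ms) - 4 * T.al ^ 2 with ha1
    set a0 : K := - (T.w ^ 6 * T.ms * T.p) with ha0
    have ha2ne : a2 ≠ 0 := neg_ne_zero.2 (mul_ne_zero (mul_ne_zero (pow_ne_zero _ hTw) hps) hm)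
    have e1 : a0 = a2 * c := by
      rw [ha0, ha2, hc]
      field_simp
    have e2 : a1 = - (a2 * (1 + c)) := by
      rw [mul_add, mul_one, ← e1, ha1, ha2, ha0]
      have e3 : (T.p - T.m) * (T.ps - T.ms) = 4 * T.v ^ 6 := by
        unfold Vtx.p Vtx.m Vtx.ps Vtx.ms; ring
      have e4 : T.al ^ 2 = T.w ^ 6 * T.v ^ 6 := by unfold Vtx.al; ring
      rw [e4]
      linear_combination T.w ^ 6 * e3
    set Q0 : K[X] := C a2 * X ^ 2 + C a1 * X + C a0 with hQ0'
    have hQ0d : Q0.natDegree = 2 := natDegree_quadratic ha2ne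
    have hQ00 : Q0 ≠ 0 := by
      intro h
      rw [h, natDegree_zero] at hQ0d
      exact absurd hQ0d (by norm_num)
    have hQ0r : Q0.roots = (1 : K) ::ₘ c ::ₘ 0 := by
      have e3 : Q0 = C a2 * ((X - C 1) * (X - C c)) := by
        rw [hQ0', e2, e1]
        simp only [map_neg, map_mul, map_add, map_one]
        ring
      rw [e3, roots_C_mul _ ha2ne, roots_mul (mul_ne_zero (X_sub_C_ne_zero _) (X_sub_C_ne_zero _)), roots_X_sub_C,
        roots_X_sub_C]
      rfl
    have hw1 : Rd π.V π.φ w T.w := by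
      have h := (rd_cst π T.w).mul hr1
      rwa [mul_one] at h
    have hrdA : ∀ m, Rd π.V π.φ (Q.coeff m) (Q0.coeff m) := by
      intro m
      have c2 : Rd π.V π.φ A2 a2 := (((hw1.pow 6).mul (rd_cst π _)).mul (rd_cst π _)).neg
      have c1 : Rd π.V π.φ A1 a1 := ((hw1.pow 6).mul (((rd_cst π _).mul (rd_cst π _)).add ((rd_cst π _).mul (rd_cst π _)))).sub
        (rd_four.mul ((rd_cst π _).pow 2))
      have c0 : Rd π.V π.φ A0 a0 := (((hw1.pow 6).mul (rd_cst π _)).mul (rd_cst π _)).neg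
      rw [hQ, hQ0']
      simp only [coeff_add, coeff_C_mul, coeff_X_pow, coeff_X, coeff_C]
      refine ((c2.mul ?_).add (c1.mul ?_)).add ?_
      · split_ifs
        · exact Rd.one
        · exact Rd.zero
      · split_ifs
        · exact Rd.one
        · exact Rd.zero
      · split_ifs
        · exact c0
        · exact Rd.zero
    have hrel := roots_rd (π := π) hQ00 hrdA (by rw [hQd, hQ0d])
    rw [hQ0r] at hrel
    obtain ⟨x1, A', hx1, hrel', hAeq⟩ := (Multiset.rel_cons_right).1 hrel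
    obtain ⟨x2, A'', hx2, hrel'', hAeq'⟩ := (Multiset.rel_cons_right).1 hrel'
    have hA'' : A'' = 0 := (Multiset.rel_zero_right).1 hrel''
    rw [hA''] at hAeq'
    rw [hAeq'] at hAeq
    have hlim : ∀ (x : Om K) (f1 : List (Lk s K)) (cc zs : ℕ → K), f1.length = k → Rd π.V π.φ x (cc 0) →
        (∀ j, (nth f1 j).1 = (nth f j).1) → CSeq k u (fun j => (nth f1 j).2) cc zs →
        (tot (f1.map Prod.snd)).w = T.w →
        LimD W (fun j : Fin k => (nth f j).1) (fun j : Fin k => (u j).w * (u j).v) π (r x) (e x) w (Psi W k f1) := by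
      intro x f1 cc zs hl1 hx hb1 hs hw1'
      obtain ⟨v1, v2⟩ := hs.vals hndu
      have hck : ∀ j, j ≤ k → cc j ≠ 0 := by
        intro j hj
        rcases Nat.lt_or_ge j k with h | h
        · exact hs.c j h
        · have h2 : j = (k - 1) + 1 := by omega
          rw [h2, ← hs.zc (k - 1) (by omega)]
          exact mul_ne_zero (pow_ne_zero _ (hs.z _ (by omega))) (hs.c _ (by omega))
      have hn0 : ∀ j, j ≤ k → (dn (RingHom.id K) u (1, cc 0) j).2 ≠ 0 := by
        intro j hj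
        rw [(v1 j hj).2]
        exact mul_ne_zero (hck j hj) (v1 j hj).1
      refine Or.inl ⟨fun j : Fin k => nth f1 j, fun j => hb1 j, fun j => ?_, fun j => (v2 j j.2).2.2.w_ne, fun j => ?_,
        fun j => ?_, ?_, rfl⟩
      · exact pf_wv_eq (hs.ab j j.2) (hs.al j j.2) (mul_ne_zero (v2 j j.2).2.2.w_ne (v2 j j.2).2.2.v_ne)
      · have h1 := (rd_rF (u := u) hx j (v1 (j + 1) j.2).1 (hn0 (j + 1) j.2)).1
        rw [(v2 j j.2).1] at h1
        exact h1
      · have h1 := (rd_rF (u := u) hx j (v1 (j + 1) j.2).1 (hn0 (j + 1) j.2)).2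
        rw [(v2 j j.2).2.1] at h1
        exact h1
      · have h1 : ∏ j : Fin k, (nth f1 j).2.w = T.w := by
          rw [Fin.prod_univ_eq_prod_range (fun j => (nth f1 j).2.w) k, ← hw1']
          have := prod_nth_w f1
          rw [hl1] at this
          exact this
        rw [h1]
        exact hw1
    rw [hAeq]
    refine Multiset.Rel.cons ?_ (Multiset.Rel.cons ?_ Multiset.Rel.zero)
    · exact hlim x1 f (fun _ => 1) (fun _ => 1) hl hx1 (fun _ => rfl) (CSeq.refl k u) rfl
    · refine hlim x2 f' cc zs (by rw [hlen, hl]) (by rw [hcc0]; exact hx2) hlab ?_ hw'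
      rw [← hl]
      exact hseq
  · intro x hx
    by_contra hcon
    push Not at hcon
    apply hw6V
    have h1 := prod_rF cs u (a := (1, x)) k (hdn x hx)
    have h2 : w ^ 6 = ∏ j : Fin k, r x j := by
      have h2 : ∏ j : Fin k, r x j = ∏ j ∈ Finset.range k, rF cs u (1, x) j :=
        Fin.prod_univ_eq_prod_range (fun j => rF cs u (1, x) j) k
      have h3 : ∏ j ∈ Finset.range k, (4 * cs (u j).al ^ 2) = 4 ^ k * cs T.al ^ 2 := by
        rw [Finset.prod_mul_distrib, Finset.prod_const, Finset.card_range, Finset.prod_pow, ← map_prod, hprodal]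
      obtain ⟨d1, d2⟩ := dn_tot cs f (1, x)
      rw [hl, ← hT] at d1 d2
      obtain ⟨b1, b2⟩ := hdn x hx k le_rfl
      rw [h2]
      have h4 : (dn cs u (1, x) k).1 * (dn cs u (1, x) k).2 ≠ 0 := mul_ne_zero b1 b2
      apply mul_right_cancel₀ h4
      rw [h1, h3]
      have h5 := hfac x hx
      have h6 : (4 : Om K) ≠ 0 := by norm_num
      apply mul_left_cancel₀ h6
      have h7 : (4 : Om K) ^ k = 2 ^ k * 2 ^ k := by rw [← mul_pow]; norm_num
      have d1' : 2 * (dn cs u (1, x) k).1 = 2 ^ k * (cs T.p * 1 - cs T.m * x) := d1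
      have d2' : 2 * (dn cs u (1, x) k).2 = 2 ^ k * (cs T.ps * x - cs T.ms * 1) := d2
      have d3 : 4 * (w ^ 6 * ((dn cs u (1, x) k).1 * (dn cs u (1, x) k).2)) =
          w ^ 6 * ((2 ^ k * (cs T.p * 1 - cs T.m * x)) * (2 ^ k * (cs T.ps * x - cs T.ms * 1))) := by
        rw [← d1', ← d2']
        ring
      rw [d3, h7]
      linear_combination (2 ^ k * 2 ^ k) * h5
    rw [h2, ← Finset.prod_inv_distrib]
    exact prod_mem fun j _ => (hcon j).2

end ES
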