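import Pool.Agent.H34.ES.R2

/-! # ES.MirA : algebra of the mirror pencil (complete, no sorry) -/

namespace ES

open H68.BB Polynomial

section
variable {K F : Type} [Field K] [CharZero K] [Field F] [CharZero F] (φ : K →+* F) (u : ℕ → Vtx K)

/-- the cusps seen after `j` vertices, as a fraction `n / d` -/
def dn (a : F × F) : ℕ → F × F
  | 0 => a
  | j + 1 => (φ (u j).p * (dn a j).1 - φ (u j).m * (dn a j).2, φ (u j).ps * (dn a j).2 - φ (u j).ms * (dn a j).1)

/-- `w^6` -/
def rF (a : F × F) (j : ℕ) : F :=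
  4 * φ (u j).al ^ 2 * ((dn φ u a j).1 * (dn φ u a j).2) / ((dn φ u a (j + 1)).1 * (dn φ u a (j + 1)).2)

/-- `w^3 y` -/
def eF (a : F × F) (j : ℕ) : F :=
  φ (u j).al * ((dn φ u a (j + 1)).2 * (dn φ u a j).1 * φ (u j).p - (dn φ u a j).2 * (dn φ u a (j + 1)).1 * φ (u j).ps) /
    ((dn φ u a (j + 1)).1 * (dn φ u a (j + 1)).2)

theorem dn_succ (a : F × F) (j : ℕ) : dn φ u a (j + 1) =
    (φ (u j).p * (dn φ u a j).1 - φ (u j).m * (dn φ u a j).2, φ (u j).ps * (dn φ u a j).2 - φ (u j).ms * (dn φ u a j).1) := rfl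

theorem dn_shift (a : F × F) (j : ℕ) : dn φ u a (j + 1) = dn φ (fun i => u (i + 1)) (dn φ u a 1) j := by
  induction j with
  | zero => rfl
  | succ j ih =>
    rw [dn_succ, ih]
    rfl

/-- the equation of the surface -/
theorem eF_sq {a : F × F} {j : ℕ} (h1 : (dn φ u a (j + 1)).1 ≠ 0) (h2 : (dn φ u a (j + 1)).2 ≠ 0) :
    eF φ u a j ^ 2 = rF φ u a j ^ 2 + φ (u j).al ^ 2 - 2 * φ (u j).ab.2 * rF φ u a j := by
  unfold eF rF
  set d := (dn φ u a j).1 with hd
  set n := (dn φ u a j).2 with hn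
  set d' := (dn φ u a (j + 1)).1 with hd'
  set n' := (dn φ u a (j + 1)).2 with hn'
  have e1 : d' = φ (u j).p * d - φ (u j).m * n := rfl
  have e2 : n' = φ (u j).ps * n - φ (u j).ms * d := rfl
  have key : (n' * d * φ (u j).p - n * d' * φ (u j).ps) ^ 2 =
      16 * φ (u j).al ^ 2 * (n * d) ^ 2 + (n' * d') ^ 2 - 8 * φ (u j).ab.2 * (n * d) * (n' * d') := by
    have h4 : 2 * φ (u j).ab.2 = φ (u j).w ^ 6 + φ (u j).v ^ 6 - φ (u j).y ^ 2 := by
      have : 2 * (u j).ab.2 = (u j).w ^ 6 + (u j).v ^ 6 - (u j).y ^ 2 := by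
        unfold Vtx.ab
        have h2 : (2 : K) ≠ 0 := two_ne_zero
        field_simp
      have h5 := congrArg φ this
      simpa only [map_mul, map_ofNat, map_sub, map_add, map_pow] using h5
    have h8 : 8 * φ (u j).ab.2 = 4 * (φ (u j).w ^ 6 + φ (u j).v ^ 6 - φ (u j).y ^ 2) := by
      linear_combination 4 * h4
    rw [h8, e1, e2]
    unfold Vtx.p Vtx.ps Vtx.m Vtx.ms Vtx.al
    simp only [map_mul, map_sub, map_add, map_pow]
    ring
  have h3 : d' * n' ≠ 0 := mul_ne_zero h1 h2
  field_simp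
  linear_combination (φ (u j).al ^ 2) * key

theorem prod_rF {a : F × F} : ∀ k : ℕ, (∀ j ≤ k, (dn φ u a j).1 ≠ 0 ∧ (dn φ u a j).2 ≠ 0) →
    (∏ j ∈ Finset.range k, rF φ u a j) * ((dn φ u a k).1 * (dn φ u a k).2) =
      (∏ j ∈ Finset.range k, (4 * φ (u j).al ^ 2)) * (a.1 * a.2) := by
  intro k
  induction k with
  | zero => intro _; simp [dn]
  | succ k ih =>
    intro h
    have h1 := ih (fun j hj => h j (by omega))
    have h2 := h (k + 1) le_rfl
    rw [Finset.prod_range_succ, Finset.prod_range_succ]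
    have h3 : rF φ u a k * ((dn φ u a (k + 1)).1 * (dn φ u a (k + 1)).2) =
        4 * φ (u k).al ^ 2 * ((dn φ u a k).1 * (dn φ u a k).2) := by
      unfold rF
      rw [div_mul_cancel₀ _ (mul_ne_zero h2.1 h2.2)]
    rw [mul_assoc, h3]
    linear_combination (4 * φ (u k).al ^ 2) * h1

end

section tot
variable {F : Type} [Field F]

theorem cons_p (u t : Vtx F) : 2 * (⟨u.w * t.w, u.v * t.v, u.w ^ 3 * t.y + u.y * t.v ^ 3⟩ : Vtx F).p = u.p * t.p + u.ms * t.m := by
  unfold Vtx.p Vtx.ms Vtx.m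
  ring
theorem cons_ms (u t : Vtx F) : 2 * (⟨u.w * t.w, u.v * t.v, u.w ^ 3 * t.y + u.y * t.v ^ 3⟩ : Vtx F).ms = u.p * t.ms + u.ms * t.ps := by
  unfold Vtx.p Vtx.ms Vtx.ps
  ring
theorem cons_m (u t : Vtx F) : 2 * (⟨u.w * t.w, u.v * t.v, u.w ^ 3 * t.y + u.y * t.v ^ 3⟩ : Vtx F).m = u.m * t.p + u.ps * t.m := by
  unfold Vtx.p Vtx.ps Vtx.m
  ring
theorem cons_ps (u t : Vtx F) : 2 * (⟨u.w * t.w, u.v * t.v, u.w ^ 3 * t.y + u.y * t.v ^ 3⟩ : Vtx F).ps = u.m * t.ms + u.ps * t.ps := by
  unfold Vtx.m Vtx.ms Vtx.ps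
  ring

variable {s : ℕ} {K : Type} [Field K] [CharZero K]

/-- the totals of the polygon seen from another cusp -/
theorem RotRel.tot {c : K} {f f' : List (Lk s K)} (h : RotRel c f f') : ∃ Z ck : K,
    (tot (f'.map Prod.snd)).p = Z * (tot (f.map Prod.snd)).p ∧
    (tot (f'.map Prod.snd)).m = Z * c * (tot (f.map Prod.snd)).m ∧
    ck * (tot (f'.map Prod.snd)).ms = Z * (tot (f.map Prod.snd)).ms ∧
    ck * (tot (f'.map Prod.snd)).ps = Z * c * (tot (f.map Prod.snd)).ps ∧ (c ≠ 0 → ck ≠ 0) := by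
  induction h with
  | nil c =>
    refine ⟨1, c, ?_, ?_, ?_, ?_, fun h => h⟩ <;>
    · simp only [List.map_nil, ES.tot, Vtx.p, Vtx.m, Vtx.ms, Vtx.ps]
      ring
  | @cons c c1 z g g' f f' hc hz hzc hb hab hal hp hm hms hps hr ih =>
    obtain ⟨Z, ck, i1, i2, i3, i4, i5⟩ := ih
    have hc1 : c1 ≠ 0 := by rw [← hzc]; exact mul_ne_zero (pow_ne_zero _ hz) hc
    have h2 : (2 : K) ≠ 0 := two_ne_zero
    refine ⟨z * Z, ck, ?_, ?_, ?_, ?_, fun _ => i5 hc1⟩
    · apply mul_left_cancel₀ h2
      simp only [List.map_cons, ES.tot]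
      have e2 := cons_p g.2 (ES.tot (f.map Prod.snd))
      rw [cons_p, hp, i1, i2]
      linear_combination (Z * (ES.tot (f.map Prod.snd)).m) * hms - (z * Z) * e2
    · apply mul_left_cancel₀ h2
      simp only [List.map_cons, ES.tot]
      have e2 := cons_m g.2 (ES.tot (f.map Prod.snd))
      rw [cons_m, hm, i1, i2]
      linear_combination (Z * (ES.tot (f.map Prod.snd)).m) * hps - (z * Z * c) * e2
    · apply mul_left_cancel₀ h2
      simp only [List.map_cons, ES.tot]
      have e1 := cons_ms g'.2 (ES.tot (f'.map Prod.snd))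
      have e2 := cons_ms g.2 (ES.tot (f.map Prod.snd))
      rw [hp] at e1
      have e3 : g'.2.ms * (ck * (ES.tot (f'.map Prod.snd)).ps) = z * Z * (g.2.ms * (ES.tot (f.map Prod.snd)).ps) := by
        rw [i4]
        linear_combination (Z * (ES.tot (f.map Prod.snd)).ps) * hms
      linear_combination ck * e1 - (z * Z) * e2 + z * g.2.p * i3 + e3
    · apply mul_left_cancel₀ h2
      simp only [List.map_cons, ES.tot]
      have e1 := cons_ps g'.2 (ES.tot (f'.map Prod.snd))
      have e2 := cons_ps g.2 (ES.tot (f.map Prod.snd))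
      rw [hm] at e1
      have e3 : g'.2.ps * (ck * (ES.tot (f'.map Prod.snd)).ps) = z * Z * c * (g.2.ps * (ES.tot (f.map Prod.snd)).ps) := by
        rw [i4]
        linear_combination (Z * (ES.tot (f.map Prod.snd)).ps) * hps
      linear_combination ck * e1 - (z * Z * c) * e2 + z * c * g.2.m * i3 + e3

/-- `d_k`, `n_k` in terms of the total of the list -/
theorem dn_tot {F : Type} [Field F] [CharZero F] (φ : K →+* F) : ∀ (f : List (Lk s K)) (a : F × F),
    2 * (dn φ (fun j => (nth f j).2) a f.length).1 =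
      2 ^ f.length * (φ (ES.tot (f.map Prod.snd)).p * a.1 - φ (ES.tot (f.map Prod.snd)).m * a.2) ∧
    2 * (dn φ (fun j => (nth f j).2) a f.length).2 =
      2 ^ f.length * (φ (ES.tot (f.map Prod.snd)).ps * a.2 - φ (ES.tot (f.map Prod.snd)).ms * a.1) := by
  intro f
  induction f with
  | nil =>
    intro a
    simp only [List.length_nil, dn, List.map_nil, ES.tot, Vtx.p, Vtx.m, Vtx.ms, Vtx.ps, pow_zero, one_mul, one_pow, add_zero,
      sub_self, map_zero, zero_mul, sub_zero, map_add, map_one]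
    constructor <;> ring
  | cons g f ih =>
    intro a
    rw [List.length_cons, dn_shift]
    have e1 : (fun i => (nth (g :: f) (i + 1)).2) = fun i => (nth f i).2 := by
      funext i
      simp [nth]
    rw [e1]
    obtain ⟨h1, h2⟩ := ih (dn φ (fun j => (nth (g :: f) j).2) a 1)
    rw [h1, h2]
    have e2 : dn φ (fun j => (nth (g :: f) j).2) a 1 = (φ g.2.p * a.1 - φ g.2.m * a.2, φ g.2.ps * a.2 - φ g.2.ms * a.1) := rfl
    rw [e2]
    simp only [List.map_cons, ES.tot]
    have c1 := congrArg φ (cons_p g.2 (ES.tot (f.map Prod.snd)))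
    have c2 := congrArg φ (cons_m g.2 (ES.tot (f.map Prod.snd)))
    have c3 := congrArg φ (cons_ms g.2 (ES.tot (f.map Prod.snd)))
    have c4 := congrArg φ (cons_ps g.2 (ES.tot (f.map Prod.snd)))
    simp only [map_mul, map_add, map_ofNat] at c1 c2 c3 c4
    rw [pow_succ]
    constructor
    · linear_combination (-(2 : F) ^ f.length * a.1) * c1 + (2 : F) ^ f.length * a.2 * c2
    · linear_combination (-(2 : F) ^ f.length * a.2) * c4 + (2 : F) ^ f.length * a.1 * c3

/-- the sequence of cusps -/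
structure CSeq (k : ℕ) (u u' : ℕ → Vtx K) (cc zs : ℕ → K) : Prop where
  c : ∀ j, j < k → cc j ≠ 0
  z : ∀ j, j < k → zs j ≠ 0
  zc : ∀ j, j < k → zs j ^ 2 * cc j = cc (j + 1)
  ab : ∀ j, j < k → (u' j).ab = (u j).ab
  al : ∀ j, j < k → (u' j).al = (u j).al
  p : ∀ j, j < k → (u' j).p = zs j * (u j).p
  m : ∀ j, j < k → (u' j).m = zs j * cc j * (u j).m
  ms : ∀ j, j < k → cc (j + 1) * (u' j).ms = zs j * (u j).ms
  ps : ∀ j, j < k → cc (j + 1) * (u' j).ps = zs j * cc j * (u j).ps

theorem CSeq.refl (k : ℕ) (u : ℕ → Vtx K) : CSeq k u u (fun _ => 1) (fun _ => 1) := by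
  constructor <;> intro j _ <;> simp

theorem RotRel.seq {c : K} {f f' : List (Lk s K)} (h : RotRel c f f') : f'.length = f.length ∧
    (∀ j, (nth f' j).1 = (nth f j).1) ∧
    ∃ cc zs : ℕ → K, cc 0 = c ∧ CSeq f.length (fun j => (nth f j).2) (fun j => (nth f' j).2) cc zs := by
  induction h with
  | nil c =>
    refine ⟨rfl, fun j => rfl, fun _ => c, fun _ => 1, rfl, ?_⟩
    constructor <;> intro j hj <;> exact absurd hj (Nat.not_lt_zero j)
  | @cons c c1 z g g' f f' hc hz hzc hb hab hal hp hm hms hps hr ih =>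
    obtain ⟨i1, i2, cc, zs, i3, i4⟩ := ih
    refine ⟨by rw [List.length_cons, List.length_cons, i1], ?_, fun j => Nat.casesOn j c cc, fun j => Nat.casesOn j z zs, rfl, ?_⟩
    · intro j
      match j with
      | 0 => exact hb
      | j + 1 =>
        have := i2 j
        simpa [nth] using this
    · constructor <;> intro j hj <;> rw [List.length_cons] at hj <;> match j with
      | 0 => first | exact hc | exact hz | exact hab | exact hal | exact hp | exact hm | (show _ = cc 0; rw [i3]; exact hzc) | (show cc 0 * _ = _; rw [i3]; exact hms) | (show cc 0 * _ = _; rw [i3]; exact hps)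
      | j + 1 => first | (exact i4.c j (by omega)) | (exact i4.z j (by omega)) | (exact i4.zc j (by omega)) | (have := i4.ab j (by omega); simpa [nth] using this) | (have := i4.al j (by omega); simpa [nth] using this) | (have := i4.p j (by omega); simpa [nth] using this) | (have := i4.m j (by omega); simpa [nth] using this) | (have := i4.ms j (by omega); simpa [nth] using this) | (have := i4.ps j (by omega); simpa [nth] using this)

/-- the data along the sequence -/
theorem CSeq.vals {k : ℕ} {u u' : ℕ → Vtx K} {cc zs : ℕ → K} (h : CSeq k u u' cc zs) (hnd : ∀ j, j < k → ND (u j).ab) :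
    (∀ j, j ≤ k → (dn (RingHom.id K) u (1, cc 0) j).1 ≠ 0 ∧
      (dn (RingHom.id K) u (1, cc 0) j).2 = cc j * (dn (RingHom.id K) u (1, cc 0) j).1) ∧
    ∀ j, j < k → rF (RingHom.id K) u (1, cc 0) j = (u' j).w ^ 6 ∧ eF (RingHom.id K) u (1, cc 0) j = (u' j).w ^ 3 * (u' j).y ∧
      ND (u' j).ab := by
  have hnd' : ∀ j, j < k → ND (u' j).ab := fun j hj => by rw [h.ab j hj]; exact hnd j hj
  have step : ∀ j, j < k → zs j * ((u j).p - cc j * (u j).m) = 2 * (u' j).v ^ 3 := by
    intro j hj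
    have e1 := h.p j hj
    have e2 := h.m j hj
    have e3 : (u' j).p - (u' j).m = 2 * (u' j).v ^ 3 := by unfold Vtx.p Vtx.m; ring
    linear_combination e3 - e1 + e2
  have step2 : ∀ j, j < k → zs j * (cc j * (u j).ps - (u j).ms) = cc (j + 1) * (2 * (u' j).v ^ 3) := by
    intro j hj
    have e1 := h.ps j hj
    have e2 := h.ms j hj
    have e3 : (u' j).ps - (u' j).ms = 2 * (u' j).v ^ 3 := by unfold Vtx.ps Vtx.ms; ring
    linear_combination (cc (j + 1)) * e3 - e1 + e2
  have main : ∀ j, j ≤ k → (dn (RingHom.id K) u (1, cc 0) j).1 ≠ 0 ∧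
      (dn (RingHom.id K) u (1, cc 0) j).2 = cc j * (dn (RingHom.id K) u (1, cc 0) j).1 := by
    intro j
    induction j with
    | zero =>
      intro _
      exact ⟨one_ne_zero, (mul_one _).symm⟩
    | succ j ih =>
      intro hj
      obtain ⟨i1, i2⟩ := ih (by omega)
      have hj' : j < k := by omega
      rw [dn_succ]
      simp only [RingHom.id_apply]
      rw [i2]
      have hz := h.z j hj'
      have hv := (hnd' j hj').v_ne
      have hv2 : 2 * (u' j).v ^ 3 ≠ 0 := mul_ne_zero two_ne_zero (pow_ne_zero _ hv)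
      have s1 := step j hj'
      have s2 := step2 j hj'
      have h3 : (u j).p - cc j * (u j).m ≠ 0 := by
        intro h0
        rw [h0, mul_zero] at s1
        exact hv2 s1.symm
      constructor
      · have e1 : (u j).p * (dn (RingHom.id K) u (1, cc 0) j).1 - (u j).m * (cc j * (dn (RingHom.id K) u (1, cc 0) j).1) =
            ((u j).p - cc j * (u j).m) * (dn (RingHom.id K) u (1, cc 0) j).1 := by ring
        rw [e1]
        exact mul_ne_zero h3 i1
      · have e2 : cc j * (u j).ps - (u j).ms = cc (j + 1) * ((u j).p - cc j * (u j).m) := by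
          apply mul_left_cancel₀ hz
          linear_combination s2 - cc (j + 1) * s1
        linear_combination (dn (RingHom.id K) u (1, cc 0) j).1 * e2
  refine ⟨main, ?_⟩
  intro j hj
  obtain ⟨i1, i2⟩ := main j (by omega)
  obtain ⟨j1, j2⟩ := main (j + 1) (by omega)
  have hz := h.z j hj
  have hc := h.c j hj
  have hc1 : cc (j + 1) ≠ 0 := by rw [← h.zc j hj]; exact mul_ne_zero (pow_ne_zero _ hz) hc
  have hnd1 := hnd' j hj
  have hv := hnd1.v_ne
  have hw := hnd1.w_ne
  have s1 := step j hj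
  have hd : (dn (RingHom.id K) u (1, cc 0) (j + 1)).1 = ((u j).p - cc j * (u j).m) * (dn (RingHom.id K) u (1, cc 0) j).1 := by
    rw [dn_succ]
    simp only [RingHom.id_apply]
    rw [i2]
    ring
  have hq0 : (u j).p - cc j * (u j).m ≠ 0 := by
    intro h0
    rw [h0, mul_zero] at s1
    exact mul_ne_zero two_ne_zero (pow_ne_zero 3 hv) s1.symm
  have hal : (u j).al = (u' j).w ^ 3 * (u' j).v ^ 3 := by
    rw [← h.al j hj]; unfold Vtx.al; ring
  refine ⟨?_, ?_, hnd1⟩
  · unfold rF
    rw [j2, i2, hd]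
    simp only [RingHom.id_apply]
    set d := (dn (RingHom.id K) u (1, cc 0) j).1 with hd0
    set Q := (u j).p - cc j * (u j).m with hQ
    have e1 : zs j ^ 2 * Q ^ 2 = 4 * (u' j).v ^ 6 := by
      linear_combination (zs j * Q + 2 * (u' j).v ^ 3) * s1
    rw [hal, ← h.zc j hj]
    field_simp
    linear_combination -e1
  · unfold eF
    rw [j2, i2, hd]
    simp only [RingHom.id_apply]
    set d := (dn (RingHom.id K) u (1, cc 0) j).1 with hd0
    set Q := (u j).p - cc j * (u j).m with hQ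
    have e1 := h.p j hj
    have e2 := h.ps j hj
    have e3 : (u' j).p - (u' j).ps = 2 * (u' j).y := by unfold Vtx.p Vtx.ps; ring
    have e4 : zs j * (cc (j + 1) * (u j).p - cc j * (u j).ps) = cc (j + 1) * (2 * (u' j).y) := by
      linear_combination cc (j + 1) * e3 - cc (j + 1) * e1 + e2
    rw [hal]
    field_simp
    apply mul_left_cancel₀ hz
    linear_combination (u' j).v ^ 3 * e4 - (cc (j + 1) * (u' j).y) * s1

end tot

end ES
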