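import Pool.Agent.H34.ES.ExtF
import Pool.Agent.H67.ES.Mdef

/-! # ES.NestF : from generic polygons over given base points to all tuples over these base points -/

namespace ES

open H68.BB Polynomial

variable {K : Type} [Field K] [IsAlgClosed K] [CharZero K] {s k : ℕ} {W : Wm K s}

omit [IsAlgClosed K] [CharZero K] in
private theorem nf_nth_lt (pre : List (Lk s K)) (g : Lk s K) {j : ℕ} (h : j < pre.length) :
    nth (pre ++ [g]) j = nth pre j := by
  unfold nth
  exact List.getD_append pre [g] _ j h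

omit [IsAlgClosed K] [CharZero K] in
private theorem nf_nth_eq (pre : List (Lk s K)) (g : Lk s K) : nth (pre ++ [g]) pre.length = g := by
  unfold nth
  rw [List.getD_append_right pre [g] _ pre.length le_rfl, Nat.sub_self]
  rfl

private theorem nf_vtx {a b al x y : K} (hal : al ^ 2 = a ^ 3) (hal0 : al ≠ 0) (h : y ^ 2 = x ^ 3 - 3 * a * x - 2 * b) :
    ∃ w v : K, w ≠ 0 ∧ v = al / a / w ∧ x = w ^ 2 + v ^ 2 ∧ (⟨w, v, y⟩ : Vtx K).ab = (a, b) ∧ (⟨w, v, y⟩ : Vtx K).al = al := by
  have h2 : (2 : K) ≠ 0 := two_ne_zero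
  have ha : a ≠ 0 := by
    rintro rfl
    apply hal0
    rw [zero_pow (by norm_num)] at hal
    exact pow_eq_zero_iff (by norm_num) |>.1 hal
  obtain ⟨c, hc⟩ : ∃ c, c = al / a := ⟨_, rfl⟩
  have hca : c * a = al := by rw [hc]; exact div_mul_cancel₀ _ ha
  have hc0 : c ≠ 0 := by rw [hc]; exact div_ne_zero hal0 ha
  have hc2 : c ^ 2 = a := by
    apply mul_right_cancel₀ (pow_ne_zero 2 ha)
    have h3 : (c * a) ^ 2 = al ^ 2 := by rw [hca]
    rw [hal] at h3
    linear_combination h3
  have hc3 : c ^ 3 = al := by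
    rw [← hca]
    linear_combination c * hc2
  obtain ⟨d, hd⟩ := IsAlgClosed.exists_pow_nat_eq (x ^ 2 - 4 * c ^ 2) (n := 2) (by norm_num)
  obtain ⟨w, hw⟩ := IsAlgClosed.exists_pow_nat_eq ((x + d) / 2) (n := 2) (by norm_num)
  have hZ : (w ^ 2) ^ 2 - x * w ^ 2 + c ^ 2 = 0 := by
    rw [hw]
    field_simp
    linear_combination hd
  have hw0 : w ≠ 0 := by
    rintro rfl
    apply hc0
    have h4 : c ^ 2 = 0 := by linear_combination hZ
    exact pow_eq_zero_iff (by norm_num) |>.1 h4
  obtain ⟨v, hv⟩ : ∃ v, v = c / w := ⟨_, rfl⟩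
  have hwv : w * v = c := by rw [hv]; field_simp
  have hx : x = w ^ 2 + v ^ 2 := by
    apply mul_right_cancel₀ (pow_ne_zero 2 hw0)
    linear_combination -hZ - (w * v + c) * hwv
  refine ⟨w, v, hw0, by rw [hv, hc], hx, ?_, ?_⟩
  · apply Prod.ext
    · show (w * v) ^ 2 = a
      rw [hwv, hc2]
    · show (w ^ 6 + v ^ 6 - y ^ 2) / 2 = b
      rw [div_eq_iff h2, h, hx]
      have h5 : (w * v) ^ 2 = a := by rw [hwv, hc2]
      linear_combination -3 * (w ^ 2 + v ^ 2) * h5
  · show (w * v) ^ 3 = al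
    rw [hwv, hc3]

private theorem nf_claim (hW : W.Ok) {β : Fin k → Fin s → K} (hβ : ∀ j, β j ≠ 0) {al : Fin k → K}
    (hal : ∀ j, al j ^ 2 = (ev W.a (β j)) ^ 3) (hal0 : ∀ j, al j ≠ 0) {B : Type} [AddCommGroup B]
    (h : AA k W →+ B) (E : List (Lk s K) → Prop)
    (hs : ∀ (pre : List (Lk s K)) (hl : pre.length < k), E pre →
      {w : K | ∃ v y : K, (⟨w, v, y⟩ : Vtx K).ab = lab W (β ⟨pre.length, hl⟩) ∧ (⟨w, v, y⟩ : Vtx K).al = al ⟨pre.length, hl⟩ ∧
        ¬ E (pre ++ [(β ⟨pre.length, hl⟩, ⟨w, v, y⟩)])}.Finite)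
    (hE : ∀ f : List (Lk s K), f.length = k → E f → h (cls W (fun i : Fin k => (nth f i).pt)) = 0) :
    ∀ (m : ℕ) (pre : List (Lk s K)), pre.length + m = k → E pre → ∀ P : Fin k → Pt s K, (∀ j, OnW W (P j)) →
      (∀ j, (P j).β = β j) → (∀ j : Fin k, (j : ℕ) < pre.length → P j = (nth pre j).pt) → h (cls W P) = 0 := by
  intro m
  induction m with
  | zero =>
    intro pre hlen hpre P hP hPβ hPp
    have e : P = fun i : Fin k => (nth pre i).pt := by
      funext j
      apply hPp
      rw [add_zero] at hlen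
      rw [hlen]
      exact j.2
    rw [e]
    exact hE pre (by rw [← hlen, add_zero]) hpre
  | succ m ih =>
    intro pre hlen hpre P hP hPβ hPp
    have hl : pre.length < k := by omega
    set i : Fin k := ⟨pre.length, hl⟩ with hi
    have hfin : {Q : Pt s K | OnW W Q ∧ Q.β = β i ∧ h (sl W P i Q) ≠ 0}.Finite := by
      have hS := hs pre hl hpre
      refine Set.Finite.subset (Set.Finite.biUnion hS (t := fun w => {Q : Pt s K | Q.β = β i ∧
        Q.x = w ^ 2 + (al i / ev W.a (β i) / w) ^ 2 ∧ Q.y ^ 2 = Q.x ^ 3 - 3 * ev W.a (β i) * Q.x - 2 * ev W.b (β i)}) ?_) ?_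
      · intro w _
        obtain ⟨x0, hx0⟩ : ∃ x0, x0 = w ^ 2 + (al i / ev W.a (β i) / w) ^ 2 := ⟨_, rfl⟩
        obtain ⟨y0, hy0⟩ := IsAlgClosed.exists_pow_nat_eq (x0 ^ 3 - 3 * ev W.a (β i) * x0 - 2 * ev W.b (β i)) (n := 2)
          (by norm_num)
        refine Set.Finite.subset (Set.toFinite {(⟨β i, x0, y0⟩ : Pt s K), (⟨β i, x0, -y0⟩ : Pt s K)}) ?_
        rintro Q ⟨h1, h2, h3⟩
        rw [← hx0] at h2
        rw [h2, ← hy0] at h3
        rcases sq_eq_sq_iff_eq_or_eq_neg.1 h3 with h4 | h4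
        · left
          exact Pt.ext h1 h2 h4
        · right
          exact Pt.ext h1 h2 h4
      · rintro Q ⟨hQ, hQβ, hne⟩
        have heq := hQ.2.2
        rw [hQβ] at heq
        obtain ⟨w, v, hw0, hv, hx, hab, hall⟩ := nf_vtx (hal i) (hal0 i) heq
        rw [Set.mem_iUnion₂]
        refine ⟨w, ?_, hQβ, ?_, heq⟩
        · refine ⟨v, Q.y, hab, hall, ?_⟩
          intro hE'
          apply hne
          have hP' : ∀ j, OnW W (Function.update P i Q j) := by
            intro j
            by_cases hj : j = i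
            · rw [hj, Function.update_self]; exact hQ
            · rw [Function.update_of_ne hj]; exact hP j
          have hPβ' : ∀ j, (Function.update P i Q j).β = β j := by
            intro j
            by_cases hj : j = i
            · rw [hj, Function.update_self]; exact hQβ
            · rw [Function.update_of_ne hj]; exact hPβ j
          refine ih (pre ++ [(β i, ⟨w, v, Q.y⟩)]) ?_ hE' (Function.update P i Q) hP' hPβ' ?_
          · rw [List.length_append, List.length_singleton]; omega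
          · intro j hj
            rw [List.length_append, List.length_singleton] at hj
            by_cases hji : j = i
            · rw [hji, Function.update_self]
              have e : nth (pre ++ [(β i, (⟨w, v, Q.y⟩ : Vtx K))]) (i : ℕ) = (β i, ⟨w, v, Q.y⟩) := nf_nth_eq pre _
              rw [e]
              exact Pt.ext hQβ hx rfl
            · rw [Function.update_of_ne hji]
              have hj' : (j : ℕ) < pre.length := by
                have h6 : (j : ℕ) ≠ pre.length := fun h7 => hji (Fin.ext h7)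
                omega
              rw [nf_nth_lt pre _ hj']
              exact hPp j hj'
        · rw [hx, hv]
    have h9 := ext_fib hW hP i (hβ i) h hfin (hP i) (hPβ i)
    have e : sl W P i (P i) = cls W P := by
      unfold sl
      rw [Function.update_eq_self]
    rw [e] at h9
    exact h9

theorem nest_fib (hW : W.Ok) {β : Fin k → Fin s → K} (hβ : ∀ j, β j ≠ 0) {al : Fin k → K}
    (hal : ∀ j, al j ^ 2 = (ev W.a (β j)) ^ 3) (hal0 : ∀ j, al j ≠ 0) {B : Type} [AddCommGroup B]
    (h : AA k W →+ B) (E : List (Lk s K) → Prop) (h0 : E [])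
    (hs : ∀ (pre : List (Lk s K)) (hl : pre.length < k), E pre →
      {w : K | ∃ v y : K, (⟨w, v, y⟩ : Vtx K).ab = lab W (β ⟨pre.length, hl⟩) ∧ (⟨w, v, y⟩ : Vtx K).al = al ⟨pre.length, hl⟩ ∧
        ¬ E (pre ++ [(β ⟨pre.length, hl⟩, ⟨w, v, y⟩)])}.Finite)
    (hE : ∀ f : List (Lk s K), f.length = k → E f → h (cls W (fun i : Fin k => (nth f i).pt)) = 0)
    (P : Fin k → Pt s K) (hP : ∀ j, OnW W (P j)) (hPβ : ∀ j, (P j).β = β j) : h (cls W P) = 0 :=
  nf_claim hW hβ hal hal0 h E hs hE k [] (by rw [List.length_nil, zero_add]) h0 P hP hPβ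
    (fun j hj => absurd hj (Nat.not_lt_zero _))

end ES
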