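import Pool.Agent.H34.ES.Fib
import Pool.Agent.H67.ES.Mdef

/-! # ES.Pen : pencils of tuples of links (complete, no sorry)

For fixed labels `β j` and fixed `q j = w_j v_j` the numbers `r j = w_j^6`, `e j = w_j^3 y_j` and `w = ∏ w_j` determine a tuple of links over
`Om K` up to rotations by `Z6 k K`, hence the multiset `PsiM` of all rotated tuples of points. -/

namespace ES

open H68.BB Polynomial
open H67.KH (mem_of_root mem_of_cubic rd_of_mem rd_cst sigma_cst sigma_tt roots_rd roots_sigma)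

variable {K : Type} [Field K] {s k : ℕ}

/-- the tuple of points of the rotated links -/
noncomputable def tupF {F : Type} [Field F] (f : Fin k → Lk s F) (z : Fin k → F) : Fin k → Pt s F :=
  fun i => Lk.pt ((f i).1, (f i).2.rot (z i))

/-- the class of a tuple of links -/
noncomputable def PsiF (W : Wm K s) (f : Fin k → Lk s K) : AA k W := ∑ z ∈ Z6 k K, cls W (tupF f z)

theorem Psi_eq (W : Wm K s) (f : List (Lk s K)) : Psi W k f = PsiF W (fun i : Fin k => nth f i) := rfl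

/-- the multiset of all rotated tuples of points -/
noncomputable def PsiM (f : Fin k → Lk s (Om K)) : Multiset (Fin k → Pt s (Om K)) :=
  (Z6 k K).val.map (fun z => tupF f (fun i => algebraMap K (Om K) (z i)))

theorem pf_mem_mu6 {z : K} : z ∈ mu6 K ↔ z ^ 6 = 1 := by
  unfold mu6
  rw [mem_nthRootsFinset (by norm_num)]

theorem pf_mem_Z6 {z : Fin k → K} : z ∈ Z6 k K ↔ (∀ i, z i ^ 6 = 1) ∧ ∏ i, z i = 1 := by
  classical
  unfold Z6
  rw [Finset.mem_filter, Fintype.mem_piFinset]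
  simp only [pf_mem_mu6]

theorem ne_of_pow6 {F : Type} [Field F] {z : F} (h : z ^ 6 = 1) : z ≠ 0 := by
  rintro rfl
  norm_num at h

/-- translation of `Z6` -/
theorem Z6_mul {z0 : Fin k → K} (h0 : z0 ∈ Z6 k K) : (Z6 k K).val.map (fun z => z * z0) = (Z6 k K).val := by
  obtain ⟨h1, h2⟩ := pf_mem_Z6.1 h0
  have hne : ∀ i, z0 i ≠ 0 := fun i => ne_of_pow6 (h1 i)
  have hinj : Function.Injective (fun z : Fin k → K => z * z0) := by
    intro z z' h
    funext i
    exact mul_right_cancel₀ (hne i) (congrFun h i)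
  have e : (Z6 k K).map ⟨fun z => z * z0, hinj⟩ = Z6 k K := by
    ext z
    rw [Finset.mem_map]
    constructor
    · rintro ⟨z', hz', rfl⟩
      obtain ⟨h3, h4⟩ := pf_mem_Z6.1 hz'
      refine pf_mem_Z6.2 ⟨fun i => ?_, ?_⟩
      · show (z' i * z0 i) ^ 6 = 1
        rw [mul_pow, h3, h1, one_mul]
      · show ∏ i, (z' i * z0 i) = 1
        rw [Finset.prod_mul_distrib, h4, h2, one_mul]
    · intro hz
      obtain ⟨h3, h4⟩ := pf_mem_Z6.1 hz
      refine ⟨fun i => z i * (z0 i)⁻¹, pf_mem_Z6.2 ⟨fun i => ?_, ?_⟩, ?_⟩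
      · rw [mul_pow, h3, inv_pow, h1, inv_one, one_mul]
      · rw [Finset.prod_mul_distrib, h4, Finset.prod_inv_distrib, h2, inv_one, one_mul]
      · funext i
        show z i * (z0 i)⁻¹ * z0 i = z i
        rw [mul_assoc, inv_mul_cancel₀ (hne i), mul_one]
  conv_rhs => rw [← e]
  rfl

theorem pf_rot_rot {F : Type} [Field F] (u : Vtx F) (z z' : F) : (u.rot z').rot z = u.rot (z * z') := by
  unfold Vtx.rot
  simp only [mul_inv_rev, Vtx.mk.injEq]
  refine ⟨by ring, by ring, by ring⟩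

/-- rotating the links by an element of `Z6` does not change the class -/
theorem PsiF_rot (W : Wm K s) {f f' : Fin k → Lk s K} {z0 : Fin k → K} (h0 : z0 ∈ Z6 k K)
    (h : ∀ j, f' j = ((f j).1, (f j).2.rot (z0 j))) : PsiF W f' = PsiF W f := by
  have e : ∀ z : Fin k → K, tupF f' z = tupF f (z * z0) := by
    intro z
    funext i
    unfold tupF
    rw [h i]
    show Lk.pt ((f i).1, ((f i).2.rot (z0 i)).rot (z i)) = _
    rw [pf_rot_rot]
    rfl
  unfold PsiF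
  have e1 : ∀ g : (Fin k → K) → AA k W, ∑ z ∈ Z6 k K, g z = ((Z6 k K).val.map g).sum := fun g => rfl
  rw [e1, e1]
  conv_rhs => rw [← Z6_mul h0, Multiset.map_map]
  congr 1
  refine Multiset.map_congr rfl fun z _ => ?_
  rw [e z]
  rfl

theorem PsiM_rot {f f' : Fin k → Lk s (Om K)} {z0 : Fin k → K} (h0 : z0 ∈ Z6 k K)
    (h : ∀ j, f' j = ((f j).1, (f j).2.rot (algebraMap K (Om K) (z0 j)))) : PsiM f' = PsiM f := by
  unfold PsiM
  conv_rhs => rw [← Z6_mul h0, Multiset.map_map]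
  refine Multiset.map_congr rfl fun z _ => ?_
  funext i
  unfold tupF
  rw [h i]
  show Lk.pt ((f i).1, ((f i).2.rot _).rot _) = Lk.pt ((f i).1, (f i).2.rot (algebraMap K (Om K) (z i * z0 i)))
  rw [pf_rot_rot, map_mul]

theorem PsiM_map (f : Fin k → Lk s (Om K)) (σ : Om K ≃ₐ[RatFunc K] Om K) :
    (PsiM f).map (fun P i => (P i).map σ) = PsiM (fun j => (f j).map σ) := by
  unfold PsiM
  rw [Multiset.map_map]
  refine Multiset.map_congr rfl fun z _ => ?_
  funext i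
  have e : σ (algebraMap K (Om K) (z i)) = algebraMap K (Om K) (z i) := sigma_cst σ (z i)
  show Pt.map σ (Lk.pt ((f i).1, (f i).2.rot (algebraMap K (Om K) (z i)))) =
    Lk.pt (((f i).map σ).1, ((f i).map σ).2.rot (algebraMap K (Om K) (z i)))
  unfold Lk.pt Pt.map Vtx.rot Lk.map Vtx.map
  simp only [map_add, map_mul, map_pow, map_inv₀, e]

/-- sixth roots of unity over `Om K` -/
theorem cst_of_pow6 [IsAlgClosed K] {z : Om K} (h : z ^ 6 = 1) : ∃ z0 : K, z0 ^ 6 = 1 ∧ algebraMap K (Om K) z0 = z := by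
  have hp : (X ^ 6 - 1 : K[X]).Splits := IsAlgClosed.splits _
  have hne : (X ^ 6 - C 1 : K[X]) ≠ 0 := X_pow_sub_C_ne_zero (by norm_num) 1
  have hm : ((X ^ 6 - 1 : K[X]).map (algebraMap K (Om K))) = X ^ 6 - C 1 := by
    rw [Polynomial.map_sub, Polynomial.map_pow, map_X, Polynomial.map_one, map_one]
  have h1 := hp.roots_map (algebraMap K (Om K))
  rw [hm] at h1
  have hne' : (X ^ 6 - C 1 : (Om K)[X]) ≠ 0 := X_pow_sub_C_ne_zero (by norm_num) 1
  have h2 : z ∈ (X ^ 6 - C 1 : (Om K)[X]).roots := by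
    rw [mem_roots hne', IsRoot.def, eval_sub, eval_pow, eval_X, eval_C, h, sub_self]
  rw [h1] at h2
  obtain ⟨z0, hz0, rfl⟩ := Multiset.mem_map.1 h2
  refine ⟨z0, ?_, rfl⟩
  have hne2 : (X ^ 6 - 1 : K[X]) ≠ 0 := by rw [← C_1]; exact hne
  rw [mem_roots hne2, IsRoot.def, eval_sub, eval_pow, eval_X, eval_one, sub_eq_zero] at hz0
  exact hz0

/-- the tuple of links `f` has the data `r`, `e`, `w` (over the labels `β`, with the products `q`) -/
structure Has (β : Fin k → Fin s → K) (q : Fin k → K) (r e : Fin k → Om K) (w : Om K) (f : Fin k → Lk s (Om K)) : Prop where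
  b : ∀ j, (f j).1 = fun i => algebraMap K (Om K) (β j i)
  q : ∀ j, (f j).2.w * (f j).2.v = algebraMap K (Om K) (q j)
  r : ∀ j, (f j).2.w ^ 6 = r j
  e : ∀ j, (f j).2.w ^ 3 * (f j).2.y = e j
  w : ∏ j, (f j).2.w = w

variable {β : Fin k → Fin s → K} {q : Fin k → K} {r e : Fin k → Om K} {w : Om K} {f f' : Fin k → Lk s (Om K)}

theorem Has.ne (h : Has β q r e w f) (hr : ∀ j, r j ≠ 0) (j : Fin k) : (f j).2.w ≠ 0 := by
  intro h0
  apply hr j
  rw [← h.r j, h0, zero_pow (by norm_num)]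

theorem exists_has (hk : 0 < k) (hr : ∀ j, r j ≠ 0) (hw : w ^ 6 = ∏ j, r j) : ∃ f, Has β q r e w f := by
  classical
  have h1 : ∀ j, ∃ x : Om K, x ^ 6 = r j := fun j => IsAlgClosed.exists_pow_nat_eq (r j) (by norm_num)
  choose x hx using h1
  have hx0 : ∀ j, x j ≠ 0 := by
    intro j h0
    apply hr j
    rw [← hx j, h0, zero_pow (by norm_num)]
  set i0 : Fin k := ⟨0, hk⟩ with hi0
  have hp0 : ∏ j, x j ≠ 0 := Finset.prod_ne_zero_iff.2 fun j _ => hx0 j
  set x' : Fin k → Om K := Function.update x i0 (x i0 * (w / ∏ j, x j)) with hx'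
  have hp : ∏ j, x' j = w := by
    rw [hx', Finset.prod_update_of_mem (Finset.mem_univ i0)]
    have e1 : ∏ j, x j = x i0 * ∏ j ∈ Finset.univ \ {i0}, x j := by
      rw [← Finset.mul_prod_erase Finset.univ x (Finset.mem_univ i0), Finset.sdiff_singleton_eq_erase]
    have e2 : x i0 * (w / ∏ j, x j) * ∏ j ∈ Finset.univ \ {i0}, x j =
        w / (∏ j, x j) * (x i0 * ∏ j ∈ Finset.univ \ {i0}, x j) := by ring
    rw [e2, ← e1, div_mul_cancel₀ _ hp0]
  have hx6 : ∀ j, x' j ^ 6 = r j := by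
    intro j
    by_cases hj : j = i0
    · subst hj
      rw [hx', Function.update_self, mul_pow, div_pow, hw, ← Finset.prod_pow]
      have e3 : ∏ j, x j ^ 6 = ∏ j, r j := Finset.prod_congr rfl fun j _ => hx j
      rw [e3, hx, div_self, mul_one]
      exact Finset.prod_ne_zero_iff.2 fun j _ => hr j
    · rw [hx', Function.update_of_ne hj, hx]
  have hx0' : ∀ j, x' j ≠ 0 := by
    intro j h0
    apply hr j
    rw [← hx6 j, h0, zero_pow (by norm_num)]
  refine ⟨fun j => (fun i => algebraMap K (Om K) (β j i), ⟨x' j, algebraMap K (Om K) (q j) / x' j, e j / x' j ^ 3⟩),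
    fun j => rfl, fun j => ?_, hx6, fun j => ?_, hp⟩
  · show x' j * (algebraMap K (Om K) (q j) / x' j) = _
    rw [mul_div_cancel₀ _ (hx0' j)]
  · show x' j ^ 3 * (e j / x' j ^ 3) = _
    rw [mul_div_cancel₀ _ (pow_ne_zero _ (hx0' j))]

/-- the data determine the multiset -/
theorem Has.psiM_eq [IsAlgClosed K] (h : Has β q r e w f) (h' : Has β q r e w f') (hr : ∀ j, r j ≠ 0) : PsiM f' = PsiM f := by
  have hf := h.ne hr
  have hf' := h'.ne hr
  have h1 : ∀ j, ((f' j).2.w / (f j).2.w) ^ 6 = 1 := by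
    intro j
    rw [div_pow, h.r, h'.r, div_self (hr j)]
  choose z0 hz0 hz using fun j => cst_of_pow6 (h1 j)
  refine PsiM_rot (z0 := z0) (pf_mem_Z6.2 ⟨hz0, ?_⟩) ?_
  · have hw0 : w ≠ 0 := by
      rw [← h.w]
      exact Finset.prod_ne_zero_iff.2 fun j _ => hf j
    apply (algebraMap K (Om K)).injective
    rw [map_prod, map_one]
    simp only [hz]
    rw [Finset.prod_div_distrib, h.w, h'.w, div_self hw0]
  · intro j
    rw [hz j]
    refine Prod.ext ?_ ?_
    · rw [h.b, h'.b]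
    · unfold Vtx.rot
      have e1 : (f' j).2.v = algebraMap K (Om K) (q j) / (f' j).2.w := by
        rw [← h'.q j, mul_div_cancel_left₀ _ (hf' j)]
      have e2 : (f j).2.v = algebraMap K (Om K) (q j) / (f j).2.w := by
        rw [← h.q j, mul_div_cancel_left₀ _ (hf j)]
      have e3 : (f' j).2.y = e j / (f' j).2.w ^ 3 := by
        rw [← h'.e j, mul_div_cancel_left₀ _ (pow_ne_zero _ (hf' j))]
      have e4 : (f j).2.y = e j / (f j).2.w ^ 3 := by
        rw [← h.e j, mul_div_cancel_left₀ _ (pow_ne_zero _ (hf j))]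
      have e5 : (f' j).2.w ^ 6 = (f j).2.w ^ 6 := by rw [h.r, h'.r]
      have hfj := hf j
      have hfj' := hf' j
      apply Vtx.ext
      · show (f' j).2.w = (f' j).2.w / (f j).2.w * (f j).2.w
        rw [div_mul_cancel₀ _ hfj]
      · show (f' j).2.v = ((f' j).2.w / (f j).2.w)⁻¹ * (f j).2.v
        rw [e1, e2]
        field_simp
      · show (f' j).2.y = ((f' j).2.w / (f j).2.w) ^ 3 * (f j).2.y
        rw [e3, e4]
        field_simp
        linear_combination -(e j) * e5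

theorem Has.sigma (h : Has β q r e w f) (σ : Om K ≃ₐ[RatFunc K] Om K) :
    Has β q (fun j => σ (r j)) (fun j => σ (e j)) (σ w) (fun j => (f j).map σ) where
  b := by
    intro j
    show (fun i => σ ((f j).1 i)) = _
    rw [h.b j]
    funext i
    exact sigma_cst σ _
  q := by
    intro j
    show σ (f j).2.w * σ (f j).2.v = _
    rw [← map_mul, h.q j]
    exact sigma_cst σ _
  r := by
    intro j
    show σ (f j).2.w ^ 6 = _
    rw [← map_pow, h.r j]
  e := by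
    intro j
    show σ (f j).2.w ^ 3 * σ (f j).2.y = _
    rw [← map_pow, ← map_mul, h.e j]
  w := by
    show ∏ j, σ (f j).2.w = _
    rw [← map_prod, h.w]

/-- the points of the rotated tuples are on `W` -/
theorem Has.allOn {W : Wm K s} (h : Has β q r e w f) (hr : ∀ j, r j ≠ 0) (hβ : ∀ j, β j ≠ 0)
    (hI : ∀ j, ∀ g ∈ W.I, ev g (β j) = 0) (hq : ∀ j, q j ^ 2 = ev W.a (β j))
    (he : ∀ j, e j ^ 2 = r j ^ 2 + algebraMap K (Om K) (q j) ^ 6 - 2 * algebraMap K (Om K) (ev W.b (β j)) * r j) :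
    AllOn W (PsiM f) := by
  intro P hP j
  obtain ⟨z, hz, rfl⟩ := Multiset.mem_map.1 hP
  obtain ⟨hz6, -⟩ := pf_mem_Z6.1 (Finset.mem_def.2 hz)
  have hf := h.ne hr j
  set Z : Om K := algebraMap K (Om K) (z j) with hZ
  have hZ6 : Z ^ 6 = 1 := by rw [hZ, ← map_pow, hz6, map_one]
  have hZ0 : Z ≠ 0 := ne_of_pow6 hZ6
  set U := (f j).2.w with hU
  set V := (f j).2.v with hV
  set Y := (f j).2.y with hY
  have hUV := h.q j
  have hr' := h.r j
  have he' := h.e j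
  rw [← hU] at hr' he' hUV
  rw [← hV] at hUV
  rw [← hY] at he'
  have hb := h.b j
  refine ⟨Or.inl ?_, ?_, ?_⟩
  · show (f j).1 ≠ 0
    rw [hb]
    intro h0
    apply hβ j
    funext i
    exact (map_eq_zero_iff _ (algebraMap K (Om K)).injective).1 (congrFun h0 i)
  · intro g hg
    show ev g (f j).1 = 0
    rw [hb, ev_cst, hI j g hg, map_zero]
  · show (Z ^ 3 * Y) ^ 2 = ((Z * U) ^ 2 + (Z⁻¹ * V) ^ 2) ^ 3 - 3 * ev W.a (f j).1 * ((Z * U) ^ 2 + (Z⁻¹ * V) ^ 2) -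
      2 * ev W.b (f j).1
    rw [hb, ev_cst, ev_cst, ← hq, map_pow, ← hUV]
    set b0 := algebraMap K (Om K) (ev W.b (β j)) with hb0
    have h1 : Y ^ 2 = U ^ 6 + V ^ 6 - 2 * b0 := by
      have h2 := he j
      rw [← he', ← hr', ← hUV] at h2
      have h3 : U ^ 6 ≠ 0 := pow_ne_zero _ hf
      apply mul_left_cancel₀ h3
      linear_combination h2
    have h4 : Z⁻¹ * Z = 1 := inv_mul_cancel₀ hZ0
    have h5 : ((Z * U) ^ 2 + (Z⁻¹ * V) ^ 2) ^ 3 - 3 * (U * V) ^ 2 * ((Z * U) ^ 2 + (Z⁻¹ * V) ^ 2) =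
        Z ^ 6 * U ^ 6 + (Z⁻¹) ^ 6 * V ^ 6 := by
      have h6 : (Z * U) ^ 2 * (Z⁻¹ * V) ^ 2 = (U * V) ^ 2 := by
        have : (Z * U) ^ 2 * (Z⁻¹ * V) ^ 2 = (Z⁻¹ * Z) ^ 2 * (U * V) ^ 2 := by ring
        rw [this, h4, one_pow, one_mul]
      rw [← h6]
      ring
    have h7 : (Z⁻¹) ^ 6 = 1 := by rw [inv_pow, hZ6, inv_one]
    rw [h5, h7, hZ6]
    linear_combination h1 + Y ^ 2 * hZ6

variable {π : Place K (Om K)}

theorem rd_prod {x : Fin k → Om K} {x0 : Fin k → K} (h : ∀ j, Rd π.V π.φ (x j) (x0 j)) :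
    Rd π.V π.φ (∏ j, x j) (∏ j, x0 j) := by
  induction k with
  | zero => simpa using Rd.one
  | succ k ih =>
    rw [Fin.prod_univ_succ, Fin.prod_univ_succ]
    exact (h 0).mul (ih (fun j => h j.succ))

/-- limit at a place where the data specialise to those of `f0` -/
theorem Has.lim [IsAlgClosed K] {W : Wm K s} (h : Has β q r e w f) (hr : ∀ j, r j ≠ 0) (hβ : ∀ j, β j ≠ 0)
    {f0 : Fin k → Lk s K} (hb0 : ∀ j, (f0 j).1 = β j) (hq0 : ∀ j, (f0 j).2.w * (f0 j).2.v = q j)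
    (hw0 : ∀ j, (f0 j).2.w ≠ 0) (hrr : ∀ j, Rd π.V π.φ (r j) ((f0 j).2.w ^ 6))
    (hee : ∀ j, Rd π.V π.φ (e j) ((f0 j).2.w ^ 3 * (f0 j).2.y)) (hww : Rd π.V π.φ w (∏ j, (f0 j).2.w)) :
    Lim W π (PsiM f) (PsiF W f0) := by
  have hloc := π.isLocal
  have hf := h.ne hr
  have h1 : ∀ j, ∃ z : K, z ^ 6 = 1 ∧ Rd π.V π.φ (f j).2.w (z * (f0 j).2.w) := by
    intro j
    have h2 : (f j).2.w ∈ π.V := mem_of_pow (n := 6) (by norm_num) (by rw [h.r j]; exact (hrr j).mem)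
    obtain ⟨c, hc⟩ := rd_of_mem h2
    have h3 : c ^ 6 = (f0 j).2.w ^ 6 := (hc.pow 6).unique (by rw [h.r j]; exact hrr j)
    refine ⟨c / (f0 j).2.w, ?_, ?_⟩
    · rw [div_pow, h3, div_self (pow_ne_zero _ (hw0 j))]
    · rw [div_mul_cancel₀ _ (hw0 j)]
      exact hc
  choose z0 hz6 hz using h1
  have hz0 : ∀ j, z0 j ≠ 0 := fun j => ne_of_pow6 (hz6 j)
  have hmem : z0 ∈ Z6 k K := by
    refine pf_mem_Z6.2 ⟨hz6, ?_⟩
    have h4 : Rd π.V π.φ w (∏ j, (z0 j * (f0 j).2.w)) := by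
      rw [← h.w]
      exact rd_prod (fun j => hz j)
    have h5 := h4.unique hww
    rw [Finset.prod_mul_distrib] at h5
    have h6 : ∏ j, (f0 j).2.w ≠ 0 := Finset.prod_ne_zero_iff.2 fun j _ => hw0 j
    exact mul_right_cancel₀ h6 (by rw [h5, one_mul])
  set f1 : Fin k → Lk s K := fun j => ((f0 j).1, (f0 j).2.rot (z0 j)) with hf1
  rw [← PsiF_rot W (f := f0) (f' := f1) hmem (fun j => rfl)]
  have hv : ∀ j, Rd π.V π.φ (f j).2.v ((z0 j)⁻¹ * (f0 j).2.v) := by
    intro j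
    have e1 : (f j).2.v = algebraMap K (Om K) (q j) * (f j).2.w⁻¹ := by
      rw [← h.q j, mul_comm (f j).2.w, mul_assoc, mul_inv_cancel₀ (hf j), mul_one]
    have e2 : (z0 j)⁻¹ * (f0 j).2.v = q j * (z0 j * (f0 j).2.w)⁻¹ := by
      rw [← hq0 j, mul_inv]
      have := hw0 j
      field_simp
    rw [e1, e2]
    exact (rd_cst π _).mul ((hz j).inv (mul_ne_zero (hz0 j) (hw0 j)))
  have hy : ∀ j, Rd π.V π.φ (f j).2.y (z0 j ^ 3 * (f0 j).2.y) := by
    intro j
    have e1 : (f j).2.y = e j * ((f j).2.w ^ 3)⁻¹ := by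
      rw [← h.e j, mul_comm ((f j).2.w ^ 3), mul_assoc, mul_inv_cancel₀ (pow_ne_zero _ (hf j)), mul_one]
    have e2 : z0 j ^ 3 * (f0 j).2.y = ((f0 j).2.w ^ 3 * (f0 j).2.y) * ((z0 j * (f0 j).2.w) ^ 3)⁻¹ := by
      have h6 := hz6 j
      have h7 := hw0 j
      have h8 := hz0 j
      field_simp
      linear_combination (f0 j).2.y * h6
    rw [e1, e2]
    exact (hee j).mul (((hz j).pow 3).inv (pow_ne_zero _ (mul_ne_zero (hz0 j) (hw0 j))))
  unfold PsiM PsiF
  have e3 : ∑ z ∈ Z6 k K, cls W (tupF f1 z) = ((Z6 k K).val.map (fun z => cls W (tupF f1 z))).sum := rfl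
  rw [e3]
  refine Lim.map (r := fun x y => x = y) (Multiset.rel_eq.2 rfl) _ _ ?_
  rintro z - z' - rfl
  intro j
  have hzz : Rd π.V π.φ (algebraMap K (Om K) (z j)) (z j) := rd_cst π _
  have hb1 : (f1 j).1 = β j := hb0 j
  by_cases hzj : z j = 0
  · refine Sp_fin (Or.inl ?_) ?_ ?_ ?_
    · show (f1 j).1 ≠ 0
      rw [hb1]; exact hβ j
    · intro i
      show Rd π.V π.φ ((f j).1 i) ((f1 j).1 i)
      rw [hb1, h.b j]
      exact rd_cst π _
    · show Rd π.V π.φ ((algebraMap K (Om K) (z j) * (f j).2.w) ^ 2 + ((algebraMap K (Om K) (z j))⁻¹ * (f j).2.v) ^ 2)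
        ((z j * (z0 j * (f0 j).2.w)) ^ 2 + ((z j)⁻¹ * ((z0 j)⁻¹ * (f0 j).2.v)) ^ 2)
      rw [hzj, map_zero, inv_zero, inv_zero, zero_mul, zero_mul, zero_mul, zero_mul]
      exact (Rd.zero.pow 2).add (Rd.zero.pow 2)
    · show Rd π.V π.φ (algebraMap K (Om K) (z j) ^ 3 * (f j).2.y) (z j ^ 3 * (z0 j ^ 3 * (f0 j).2.y))
      exact (hzz.pow 3).mul (hy j)
  · refine Sp_fin (Or.inl ?_) ?_ ?_ ?_
    · show (f1 j).1 ≠ 0
      rw [hb1]; exact hβ j
    · intro i
      show Rd π.V π.φ ((f j).1 i) ((f1 j).1 i)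
      rw [hb1, h.b j]
      exact rd_cst π _
    · show Rd π.V π.φ ((algebraMap K (Om K) (z j) * (f j).2.w) ^ 2 + ((algebraMap K (Om K) (z j))⁻¹ * (f j).2.v) ^ 2)
        ((z j * (z0 j * (f0 j).2.w)) ^ 2 + ((z j)⁻¹ * ((z0 j)⁻¹ * (f0 j).2.v)) ^ 2)
      exact ((hzz.mul (hz j)).pow 2).add (((hzz.inv hzj).mul (hv j)).pow 2)
    · show Rd π.V π.φ (algebraMap K (Om K) (z j) ^ 3 * (f j).2.y) (z j ^ 3 * (z0 j ^ 3 * (f0 j).2.y))
      exact (hzz.pow 3).mul (hy j)

/-- limit at a place where some `r j` is no unit -/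
theorem Has.lim_zero [IsAlgClosed K] {W : Wm K s} (hW : W.Ok) (h : Has β q r e w f) (hr : ∀ j, r j ≠ 0)
    (hq0 : ∀ j, q j ≠ 0) (hon : AllOn W (PsiM f)) (h0 : ∃ j, r j ∉ π.V ∨ (r j)⁻¹ ∉ π.V) : Lim W π (PsiM f) 0 := by
  obtain ⟨j, hj⟩ := h0
  have hf := h.ne hr
  have hcst : ∀ c : K, algebraMap K (Om K) c ∈ π.V := fun c => (rd_cst π c).mem
  unfold PsiM
  refine Lim.map_zero _ _ ?_
  intro z hz
  obtain ⟨hz6, -⟩ := pf_mem_Z6.1 (Finset.mem_def.2 hz)
  have hz0 : z j ≠ 0 := ne_of_pow6 (hz6 j)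
  have hP : tupF f (fun i => algebraMap K (Om K) (z i)) ∈ PsiM f := Multiset.mem_map_of_mem _ hz
  have hon' := hon _ hP
  have hex : ∀ i, ∃ p, Sp W π (tupF f (fun i => algebraMap K (Om K) (z i)) i) p := fun i => Sp_exists hW π (hon' i).1
  choose p hp using hex
  refine ⟨Function.update p j (o s K), ?_, cls_o W (i := j) (by rw [Function.update_self])⟩
  intro i
  by_cases hi : i = j
  · subst hi
    rw [Function.update_self]
    refine Sp_inf hW (hon' i) ?_ ?_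
    · intro l
      show (f i).1 l ∈ π.V
      rw [h.b i]
      exact hcst _
    · show (algebraMap K (Om K) (z i) * (f i).2.w) ^ 2 + ((algebraMap K (Om K) (z i))⁻¹ * (f i).2.v) ^ 2 ∉ π.V
      set Z := algebraMap K (Om K) (z i) with hZ
      set U := (f i).2.w with hU
      have hZV : Z ∈ π.V := hcst _
      have hZ0 : Z ≠ 0 := by
        rw [hZ]
        exact (map_ne_zero_iff _ (algebraMap K (Om K)).injective).2 hz0
      have hZ' : Z⁻¹ ∈ π.V := by
        rw [hZ, ← map_inv₀]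
        exact hcst _
      have hUV : U * (f i).2.v = algebraMap K (Om K) (q i) := h.q i
      have hU0 : U ≠ 0 := hf i
      have hr6 : U ^ 6 = r i := h.r i
      have hV0 : (f i).2.v ≠ 0 := by
        intro h0
        rw [h0, mul_zero] at hUV
        exact hq0 i ((map_eq_zero_iff _ (algebraMap K (Om K)).injective).1 hUV.symm)
      rcases hj with hj | hj
      · have h1 : U ∉ π.V := by
          intro h2
          apply hj
          rw [← hr6]
          exact pow_mem h2 6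
        have h2 : U⁻¹ ∈ π.V := (π.V.mem_or_inv_mem U).resolve_left h1
        have h3 : (f i).2.v ∈ π.V := by
          have e1 : (f i).2.v = algebraMap K (Om K) (q i) * U⁻¹ := by
            rw [← hUV, mul_comm U, mul_assoc, mul_inv_cancel₀ hU0, mul_one]
          rw [e1]
          exact mul_mem (hcst _) h2
        intro h4
        apply h1
        have h5 : (Z * U) ^ 2 ∈ π.V := by
          have e2 : (Z * U) ^ 2 = ((Z * U) ^ 2 + (Z⁻¹ * (f i).2.v) ^ 2) - (Z⁻¹ * (f i).2.v) ^ 2 := by ring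
          rw [e2]
          exact sub_mem h4 (pow_mem (mul_mem hZ' h3) 2)
        have h6 : Z * U ∈ π.V := mem_of_pow (n := 2) (by norm_num) h5
        have e3 : U = Z⁻¹ * (Z * U) := by rw [← mul_assoc, inv_mul_cancel₀ hZ0, one_mul]
        rw [e3]
        exact mul_mem hZ' h6
      · have h1 : U⁻¹ ∉ π.V := by
          intro h2
          apply hj
          rw [← hr6, ← inv_pow]
          exact pow_mem h2 6
        have h2 : U ∈ π.V := (π.V.mem_or_inv_mem U).resolve_right h1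
        intro h4
        apply h1
        have h5 : (Z⁻¹ * (f i).2.v) ^ 2 ∈ π.V := by
          have e2 : (Z⁻¹ * (f i).2.v) ^ 2 = ((Z * U) ^ 2 + (Z⁻¹ * (f i).2.v) ^ 2) - (Z * U) ^ 2 := by ring
          rw [e2]
          exact sub_mem h4 (pow_mem (mul_mem hZV h2) 2)
        have h6 : Z⁻¹ * (f i).2.v ∈ π.V := mem_of_pow (n := 2) (by norm_num) h5
        have h7 : algebraMap K (Om K) (q i) ≠ 0 := (map_ne_zero_iff _ (algebraMap K (Om K)).injective).2 (hq0 i)
        have e3 : U⁻¹ = (algebraMap K (Om K) (q i))⁻¹ * (Z * (Z⁻¹ * (f i).2.v)) := by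
          rw [← mul_assoc Z, mul_inv_cancel₀ hZ0, one_mul, ← hUV, mul_inv, mul_comm U⁻¹, mul_assoc, mul_comm U⁻¹,
            ← mul_assoc, inv_mul_cancel₀ hV0, one_mul]
        rw [e3, ← map_inv₀]
        exact mul_mem (hcst _) (mul_mem hZV h6)
  · rw [Function.update_of_ne hi]
    exact hp i

/-- `c` is the class of the limit at `π` of the tuples with the data `r`, `e`, `w` -/
def LimD (W : Wm K s) (β : Fin k → Fin s → K) (q : Fin k → K) (π : Place K (Om K)) (r e : Fin k → Om K) (w : Om K)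
    (c : AA k W) : Prop :=
  (∃ f0 : Fin k → Lk s K, (∀ j, (f0 j).1 = β j) ∧ (∀ j, (f0 j).2.w * (f0 j).2.v = q j) ∧ (∀ j, (f0 j).2.w ≠ 0) ∧
    (∀ j, Rd π.V π.φ (r j) ((f0 j).2.w ^ 6)) ∧ (∀ j, Rd π.V π.φ (e j) ((f0 j).2.w ^ 3 * (f0 j).2.y)) ∧
    Rd π.V π.φ w (∏ j, (f0 j).2.w) ∧ c = PsiF W f0) ∨
  ((∃ j, r j ∉ π.V ∨ (r j)⁻¹ ∉ π.V) ∧ c = 0)

/-- the basic relation between classes of tuples of links -/
theorem pencil [IsAlgClosed K] {W : Wm K s} (hk : 0 < k) (hW : W.Ok) {β : Fin k → Fin s → K} {q : Fin k → K}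
    (hβ : ∀ j, β j ≠ 0) (hI : ∀ j, ∀ g ∈ W.I, ev g (β j) = 0) (hq : ∀ j, q j ^ 2 = ev W.a (β j)) (hq0 : ∀ j, q j ≠ 0)
    {A : Multiset (Om K)} (hA : ∀ σ : Om K ≃ₐ[RatFunc K] Om K, A.map σ = A)
    (r e : Om K → Fin k → Om K) (w : Om K) (hw : ∀ σ : Om K ≃ₐ[RatFunc K] Om K, σ w = w)
    (hσr : ∀ x ∈ A, ∀ (σ : Om K ≃ₐ[RatFunc K] Om K) (j : Fin k), σ (r x j) = r (σ x) j)
    (hσe : ∀ x ∈ A, ∀ (σ : Om K ≃ₐ[RatFunc K] Om K) (j : Fin k), σ (e x j) = e (σ x) j)
    (hr : ∀ x ∈ A, ∀ j, r x j ≠ 0)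
    (he : ∀ x ∈ A, ∀ j, e x j ^ 2 =
      r x j ^ 2 + algebraMap K (Om K) (q j) ^ 6 - 2 * algebraMap K (Om K) (ev W.b (β j)) * r x j)
    (hp : ∀ x ∈ A, w ^ 6 = ∏ j, r x j) {π π' : Place K (Om K)} {B : Multiset (AA k W)}
    (h : Multiset.Rel (fun x c => LimD W β q π (r x) (e x) w c) A B)
    (h' : ∀ x ∈ A, ∃ j, r x j ∉ π'.V ∨ (r x j)⁻¹ ∉ π'.V) : B.sum = 0 := by
  classical
  have hex : ∀ x : Om K, ∃ f : Fin k → Lk s (Om K), x ∈ A → Has β q (r x) (e x) w f := by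
    intro x
    by_cases hx : x ∈ A
    · obtain ⟨f, hf⟩ := exists_has (β := β) (q := q) (e := e x) hk (hr x hx) (hp x hx)
      exact ⟨f, fun _ => hf⟩
    · exact ⟨fun _ => (fun _ => 0, ⟨0, 0, 0⟩), fun h => absurd h hx⟩
  choose F hF using hex
  set S : Multiset (Fin k → Pt s (Om K)) := A.bind (fun x => PsiM (F x)) with hS
  have hon : ∀ x ∈ A, AllOn W (PsiM (F x)) := fun x hx =>
    (hF x hx).allOn (hr x hx) hβ hI hq (he x hx)
  have hall : AllOn W S := by
    intro P hP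
    obtain ⟨x, hx, hPx⟩ := Multiset.mem_bind.1 hP
    exact hon x hx P hPx
  have hG : GalStable S := by
    intro σ
    rw [hS, Multiset.map_bind]
    have h1 : A.bind (fun x => (PsiM (F x)).map (fun P i => (P i).map σ)) = A.bind (fun x => PsiM (F (σ x))) := by
      refine Multiset.bind_congr fun x hx => ?_
      have hσx : σ x ∈ A := by
        have h2 := Multiset.mem_map_of_mem σ hx
        rwa [hA σ] at h2
      rw [PsiM_map]
      have h3 := (hF x hx).sigma σ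
      have e1 : (fun j => σ (r x j)) = r (σ x) := funext (hσr x hx σ)
      have e2 : (fun j => σ (e x j)) = e (σ x) := funext (hσe x hx σ)
      rw [e1, e2, hw σ] at h3
      exact (hF (σ x) hσx).psiM_eq h3 (hr (σ x) hσx)
    rw [h1]
    have h4 : A.bind (fun x => PsiM (F (σ x))) = (A.map σ).bind (fun x => PsiM (F x)) := by
      rw [Multiset.bind_map]
    rw [h4, hA σ]
  have hL : Lim W π S B.sum := by
    have h1 := Lim.bind (W := W) (π := π) h (fun x => PsiM (F x)) (fun c => c) ?_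
    · rw [Multiset.map_id'] at h1
      exact h1
    · intro x hx c _ hxc
      rcases hxc with ⟨f0, h1, h2, h3, h4, h5, h6, rfl⟩ | ⟨h1, rfl⟩
      · exact (hF x hx).lim (hr x hx) hβ h1 h2 h3 h4 h5 h6
      · exact (hF x hx).lim_zero hW (hr x hx) hq0 (hon x hx) h1
  have hL' : Lim W π' S 0 := by
    have h1 := Lim.bind_const (W := W) (π := π') A (fun x => PsiM (F x)) 0 (fun x hx =>
      (hF x hx).lim_zero hW (hr x hx) hq0 (hon x hx) (h' x hx))
    rwa [smul_zero] at h1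
  exact Lim.eq hall hG hL hL'

end ES
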