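import Pool.Agent.H34.ES.R2A

/-! # ES.R2 : recutting two links changes the sign of the class (complete, no sorry) -/

namespace ES

open H68.BB Polynomial
open H67.KH (mem_of_root mem_of_cubic rd_of_mem rd_cst sigma_cst sigma_tt roots_rd roots_sigma)

variable {K : Type} [Field K] [IsAlgClosed K] [CharZero K] {s k : ℕ} {W : Wm K s}

omit [IsAlgClosed K] [CharZero K] in
theorem mem_of_quad {π : Place K (Om K)} {x a b : Om K} (ha : a ∈ π.V) (hb : b ∈ π.V) (h : x ^ 2 = a * x + b) : x ∈ π.V := by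
  by_contra hx
  have h1 : x⁻¹ ∈ π.V := (π.V.mem_or_inv_mem x).resolve_left hx
  have hx0 : x ≠ 0 := fun h0 => hx (by rw [h0]; exact π.V.zero_mem)
  apply hx
  have e : x = a + b * x⁻¹ := by
    field_simp
    linear_combination h
  rw [e]
  exact add_mem ha (mul_mem hb h1)

theorem prod_update2 {M : Type} [CommMonoid M] (g : Fin k → M) {i j : Fin k} (hij : i ≠ j) {x y : M}
    (h : x * y = g i * g j) : ∏ l, Function.update (Function.update g i x) j y l = ∏ l, g l := by
  classical
  rw [Finset.prod_update_of_mem (Finset.mem_univ j)]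
  have h1 : i ∈ Finset.univ \ {j} := by simp [hij]
  rw [Finset.prod_update_of_mem h1]
  have h2 : ∏ l, g l = g j * ∏ l ∈ Finset.univ \ {j}, g l := by
    rw [← Finset.mul_prod_erase Finset.univ g (Finset.mem_univ j), Finset.sdiff_singleton_eq_erase]
  have h3 : ∏ l ∈ Finset.univ \ {j}, g l = g i * ∏ l ∈ (Finset.univ \ {j}) \ {i}, g l := by
    rw [← Finset.mul_prod_erase _ g h1, Finset.sdiff_singleton_eq_erase i (Finset.univ \ {j})]
  rw [h2, h3, ← mul_assoc, ← mul_assoc, mul_comm y x, h, mul_comm (g i)]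

omit [IsAlgClosed K] [CharZero K] in
theorem pf_wv_eq {u u' : Vtx K} (h1 : u.ab = u'.ab) (h2 : u.al = u'.al) (h0 : u.w * u.v ≠ 0) : u.w * u.v = u'.w * u'.v := by
  have h3 : (u.w * u.v) ^ 2 = (u'.w * u'.v) ^ 2 := congrArg Prod.fst h1
  have h4 : (u.w * u.v) ^ 3 = (u'.w * u'.v) ^ 3 := h2
  have h5 : (u.w * u.v) ^ 2 ≠ 0 := pow_ne_zero _ h0
  apply mul_left_cancel₀ h5
  linear_combination h4 - (u'.w * u'.v) * h3

/-- the links over fixed base points -/
structure AllOk (W : Wm K s) (f : Fin k → Lk s K) : Prop where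
  ok : ∀ l, (f l).Ok W
  b0 : ∀ l, (f l).1 ≠ 0
  nd : ∀ l, ND (f l).2.ab

theorem PsiF_recut (hW : W.Ok) {f : Fin k → Lk s K} (hf : AllOk W f) {i j : Fin k} (hij : i ≠ j) {h1 h2 : Lk s K}
    (hl1 : h1.1 = (f i).1) (hl2 : h2.1 = (f j).1) (hR : Recut (f i).2 (f j).2 h2.2 h1.2)
    (hc : (f i).2.ab.2 ^ 2 * (f j).2.ab.1 ^ 3 ≠ (f j).2.ab.2 ^ 2 * (f i).2.ab.1 ^ 3) :
    PsiF W f + PsiF W (Function.update (Function.update f i h1) j h2) = 0 := by
  classical
  obtain ⟨π, π', hr1, hr0, -, -⟩ := two_places K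
  have hk : 0 < k := lt_of_le_of_lt (Nat.zero_le _) i.2
  set cs : K →+* Om K := algebraMap K (Om K) with hcs
  have hinj : Function.Injective cs := cs.injective
  have hcV : ∀ c : K, cs c ∈ π'.V := fun c => (rd_cst π' c).mem
  set g1 := (f i).2 with hg1
  set g2 := (f j).2 with hg2
  have n1 : ND g1.ab := hf.nd i
  have n2 : ND g2.ab := hf.nd j
  set I0 := zz g1 * zz g2 with hI0
  set R0 := (g1.w * g2.w) ^ 6 with hR0
  set α1 := g1.al with hα1
  set α2 := g2.al with hα2
  set β1 := g1.al + g1.ab.2 with hβ1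
  set β2 := g2.al + g2.ab.2 with hβ2
  set I : Om K := cs I0 - 1 + (tt K)⁻¹ with hI
  have hR00 : R0 ≠ 0 := pow_ne_zero _ (mul_ne_zero n1.w_ne n2.w_ne)
  have hα10 : α1 ≠ 0 := n1.al_ne
  have hα20 : α2 ≠ 0 := n2.al_ne
  have hβ10 : β1 ≠ 0 := n1.bp
  have hIV : I ∉ π'.V := by
    intro h
    apply hr0
    have e : (tt K)⁻¹ = I - cs I0 + 1 := by rw [hI]; ring
    rw [e]
    exact add_mem (sub_mem h (hcV _)) π'.V.one_mem
  have hIc : ∀ c : K, I ≠ cs c := fun c h => hIV (h ▸ hcV c)
  have hI00 : I ≠ 0 := fun h => hIc 0 (by rw [h, map_zero])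
  have hI1 : Rd π.V π.φ I I0 := by
    have h := ((rd_cst π I0).sub Rd.one).add hr1
    rwa [sub_add_cancel] at h
  -- the quadratic polynomial
  set A2 : Om K := qa (cs R0) (cs α2) (cs β2) I with hA2
  set A1 : Om K := qb (cs R0) (cs α1) (cs α2) (cs β1) (cs β2) I with hA1
  set A0 : Om K := qc (cs R0) (cs α1) (cs β1) I with hA0
  have hA2ne : A2 ≠ 0 := by
    intro h
    unfold qa at hA2
    refine hIc (2 * R0 * β2 / α2) ?_
    have h2 : cs α2 ≠ 0 := (map_ne_zero_iff _ hinj).2 hα20
    rw [map_div₀, eq_div_iff h2]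
    simp only [map_mul, map_ofNat]
    rw [h] at hA2
    have h3 : (2 : Om K) ≠ 0 := two_ne_zero
    apply mul_left_cancel₀ h3
    linear_combination hA2
  set Q : (Om K)[X] := C A2 * X ^ 2 + C A1 * X + C A0 with hQ
  have hQd : Q.natDegree = 2 := natDegree_quadratic hA2ne
  have hQ0 : Q ≠ 0 := by
    intro h
    rw [h, natDegree_zero] at hQd
    exact absurd hQd (by norm_num)
  have hroot : ∀ x ∈ Q.roots, A2 * x ^ 2 + A1 * x + A0 = 0 := by
    intro x hx
    have := (mem_roots hQ0).1 hx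
    rw [IsRoot.def, hQ] at this
    simpa using this
  have hfac : ∀ x ∈ Q.roots, I * (I - 2 * cs α2 * x) * (x - 2 * cs α1) = 4 * cs R0 * (x - cs β1) * (I - cs β2 * x) := by
    intro x hx
    have h := hroot x hx
    rw [hA2, hA1, hA0] at h
    unfold qa qb qc at h
    linear_combination h
  have hx0 : ∀ x ∈ Q.roots, x ≠ 0 := by
    rintro x hx rfl
    have h := hfac 0 hx
    refine hIc (2 * R0 * β1 / α1) ?_
    have h2 : cs α1 ≠ 0 := (map_ne_zero_iff _ hinj).2 hα10
    rw [map_div₀, eq_div_iff h2]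
    simp only [map_mul, map_ofNat]
    have h3 : (2 : Om K) * I ≠ 0 := mul_ne_zero two_ne_zero hI00
    apply mul_left_cancel₀ h3
    linear_combination -h
  have hb1 : ∀ x ∈ Q.roots, x - cs β1 ≠ 0 := by
    intro x hx h0
    have h := hfac x hx
    have hx' : x = cs β1 := sub_eq_zero.1 h0
    rw [h0, mul_zero, zero_mul, hx'] at h
    have hm : β1 - 2 * α1 ≠ 0 := by
      have := n1.bm
      rw [hβ1, hα1]
      intro h4
      apply this
      linear_combination h4
    have hm' : cs β1 - 2 * cs α1 ≠ 0 := by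
      have : cs (β1 - 2 * α1) ≠ 0 := (map_ne_zero_iff _ hinj).2 hm
      rwa [map_sub, map_mul, map_ofNat] at this
    rcases mul_eq_zero.1 h with h5 | h5
    · rcases mul_eq_zero.1 h5 with h6 | h6
      · exact hI00 h6
      · refine hIc (2 * α2 * β1) ?_
        simp only [map_mul, map_ofNat]
        exact sub_eq_zero.1 h6
    · exact hm' h5
  have ha1 : ∀ x ∈ Q.roots, x - 2 * cs α1 ≠ 0 := by
    intro x hx h0
    have h := hfac x hx
    have hx' : x = 2 * cs α1 := sub_eq_zero.1 h0
    rw [h0, mul_zero] at h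
    have h7 : (4 : Om K) * cs R0 * (x - cs β1) ≠ 0 :=
      mul_ne_zero (mul_ne_zero (by norm_num) ((map_ne_zero_iff _ hinj).2 hR00)) (hb1 x hx)
    have h8 := (mul_eq_zero.1 h.symm).resolve_left h7
    refine hIc (β2 * (2 * α1)) ?_
    simp only [map_mul, map_ofNat]
    rw [← hx']
    exact sub_eq_zero.1 h8
  -- the data
  set ρ : Om K → Om K := fun x => x * (x - 2 * cs α1) / (2 * (x - cs β1)) with hρ
  have h20 : (2 : Om K) ≠ 0 := two_ne_zero
  have hρ0 : ∀ x ∈ Q.roots, ρ x ≠ 0 := fun x hx =>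
    div_ne_zero (mul_ne_zero (hx0 x hx) (ha1 x hx)) (mul_ne_zero h20 (hb1 x hx))
  have hρ1 : ∀ x ∈ Q.roots, x * (x - 2 * cs α1) = 2 * ρ x * (x - cs β1) := by
    intro x hx
    rw [hρ]
    have := hb1 x hx
    field_simp
  have hρ2 : ∀ x ∈ Q.roots, I / x * (I / x - 2 * cs α2) = 2 * (cs R0 / ρ x) * (I / x - cs β2) := by
    intro x hx
    have h := hfac x hx
    have e1 := hx0 x hx
    have e2 := hb1 x hx
    have e3 := ha1 x hx
    rw [hρ]
    field_simp
    linear_combination h
  set r0 : Fin k → Om K := fun l => cs ((f l).2.w ^ 6) with hr0'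
  set e0 : Fin k → Om K := fun l => cs ((f l).2.w ^ 3 * (f l).2.y) with he0'
  set r : Om K → Fin k → Om K := fun x => Function.update (Function.update r0 i (ρ x)) j (cs R0 / ρ x) with hrdef
  set e : Om K → Fin k → Om K := fun x =>
    Function.update (Function.update e0 i (x - ρ x - cs α1)) j (I / x - cs R0 / ρ x - cs α2) with hedef
  have rj : ∀ x, r x j = cs R0 / ρ x := fun x => by rw [hrdef]; exact Function.update_self _ _ _
  have ri : ∀ x, r x i = ρ x := fun x => by
    rw [hrdef]; show Function.update _ j _ i = _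
    rw [Function.update_of_ne hij, Function.update_self]
  have rl : ∀ x l, l ≠ i → l ≠ j → r x l = r0 l := fun x l h1 h2 => by
    rw [hrdef]; show Function.update _ j _ l = _
    rw [Function.update_of_ne h2, Function.update_of_ne h1]
  have ej : ∀ x, e x j = I / x - cs R0 / ρ x - cs α2 := fun x => by rw [hedef]; exact Function.update_self _ _ _
  have ei : ∀ x, e x i = x - ρ x - cs α1 := fun x => by
    rw [hedef]; show Function.update _ j _ i = _
    rw [Function.update_of_ne hij, Function.update_self]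
  have el : ∀ x l, l ≠ i → l ≠ j → e x l = e0 l := fun x l h1 h2 => by
    rw [hedef]; show Function.update _ j _ l = _
    rw [Function.update_of_ne h2, Function.update_of_ne h1]
  have hcase : ∀ {p : Fin k → Prop}, p i → p j → (∀ l, l ≠ i → l ≠ j → p l) → ∀ l, p l := by
    intro p h1 h2 h3 l
    by_cases hi : l = i
    · rw [hi]; exact h1
    · by_cases hj : l = j
      · rw [hj]; exact h2
      · exact h3 l hi hj
  have hσρ : ∀ (σ : Om K ≃ₐ[RatFunc K] Om K) x, σ (ρ x) = ρ (σ x) := by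
    intro σ x
    have e1 : ∀ c : K, σ (cs c) = cs c := fun c => sigma_cst σ c
    rw [hρ]
    simp only [map_div₀, map_mul, map_sub, map_ofNat, e1]
  have hσI : ∀ σ : Om K ≃ₐ[RatFunc K] Om K, σ I = I := by
    intro σ
    rw [hI, map_add, map_sub, map_one, map_inv₀, sigma_tt]
    congr 2
    exact sigma_cst σ _
  have hσA : ∀ σ : Om K ≃ₐ[RatFunc K] Om K, Q.roots.map σ = Q.roots := by
    intro σ
    rw [roots_sigma]
    congr 1
    have e1 : ∀ c : K, (σ : Om K →+* Om K) (cs c) = cs c := fun c => sigma_cst σ c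
    have e2 : (σ : Om K →+* Om K) I = I := hσI σ
    have e3 : (σ : Om K →+* Om K) 4 = 4 := map_ofNat _ 4
    have e4 : (σ : Om K →+* Om K) 2 = 2 := map_ofNat _ 2
    rw [hQ, Polynomial.map_add, Polynomial.map_add, Polynomial.map_mul, Polynomial.map_mul, Polynomial.map_pow, map_X,
      map_C, map_C, map_C]
    have e5 : (σ : Om K →+* Om K) A2 = A2 := by
      rw [hA2]; unfold qa
      simp only [map_sub, map_mul, e1, e2, e3, e4]
    have e6 : (σ : Om K →+* Om K) A1 = A1 := by
      rw [hA1]; unfold qb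
      simp only [map_sub, map_add, map_mul, map_pow, e1, e2, e3]
    have e7 : (σ : Om K →+* Om K) A0 = A0 := by
      rw [hA0]; unfold qc
      simp only [map_sub, map_mul, map_pow, e1, e2, e3, e4]
    rw [e5, e6, e7]
  have hgen : ∀ l, ((f l).2.w ^ 3 * (f l).2.y) ^ 2 = ((f l).2.w ^ 6) ^ 2 + ((f l).2.w * (f l).2.v) ^ 6 -
      2 * (f l).2.ab.2 * (f l).2.w ^ 6 := by
    intro l
    unfold Vtx.ab
    have h2 : (2 : K) ≠ 0 := two_ne_zero
    field_simp
    ring
  have hab : ∀ l, (f l).2.ab = (ev W.a (f l).1, ev W.b (f l).1) := fun l => (hf.ok l).ab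
  have hqi : cs ((f i).2.w * (f i).2.v) ^ 6 = cs α1 ^ 2 := by
    rw [← map_pow, ← map_pow, hα1]
    congr 1
    unfold Vtx.al
    ring
  have hqj : cs ((f j).2.w * (f j).2.v) ^ 6 = cs α2 ^ 2 := by
    rw [← map_pow, ← map_pow, hα2]
    congr 1
    unfold Vtx.al
    ring
  have hbi : ev W.b (f i).1 = β1 - α1 := by
    have := hab i
    rw [hβ1, hα1, hg1, this]; ring
  have hbj : ev W.b (f j).1 = β2 - α2 := by
    have := hab j
    rw [hβ2, hα2, hg2, this]; ring
  -- apply the pencil theorem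
  have key := pencil (W := W) hk hW (β := fun l => (f l).1) (q := fun l => (f l).2.w * (f l).2.v)
    hf.b0 (fun l g hg => (hf.ok l).I g hg)
    (fun l => by
      have := hab l
      show ((f l).2.w * (f l).2.v) ^ 2 = _
      have h3 : (f l).2.ab.1 = ev W.a (f l).1 := by rw [this]
      rw [← h3]
      rfl)
    (fun l => mul_ne_zero (hf.nd l).w_ne (hf.nd l).v_ne)
    (A := Q.roots) hσA r e (cs (∏ l, (f l).2.w)) (fun σ => sigma_cst σ _)
    (fun x hx σ => hcase (by rw [ri, ri, hσρ]) (by rw [rj, rj, map_div₀, hσρ]; congr 1; exact sigma_cst σ _)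
      (fun l h1 h2 => by rw [rl x l h1 h2, rl _ l h1 h2]; exact sigma_cst σ _))
    (fun x hx σ => hcase (by rw [ei, ei, map_sub, map_sub, hσρ]; congr 1; exact sigma_cst σ _)
      (by
        rw [ej, ej, map_sub, map_sub, map_div₀, map_div₀, hσρ, hσI]
        congr 1
        · congr 2; exact sigma_cst σ _
        · exact sigma_cst σ _)
      (fun l h1 h2 => by rw [el x l h1 h2, el _ l h1 h2]; exact sigma_cst σ _))
    (fun x hx => hcase (by rw [ri]; exact hρ0 x hx)
      (by rw [rj]; exact div_ne_zero ((map_ne_zero_iff _ hinj).2 hR00) (hρ0 x hx))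
      (fun l h1 h2 => by
        rw [rl x l h1 h2]
        exact (map_ne_zero_iff _ hinj).2 (pow_ne_zero _ (hf.nd l).w_ne)))
    (fun x hx => hcase
      (by
        show e x i ^ 2 = r x i ^ 2 + cs ((f i).2.w * (f i).2.v) ^ 6 - 2 * cs (ev W.b (f i).1) * r x i
        rw [ri, ei, hqi, hbi, map_sub]
        linear_combination hρ1 x hx)
      (by
        show e x j ^ 2 = r x j ^ 2 + cs ((f j).2.w * (f j).2.v) ^ 6 - 2 * cs (ev W.b (f j).1) * r x j
        rw [rj, ej, hqj, hbj, map_sub]
        linear_combination hρ2 x hx)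
      (fun l h1 h2 => by
        show e x l ^ 2 = r x l ^ 2 + cs ((f l).2.w * (f l).2.v) ^ 6 - 2 * cs (ev W.b (f l).1) * r x l
        rw [rl x l h1 h2, el x l h1 h2, hr0', he0']
        have h3 := congrArg cs (hgen l)
        have h4 : (f l).2.ab.2 = ev W.b (f l).1 := by rw [hab l]
        rw [h4] at h3
        simp only [map_pow, map_mul, map_sub, map_add, map_ofNat] at h3 ⊢
        linear_combination h3))
    (fun x hx => by
      have h1 : ∏ l, r x l = ∏ l, r0 l := by
        rw [hrdef]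
        refine prod_update2 r0 hij ?_
        rw [hr0']
        show ρ x * (cs R0 / ρ x) = cs ((f i).2.w ^ 6) * cs ((f j).2.w ^ 6)
        rw [mul_div_cancel₀ _ (hρ0 x hx), ← map_mul, hR0, ← mul_pow]
      rw [h1, hr0', ← map_pow, ← Finset.prod_pow, map_prod])
    (π := π) (π' := π') (B := {PsiF W f, PsiF W (Function.update (Function.update f i h1) j h2)}) ?_ ?_
  · simpa using key
  · -- the limit at `π`
    have hz1 : zz g1 ≠ 0 := n1.zz_ne
    have hlead : qa R0 α2 β2 I0 ≠ 0 := recut_lead_ne hR n1 n2 hc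
    have hv : qa R0 α2 β2 I0 * zz g1 * zz h1.2 = qc R0 α1 β1 I0 := recut_vieta hR
    have hquad : qa R0 α2 β2 I0 * zz g1 ^ 2 + qb R0 α1 α2 β1 β2 I0 * zz g1 + qc R0 α1 β1 I0 = 0 := by
      have e1 : I0 / zz g1 = zz g2 := by rw [hI0, mul_div_cancel_left₀ _ hz1]
      have e2 : R0 / g1.w ^ 6 = g2.w ^ 6 := by
        rw [hR0, mul_pow, mul_div_cancel_left₀ _ (pow_ne_zero _ n1.w_ne)]
      refine quad_of hz1 (pow_ne_zero 6 n1.w_ne) (zz_rel g1) ?_
      rw [e1, e2]
      exact zz_rel g2
    set a2 := qa R0 α2 β2 I0 with ha2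
    set a1 := qb R0 α1 α2 β1 β2 I0 with ha1
    set a0 := qc R0 α1 β1 I0 with ha0
    have e1 : a1 = - (a2 * (zz g1 + zz h1.2)) := by
      apply mul_left_cancel₀ hz1
      linear_combination hquad + hv
    set Q0 : K[X] := C a2 * X ^ 2 + C a1 * X + C a0 with hQ0'
    have hQ0d : Q0.natDegree = 2 := natDegree_quadratic hlead
    have hQ00 : Q0 ≠ 0 := by
      intro h
      rw [h, natDegree_zero] at hQ0d
      exact absurd hQ0d (by norm_num)
    have hQ0r : Q0.roots = zz g1 ::ₘ zz h1.2 ::ₘ 0 := by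
      have e2 : Q0 = C a2 * ((X - C (zz g1)) * (X - C (zz h1.2))) := by
        rw [hQ0', e1, ← hv]
        simp only [map_neg, map_mul, map_add]
        ring
      rw [e2, roots_C_mul _ hlead, roots_mul (mul_ne_zero (X_sub_C_ne_zero _) (X_sub_C_ne_zero _)), roots_X_sub_C,
        roots_X_sub_C]
      rfl
    have hrdA : ∀ m, Rd π.V π.φ (Q.coeff m) (Q0.coeff m) := by
      intro m
      have c2 : Rd π.V π.φ A2 a2 := by
        rw [hA2, ha2]; unfold qa
        have h4 : Rd π.V π.φ (4 : Om K) 4 := by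
          have := Rd.two (φ := π.φ) |>.mul (Rd.two (φ := π.φ))
          have e3 : (2 : Om K) * 2 = 4 := by norm_num
          have e4 : (2 : K) * 2 = 4 := by norm_num
          rwa [e3, e4] at this
        exact ((h4.mul (rd_cst π _)).mul (rd_cst π _)).sub ((Rd.two.mul (rd_cst π _)).mul hI1)
      have h4 : Rd π.V π.φ (4 : Om K) 4 := by
        have := Rd.two (φ := π.φ) |>.mul (Rd.two (φ := π.φ))
        have e3 : (2 : Om K) * 2 = 4 := by norm_num
        have e4 : (2 : K) * 2 = 4 := by norm_num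
        rwa [e3, e4] at this
      have c1 : Rd π.V π.φ A1 a1 := by
        rw [hA1, ha1]; unfold qb
        exact (((hI1.pow 2).add (((h4.mul (rd_cst π _)).mul (rd_cst π _)).mul hI1)).sub
          ((h4.mul (rd_cst π _)).mul hI1)).sub (((h4.mul (rd_cst π _)).mul (rd_cst π _)).mul (rd_cst π _))
      have c0 : Rd π.V π.φ A0 a0 := by
        rw [hA0, ha0]; unfold qc
        exact (((h4.mul (rd_cst π _)).mul (rd_cst π _)).mul hI1).sub ((Rd.two.mul (rd_cst π _)).mul (hI1.pow 2))
      rw [hQ, hQ0']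
      simp only [coeff_add, coeff_C_mul, coeff_X_pow, coeff_X, coeff_C]
      refine ((c2.mul ?_).add (c1.mul ?_)).add ?_
      · split_ifs
        · exact Rd.one
        · exact Rd.zero
      · split_ifs
        · exact Rd.one
        · exact Rd.zero
      · split_ifs
        · exact c0
        · exact Rd.zero
    have hrel := roots_rd (π := π) hQ00 hrdA (by rw [hQd, hQ0d])
    rw [hQ0r] at hrel
    obtain ⟨x1, A', hx1, hrel', hAeq⟩ := (Multiset.rel_cons_right).1 hrel
    obtain ⟨x2, A'', hx2, hrel'', hAeq'⟩ := (Multiset.rel_cons_right).1 hrel'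
    have hA'' : A'' = 0 := (Multiset.rel_zero_right).1 hrel''
    rw [hA''] at hAeq'
    rw [hAeq'] at hAeq
    have hloc := π.isLocal
    have hIRd : ∀ {x : Om K} {z : K}, Rd π.V π.φ x z → z ≠ 0 → Rd π.V π.φ (I / x) (I0 / z) := by
      intro x z hx hz
      rw [div_eq_mul_inv, div_eq_mul_inv]
      exact hI1.mul (hx.inv hz)
    have hρRd : ∀ {x : Om K} {z : K}, Rd π.V π.φ x z → z - β1 ≠ 0 →
        Rd π.V π.φ (ρ x) (z * (z - 2 * α1) / (2 * (z - β1))) := by
      intro x z hx hz
      rw [hρ]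
      show Rd π.V π.φ (x * (x - 2 * cs α1) / (2 * (x - cs β1))) _
      rw [div_eq_mul_inv, div_eq_mul_inv]
      refine (hx.mul (hx.sub (Rd.two.mul (rd_cst π _)))).mul (Rd.inv (Rd.two.mul (hx.sub (rd_cst π _))) ?_)
      exact mul_ne_zero two_ne_zero hz
    have hρval : ∀ {u : Vtx K}, ND u.ab → u.al = α1 → u.ab = g1.ab →
        zz u * (zz u - 2 * α1) / (2 * (zz u - β1)) = u.w ^ 6 := by
      intro u hu hua hub
      have h2 : zz u - β1 ≠ 0 := by
        have := hu.zz_sub_ne
        rwa [hua, hub] at this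
      have h3 := zz_rel u
      rw [hua, hub] at h3
      have h4 : α1 + g1.ab.2 = β1 := rfl
      rw [h4] at h3
      rw [h3]
      have h20 : (2 : K) ≠ 0 := two_ne_zero
      field_simp
    have hnh1 : ND h1.2.ab := by rw [hR.ab1]; exact n1
    have hnh2 : ND h2.2.ab := by rw [hR.ab2]; exact n2
    -- general construction of the limit data
    have hlim : ∀ (x : Om K) (u1 u2 : Lk s K), Rd π.V π.φ x (zz u1.2) → u1.1 = (f i).1 → u2.1 = (f j).1 →
        u1.2.ab = g1.ab → u2.2.ab = g2.ab → u1.2.al = α1 → u2.2.al = α2 → ND u1.2.ab → ND u2.2.ab →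
        zz u1.2 * zz u2.2 = I0 → u1.2.w * u2.2.w = g1.w * g2.w →
        LimD W (fun l => (f l).1) (fun l => (f l).2.w * (f l).2.v) π (r x) (e x) (cs (∏ l, (f l).2.w))
          (PsiF W (Function.update (Function.update f i u1) j u2)) := by
      intro x u1 u2 hx hu1 hu2 hab1 hab2 hal1 hal2 m1 m2 hII hww
      set f0 := Function.update (Function.update f i u1) j u2 with hf0
      have fj : f0 j = u2 := Function.update_self _ _ _
      have fi : f0 i = u1 := by rw [hf0, Function.update_of_ne hij, Function.update_self]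
      have fl : ∀ l, l ≠ i → l ≠ j → f0 l = f l := fun l h1 h2 => by
        rw [hf0, Function.update_of_ne h2, Function.update_of_ne h1]
      have hρx : Rd π.V π.φ (ρ x) (u1.2.w ^ 6) := by
        have h2 : zz u1.2 - β1 ≠ 0 := by
          have := m1.zz_sub_ne
          rwa [hal1, hab1] at this
        have h3 := hρRd hx h2
        rwa [hρval m1 hal1 hab1] at h3
      have hρ2x : Rd π.V π.φ (cs R0 / ρ x) (u2.2.w ^ 6) := by
        have h2 : u2.2.w ^ 6 = R0 * (u1.2.w ^ 6)⁻¹ := by
          rw [hR0, ← hww, mul_pow]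
          have := m1.w_ne
          field_simp
        rw [h2, div_eq_mul_inv]
        exact (rd_cst π _).mul (hρx.inv (pow_ne_zero _ m1.w_ne))
      have hIx : Rd π.V π.φ (I / x) (zz u2.2) := by
        have h2 : zz u2.2 = I0 / zz u1.2 := by
          rw [← hII, mul_div_cancel_left₀ _ m1.zz_ne]
        rw [h2]
        exact hIRd hx m1.zz_ne
      refine Or.inl ⟨f0, hcase (by rw [fi]; exact hu1) (by rw [fj]; exact hu2) (fun l h1 h2 => by rw [fl l h1 h2]),
        hcase ?_ ?_ (fun l h1 h2 => by rw [fl l h1 h2]),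
        hcase (by rw [fi]; exact m1.w_ne) (by rw [fj]; exact m2.w_ne)
          (fun l h1 h2 => by rw [fl l h1 h2]; exact (hf.nd l).w_ne),
        hcase (by rw [fi, ri]; exact hρx) (by rw [fj, rj]; exact hρ2x)
          (fun l h1 h2 => by rw [fl l h1 h2, rl x l h1 h2]; exact rd_cst π _),
        hcase ?_ ?_ (fun l h1 h2 => by rw [fl l h1 h2, el x l h1 h2]; exact rd_cst π _), ?_, rfl⟩
      · rw [fi]
        exact pf_wv_eq (by rw [hab1]) (by rw [hal1]) (mul_ne_zero m1.w_ne m1.v_ne)
      · rw [fj]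
        exact pf_wv_eq (by rw [hab2]) (by rw [hal2]) (mul_ne_zero m2.w_ne m2.v_ne)
      · rw [fi, ei, zz_eq, hal1]
        exact (hx.sub hρx).sub (rd_cst π _)
      · rw [fj, ej, zz_eq, hal2]
        exact (hIx.sub hρ2x).sub (rd_cst π _)
      · have h2 : ∏ l, (f0 l).2.w = ∏ l, (f l).2.w := by
          have h3 : (fun l => (f0 l).2.w) =
              Function.update (Function.update (fun l => (f l).2.w) i u1.2.w) j u2.2.w := by
            funext l
            revert l
            refine hcase ?_ ?_ (fun l h1 h2 => ?_)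
            · rw [fi, Function.update_of_ne hij, Function.update_self]
            · rw [fj, Function.update_self]
            · rw [fl l h1 h2, Function.update_of_ne h2, Function.update_of_ne h1]
          rw [h3]
          exact prod_update2 _ hij hww
        rw [h2]
        exact rd_cst π _
    rw [hAeq]
    refine Multiset.Rel.cons ?_ (Multiset.Rel.cons ?_ Multiset.Rel.zero)
    · have h2 := hlim x1 (f i) (f j) hx1 rfl rfl rfl rfl rfl rfl n1 n2 rfl rfl
      rwa [Function.update_eq_self, Function.update_eq_self] at h2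
    · exact hlim x2 h1 h2 hx2 hl1 hl2 hR.ab1 hR.ab2 hR.al1 hR.al2 hnh1 hnh2 (recut_I hR) (by rw [hR.w]; ring)
  · intro x hx
    by_contra hcon
    push Not at hcon
    have h1 := hcon i
    rw [ri] at h1
    obtain ⟨h1, h2⟩ := h1
    have h3 : x ∈ π'.V := by
      refine mem_of_quad (a := 2 * cs α1 + 2 * ρ x) (b := - (2 * ρ x * cs β1)) ?_ ?_ ?_
      · exact add_mem (mul_mem (Rd.two (φ := π'.φ)).mem (hcV _)) (mul_mem (Rd.two (φ := π'.φ)).mem h1)
      · exact neg_mem (mul_mem (mul_mem (Rd.two (φ := π'.φ)).mem h1) (hcV _))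
      · linear_combination hρ1 x hx
    have h4 : cs R0 / ρ x ∈ π'.V := by
      rw [div_eq_mul_inv]
      exact mul_mem (hcV _) h2
    have h5 : I / x ∈ π'.V := by
      refine mem_of_quad (a := 2 * cs α2 + 2 * (cs R0 / ρ x)) (b := - (2 * (cs R0 / ρ x) * cs β2)) ?_ ?_ ?_
      · exact add_mem (mul_mem (Rd.two (φ := π'.φ)).mem (hcV _)) (mul_mem (Rd.two (φ := π'.φ)).mem h4)
      · exact neg_mem (mul_mem (mul_mem (Rd.two (φ := π'.φ)).mem h4) (hcV _))
      · linear_combination hρ2 x hx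
    apply hIV
    have h6 : I = I / x * x := by rw [div_mul_cancel₀ _ (hx0 x hx)]
    rw [h6]
    exact mul_mem h5 h3

end ES
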