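import Pool.Agent.H34.ES.Pen

/-! # ES.R2A : algebra of the recutting pencil (complete, no sorry) -/

namespace ES

open H68.BB Polynomial

variable {F : Type} [Field F] [CharZero F]

/-- `w^3 p` -/
def zz (u : Vtx F) : F := u.w ^ 3 * u.p

theorem zz_eq (u : Vtx F) : u.w ^ 3 * u.y = zz u - u.w ^ 6 - u.al := by
  unfold zz Vtx.p Vtx.al
  ring

theorem zz_rel (u : Vtx F) : zz u * (zz u - 2 * u.al) = 2 * u.w ^ 6 * (zz u - (u.al + u.ab.2)) := by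
  unfold zz Vtx.p Vtx.al Vtx.ab
  ring

theorem zz_ps (u : Vtx F) : zz u * (u.w ^ 3 * u.ps) = 2 * u.w ^ 6 * (u.al + u.ab.2) := by
  unfold zz Vtx.p Vtx.ps Vtx.al Vtx.ab
  ring

theorem pf_al_sq (u : Vtx F) : u.al ^ 2 = u.ab.1 ^ 3 := by
  unfold Vtx.al Vtx.ab
  ring

section
variable {u : Vtx F}

theorem ND.al_ne (h : ND u.ab) : u.al ≠ 0 := by
  intro h0
  apply h.a
  have h1 := pf_al_sq u
  rw [h0] at h1
  exact pow_eq_zero_iff (n := 3) (by norm_num) |>.1 (by rw [← h1]; ring)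

theorem ND.w_ne (h : ND u.ab) : u.w ≠ 0 := by
  intro h0
  apply h.al_ne
  unfold Vtx.al
  rw [h0]; ring

theorem ND.v_ne (h : ND u.ab) : u.v ≠ 0 := by
  intro h0
  apply h.al_ne
  unfold Vtx.al
  rw [h0]; ring

theorem ND.bp (h : ND u.ab) : u.al + u.ab.2 ≠ 0 := by
  intro h0
  apply h.d
  rw [← pf_al_sq]
  linear_combination (u.ab.2 - u.al) * h0

theorem ND.bm (h : ND u.ab) : u.ab.2 - u.al ≠ 0 := by
  intro h0
  apply h.d
  rw [← pf_al_sq]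
  linear_combination (u.ab.2 + u.al) * h0

theorem ND.zz_ne (h : ND u.ab) : zz u ≠ 0 := by
  intro h0
  have h1 := zz_ps u
  rw [h0, zero_mul] at h1
  have h2 : (2 : F) ≠ 0 := two_ne_zero
  exact mul_ne_zero (mul_ne_zero h2 (pow_ne_zero 6 h.w_ne)) h.bp h1.symm

theorem ND.zz_sub_ne (h : ND u.ab) : zz u - (u.al + u.ab.2) ≠ 0 := by
  intro h0
  have h1 := zz_rel u
  rw [h0, mul_zero] at h1
  rcases mul_eq_zero.1 h1 with h2 | h2
  · exact h.zz_ne h2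
  · apply h.bm
    linear_combination h2 - h0

end

/-- the coefficients of the quadratic equation of the pencil -/
def qa (R α2 β2 I : F) : F := 4 * R * β2 - 2 * α2 * I
def qb (R α1 α2 β1 β2 I : F) : F := I ^ 2 + 4 * α1 * α2 * I - 4 * R * I - 4 * R * β1 * β2
def qc (R α1 β1 I : F) : F := 4 * R * β1 * I - 2 * α1 * I ^ 2

theorem quad_of {R α1 α2 β1 β2 I z ρ : F} (hz : z ≠ 0) (hρ : ρ ≠ 0) (h1 : z * (z - 2 * α1) = 2 * ρ * (z - β1))
    (h2 : I / z * (I / z - 2 * α2) = 2 * (R / ρ) * (I / z - β2)) :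
    qa R α2 β2 I * z ^ 2 + qb R α1 α2 β1 β2 I * z + qc R α1 β1 I = 0 := by
  unfold qa qb qc
  have h3 : I * (I - 2 * α2 * z) * ρ = 2 * R * (I - β2 * z) * z := by
    field_simp at h2
    linear_combination h2
  have h4 : ρ * (I * (I - 2 * α2 * z) * (z - 2 * α1) - 4 * R * (z - β1) * (I - β2 * z)) = 0 := by
    linear_combination (z - 2 * α1) * h3 + (2 * R * (I - β2 * z)) * h1
  have h5 := (mul_eq_zero.1 h4).resolve_left hρ
  linear_combination h5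

section
variable {g1 g2 h2 h1 : Vtx F}

/-- the second half of the recutting identities: `w1^3 w2^3` times the totals `Y`, `Y*` -/
theorem recut_E (h : Recut g1 g2 h2 h1) : g1.w ^ 3 * g2.y + g1.y * g2.v ^ 3 = h2.w ^ 3 * h1.y + h2.y * h1.v ^ 3 := by
  have h1' := h.pp
  have h2' := h.qq
  have h3' := h.mm
  have h4' := h.nn
  simp only [Vtx.p, Vtx.ps, Vtx.m, Vtx.ms] at h1' h2' h3' h4'
  have h4 : (4 : F) ≠ 0 := by norm_num
  apply mul_left_cancel₀ h4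
  linear_combination h1' - h2' + h3' - h4'

theorem recut_Es (h : Recut g1 g2 h2 h1) : g1.v ^ 3 * g2.y + g1.y * g2.w ^ 3 = h2.v ^ 3 * h1.y + h2.y * h1.w ^ 3 := by
  have h1' := h.pp
  have h2' := h.qq
  have h3' := h.mm
  have h4' := h.nn
  simp only [Vtx.p, Vtx.ps, Vtx.m, Vtx.ms] at h1' h2' h3' h4'
  have h4 : (4 : F) ≠ 0 := by norm_num
  apply mul_left_cancel₀ h4
  linear_combination h1' - h2' - h3' + h4'

theorem recut_I (h : Recut g1 g2 h2 h1) : zz h1 * zz h2 = zz g1 * zz g2 := by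
  unfold zz
  have e1 : h1.w ^ 3 * h1.p * (h2.w ^ 3 * h2.p) = (h2.w * h1.w) ^ 3 * (h2.p * h1.p) := by ring
  have e2 : g1.w ^ 3 * g1.p * (g2.w ^ 3 * g2.p) = (g1.w * g2.w) ^ 3 * (g1.p * g2.p) := by ring
  rw [e1, e2, h.w, h.pp]

theorem recut_lead1 : 2 * (g1.w * g2.w) ^ 6 * (g2.al + g2.ab.2) - g2.al * (zz g1 * zz g2) =
    zz g2 * ((g1.w * g2.w) ^ 6 - g1.al * g2.al - (g1.w * g2.w) ^ 3 * (g1.w ^ 3 * g2.y + g1.y * g2.v ^ 3)) := by
  unfold zz Vtx.p Vtx.al Vtx.ab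
  ring

theorem recut_lead2 : 2 * (g1.w * g2.w) ^ 6 * (g1.al + g1.ab.2) - g1.al * (zz g1 * zz g2) =
    zz g1 * ((g1.w * g2.w) ^ 6 - g1.al * g2.al - (g1.w * g2.w) ^ 3 * (g1.v ^ 3 * g2.y + g1.y * g2.w ^ 3)) := by
  unfold zz Vtx.p Vtx.al Vtx.ab
  ring

theorem recut_vieta (h : Recut g1 g2 h2 h1) :
    qa ((g1.w * g2.w) ^ 6) g2.al (g2.al + g2.ab.2) (zz g1 * zz g2) * zz g1 * zz h1 =
      qc ((g1.w * g2.w) ^ 6) g1.al (g1.al + g1.ab.2) (zz g1 * zz g2) := by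
  have a1 := recut_lead1 (g1 := g1) (g2 := g2)
  have a2 := recut_lead2 (g1 := h1) (g2 := h2)
  have hI := recut_I h
  have hw := h.w
  have hw' : h1.w * h2.w = g1.w * g2.w := by rw [hw]; ring
  have hE := recut_E h
  rw [hI, h.ab1, h.al1, h.al2, hw'] at a2
  have e3 : h1.v ^ 3 * h2.y + h1.y * h2.w ^ 3 = g1.w ^ 3 * g2.y + g1.y * g2.v ^ 3 := by
    rw [hE]; ring
  rw [e3] at a2
  unfold qa qc
  linear_combination 2 * zz g1 * zz h1 * a1 - 2 * (zz g1 * zz g2) * a2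

theorem recut_lead_ne (h : Recut g1 g2 h2 h1) (n1 : ND g1.ab) (n2 : ND g2.ab)
    (hc : g1.ab.2 ^ 2 * g2.ab.1 ^ 3 ≠ g2.ab.2 ^ 2 * g1.ab.1 ^ 3) :
    qa ((g1.w * g2.w) ^ 6) g2.al (g2.al + g2.ab.2) (zz g1 * zz g2) ≠ 0 := by
  intro h0
  have hv := recut_vieta h
  rw [h0, zero_mul, zero_mul] at hv
  unfold qa at h0
  unfold qc at hv
  apply hc
  rw [← pf_al_sq, ← pf_al_sq]
  have hI : zz g1 * zz g2 ≠ 0 := mul_ne_zero n1.zz_ne n2.zz_ne
  have h2 : (2 : F) ≠ 0 := two_ne_zero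
  have e1 : 2 * ((g1.w * g2.w) ^ 6) * (g1.al + g1.ab.2) - g1.al * (zz g1 * zz g2) = 0 := by
    have : (2 * (zz g1 * zz g2)) * (2 * ((g1.w * g2.w) ^ 6) * (g1.al + g1.ab.2) - g1.al * (zz g1 * zz g2)) = 0 := by
      linear_combination -hv
    exact (mul_eq_zero.1 this).resolve_left (mul_ne_zero h2 hI)
  have e2 : 2 * ((g1.w * g2.w) ^ 6) * (g2.al + g2.ab.2) - g2.al * (zz g1 * zz g2) = 0 := by
    have : 2 * (2 * ((g1.w * g2.w) ^ 6) * (g2.al + g2.ab.2) - g2.al * (zz g1 * zz g2)) = 0 := by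
      linear_combination h0
    exact (mul_eq_zero.1 this).resolve_left h2
  have hR : 2 * ((g1.w * g2.w) ^ 6) ≠ 0 := mul_ne_zero h2 (pow_ne_zero _ (mul_ne_zero n1.w_ne n2.w_ne))
  have e3 : g1.ab.2 * g2.al - g2.ab.2 * g1.al = 0 := by
    have : (2 * ((g1.w * g2.w) ^ 6)) * (g1.ab.2 * g2.al - g2.ab.2 * g1.al) = 0 := by
      linear_combination g2.al * e1 - g1.al * e2
    exact (mul_eq_zero.1 this).resolve_left hR
  linear_combination (g1.ab.2 * g2.al + g2.ab.2 * g1.al) * e3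

end

end ES
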