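import Pool.Agent.H34.ES.Spc

/-! # ES.Slot : relations in one or two slots of a `k`-tuple (complete, no sorry)

`sl W P i Q` is the class of the tuple `P` with the coordinate `i` replaced by `Q`; `sl2 W P i j Q R` the class with two coordinates
replaced.  `slot_eq`, `slot2_eq`: a Galois-stable multiset of `Ω`-points (pairs of points) of `W` has the same class at all places. -/

namespace ES

open H68.BB Polynomial
open H67.KH (mem_of_root mem_of_cubic rd_of_mem rd_cst sigma_cst sigma_tt)

variable {K : Type} [Field K] {s k : ℕ} {W : Wm K s}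

/-- the class of the tuple `P` with the coordinate `i` replaced by `Q` -/
noncomputable def sl (W : Wm K s) (P : Fin k → Pt s K) (i : Fin k) (Q : Pt s K) : AA k W :=
  cls W (Function.update P i Q)

/-- the class of the tuple `P` with the coordinates `i`, `j` replaced by `Q`, `R` -/
noncomputable def sl2 (W : Wm K s) (P : Fin k → Pt s K) (i j : Fin k) (Q R : Pt s K) : AA k W :=
  cls W (Function.update (Function.update P i Q) j R)

/-- `Sp` for pairs -/
def SpP (W : Wm K s) (π : Place K (Om K)) (P : Pt s (Om K) × Pt s (Om K)) (p : Pt s K × Pt s K) : Prop :=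
  Sp W π P.1 p.1 ∧ Sp W π P.2 p.2

/-- the constant tuple -/
noncomputable def cstT (P : Fin k → Pt s K) : Fin k → Pt s (Om K) := fun j => (P j).map (algebraMap K (Om K))

theorem sl_o (P : Fin k → Pt s K) (i : Fin k) : sl W P i (o s K) = 0 := by
  unfold sl
  exact cls_o W (i := i) (by rw [Function.update_self])

theorem sl2_o_left (P : Fin k → Pt s K) {i j : Fin k} (hij : i ≠ j) (R : Pt s K) : sl2 W P i j (o s K) R = 0 := by
  unfold sl2
  exact cls_o W (i := i) (by rw [Function.update_of_ne hij, Function.update_self])

theorem sl2_o_right (P : Fin k → Pt s K) (i j : Fin k) (Q : Pt s K) : sl2 W P i j Q (o s K) = 0 := by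
  unfold sl2
  exact cls_o W (i := j) (by rw [Function.update_self])

/-- exchanging the two slots -/
theorem sl2_swap (P : Fin k → Pt s K) {i j : Fin k} (hij : i ≠ j) (Q R : Pt s K) :
    sl2 W P i j Q R = - sl2 W P i j R Q := by
  have h := cls_perm W (Function.update (Function.update P i R) j Q) (Equiv.swap i j)
  rw [Equiv.Perm.sign_swap hij] at h
  have e : (fun l => Function.update (Function.update P i R) j Q (Equiv.swap i j l)) =
      Function.update (Function.update P i Q) j R := by
    funext l
    by_cases hi : l = i
    · subst hi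
      rw [Equiv.swap_apply_left, Function.update_self, Function.update_of_ne hij, Function.update_self]
    · by_cases hj : l = j
      · subst hj
        rw [Equiv.swap_apply_right, Function.update_self, Function.update_of_ne hij, Function.update_self]
      · rw [Equiv.swap_apply_of_ne_of_ne hi hj, Function.update_of_ne hj, Function.update_of_ne hi,
          Function.update_of_ne hj, Function.update_of_ne hi]
  rw [e] at h
  unfold sl2
  rw [h]
  simp

private theorem map_update (σ : Om K ≃ₐ[RatFunc K] Om K) (P : Fin k → Pt s (Om K)) (i : Fin k) (Q : Pt s (Om K)) :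
    (fun j => (Function.update P i Q j).map σ) = Function.update (fun j => (P j).map σ) i (Q.map σ) := by
  funext j
  by_cases h : j = i
  · subst h; rw [Function.update_self, Function.update_self]
  · rw [Function.update_of_ne h, Function.update_of_ne h]

private theorem map_cstT (σ : Om K ≃ₐ[RatFunc K] Om K) (P : Fin k → Pt s K) :
    (fun j => (cstT P j).map σ) = cstT P := by
  funext j
  exact map_cst σ (P j)

/-- relations in one slot -/
theorem slot_eq {P : Fin k → Pt s K} (hP : ∀ j, OnW W (P j)) (i : Fin k) {A : Multiset (Pt s (Om K))}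
    {B B' : Multiset (Pt s K)} {π π' : Place K (Om K)} (hA : ∀ Q ∈ A, OnW W Q)
    (hG : ∀ σ : Om K ≃ₐ[RatFunc K] Om K, A.map (Pt.map σ) = A) (h : Multiset.Rel (Sp W π) A B)
    (h' : Multiset.Rel (Sp W π') A B') : (B.map (sl W P i)).sum = (B'.map (sl W P i)).sum := by
  have hsp : ∀ (π : Place K (Om K)) (Q : Pt s (Om K)) (q : Pt s K), Sp W π Q q →
      SpT W π (Function.update (cstT P) i Q) (Function.update P i q) := by
    intro π Q q hq j
    by_cases hj : j = i
    · subst hj; rw [Function.update_self, Function.update_self]; exact hq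
    · rw [Function.update_of_ne hj, Function.update_of_ne hj]; exact Sp_cst π (hP j).1
  refine Lim.eq (S := A.map (fun Q => Function.update (cstT P) i Q)) (π := π) (π' := π') ?_ ?_ ?_ ?_
  · intro T hT j
    obtain ⟨Q, hQ, rfl⟩ := Multiset.mem_map.1 hT
    by_cases hj : j = i
    · subst hj; rw [Function.update_self]; exact hA Q hQ
    · rw [Function.update_of_ne hj]; exact OnW_cst (hP j)
  · intro σ
    rw [Multiset.map_map]
    have e : ((fun (P : Fin k → Pt s (Om K)) j => (P j).map σ) ∘ fun Q => Function.update (cstT P) i Q) =
        (fun Q => Function.update (cstT P) i Q) ∘ Pt.map σ := by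
      funext Q
      simp only [Function.comp]
      rw [map_update, map_cstT]
    rw [e, ← Multiset.map_map, hG σ]
  · exact Lim.map h _ _ (fun Q _ q _ hq => hsp π Q q hq)
  · exact Lim.map h' _ _ (fun Q _ q _ hq => hsp π' Q q hq)

/-- relations in two slots -/
theorem slot2_eq {P : Fin k → Pt s K} (hP : ∀ j, OnW W (P j)) {i j : Fin k} (hij : i ≠ j)
    {A : Multiset (Pt s (Om K) × Pt s (Om K))} {B B' : Multiset (Pt s K × Pt s K)} {π π' : Place K (Om K)}
    (hA : ∀ Q ∈ A, OnW W Q.1 ∧ OnW W Q.2)
    (hG : ∀ σ : Om K ≃ₐ[RatFunc K] Om K, A.map (fun Q => (Q.1.map σ, Q.2.map σ)) = A)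
    (h : Multiset.Rel (SpP W π) A B) (h' : Multiset.Rel (SpP W π') A B') :
    (B.map (fun q => sl2 W P i j q.1 q.2)).sum = (B'.map (fun q => sl2 W P i j q.1 q.2)).sum := by
  have hsp : ∀ (π : Place K (Om K)) (Q : Pt s (Om K) × Pt s (Om K)) (q : Pt s K × Pt s K), SpP W π Q q →
      SpT W π (Function.update (Function.update (cstT P) i Q.1) j Q.2)
        (Function.update (Function.update P i q.1) j q.2) := by
    intro π Q q hq l
    by_cases hj : l = j
    · subst hj; rw [Function.update_self, Function.update_self]; exact hq.2
    · rw [Function.update_of_ne hj, Function.update_of_ne hj]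
      by_cases hi : l = i
      · subst hi; rw [Function.update_self, Function.update_self]; exact hq.1
      · rw [Function.update_of_ne hi, Function.update_of_ne hi]; exact Sp_cst π (hP l).1
  refine Lim.eq (S := A.map (fun Q => Function.update (Function.update (cstT P) i Q.1) j Q.2)) (π := π) (π' := π')
    ?_ ?_ ?_ ?_
  · intro T hT l
    obtain ⟨Q, hQ, rfl⟩ := Multiset.mem_map.1 hT
    by_cases hj : l = j
    · subst hj; rw [Function.update_self]; exact (hA Q hQ).2
    · rw [Function.update_of_ne hj]
      by_cases hi : l = i
      · subst hi; rw [Function.update_self]; exact (hA Q hQ).1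
      · rw [Function.update_of_ne hi]; exact OnW_cst (hP l)
  · intro σ
    rw [Multiset.map_map]
    have e : ((fun (P : Fin k → Pt s (Om K)) j => (P j).map σ) ∘
        fun Q => Function.update (Function.update (cstT P) i Q.1) j Q.2) =
        (fun Q => Function.update (Function.update (cstT P) i Q.1) j Q.2) ∘
          fun Q : Pt s (Om K) × Pt s (Om K) => (Q.1.map σ, Q.2.map σ) := by
      funext Q
      simp only [Function.comp]
      rw [map_update, map_update, map_cstT]
    rw [e, ← Multiset.map_map, hG σ]
  · exact Lim.map h _ _ (fun Q _ q _ hq => hsp π Q q hq)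
  · exact Lim.map h' _ _ (fun Q _ q _ hq => hsp π' Q q hq)

end ES
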